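import Pool.Agent.MP_f251cb_gt.Iter
import Mathlib.Algebra.Order.BigOperators.Group.List
import Mathlib.Topology.Sheaves.Presheaf
import Mathlib.Tactic.Bound

-- ======== part 0: formerly Pool.Agent.MP_f251cb_gt.Ext
section MrgPart0

/-!
Extending a condition at one coordinate by a name, and separativity.
-/

set_option autoImplicit false

universe u v

namespace Pool.Agent.MP_f251cb_gt

open Set MeasureTheory

variable {α β γ : O} {p q r u v w : Raw} {Φ Ψ : Set Raw → Prop}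

lemma forces_up (hp : p ∈ FF.P) (h : FF.Forces (rs β p) Φ) : FF.Forces p Φ :=
  h.mono (PB_sub (rs_mem hp β)) (le_rs p β)

lemma forces_all (h : ∀ G, Φ G) : FF.Forces p Φ := good_FF.of_forall (fun G _ _ => h G)

lemma forces_ex {ι : Sort v} [Countable ι] {Φ : ι → Set Raw → Prop}
    (h : ∀ i, Measurable[(SB β).ms] (Φ i)) (hv : v ∈ PB β)
    (h' : FF.Forces v (fun G => ∃ i, Φ i G)) : ∃ r ∈ PB β, FF.le r v ∧ ∃ i, FF.Forces r (Φ i) :=
  Fo.Sub.exists_of_forces_ex (S := SB β) h hv h'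

lemma forces_rs (h : Measurable[(SB β).ms] Φ) (hp : p ∈ FF.P) (h' : FF.Forces p Φ) :
    FF.Forces (rs β p) Φ := Fo.Sub.forces_π (S := SB β) h hp h'

lemma filt_rs {G : Set Raw} (hG : FF.Filt G) (hp : p ∈ G) (β : O) : rs β p ∈ G :=
  (SB β).π_mem hG hp

/-- the coordinate given by a name -/
def nameD (β : O) (g : Set Raw → Cd) : Dt β :=
  mkD β (fun c => {v | v ∈ PB β ∧ FF.Forces v (fun G => ¬ c ∈ g G)})

lemma ev_name {g : Set Raw → Cd} (hg : @MS _ (SB β).ms _ g) (h : p β = nameD β g) (q : Raw) :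
    FF.Forces q (fun G => act β G → ev β p G = g G) := by
  let _ := (SB β).ms
  have k1 := good_FF.forces_forall (fun c => Fo.Sub.truth (S := SB β) (hg c).not q)
  have k2 := good_FF.forces_forall (fun c => Fo.Sub.truth' (S := SB β) (hg c).not q)
  refine (k1.and k2).imp (fun G _ _ k ha => Set.ext (fun c => ?_))
  have : hitS (PB β) (bits β (p β) c) G ↔
      ∃ v ∈ G, v ∈ PB β ∧ FF.Forces v (fun G => ¬ c ∈ g G) := by
    rw [h]
    refine exists_congr (fun v => and_congr_right (fun _ => and_congr_right (fun hv => ?_)))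
    rw [nameD, bits_mkD, rs_PB hv]
    exact ⟨fun l => l.2, fun l => ⟨hv, l⟩⟩
  constructor
  · intro l
    by_contra hn
    exact l ha (this.2 (k.1 c hn))
  · intro l _ m
    exact k.2 c (this.1 m) l

/-- extension of `w` by `u` below `β` and by a name at `β` -/
noncomputable def extn (β : O) (u : Raw) (g : Set Raw → Cd) (w : Raw) : Raw :=
  glue β u (Function.update w β (nameD β g))

lemma extn_eq {g : Set Raw → Cd} : extn β u g w β = nameD β g := by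
  rw [extn, glue_ge le_rfl, Function.update_self]

lemma extn_gt {g : Set Raw → Cd} (h : β < γ) : extn β u g w γ = w γ := by
  rw [extn, glue_ge h.le, Function.update_of_ne h.ne']

lemma rs_extn {g : Set Raw → Cd} (hu : u ∈ PB β) : rs β (extn β u g w) = u := rs_glue hu

lemma extn_le' {g : Set Raw → Cd} (hu : u ∈ PB β) : FF.le (extn β u g w) u := glue_le' hu

lemma extn_ev {g : Set Raw → Cd} (hg : @MS _ (SB β).ms _ g) (q : Raw) :
    FF.Forces q (fun G => act β G → ev β (extn β u g w) G = g G) := ev_name hg extn_eq q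

lemma extn_le {g : Set Raw → Cd} (hg : @MS _ (SB β).ms _ g) (hu : u ∈ PB β)
    (h0 : FF.le u (rs β w))
    (h3 : FF.Forces u (fun G => act β G → Tr (g G) ⊆ Tr (ev β w G))) :
    FF.le (extn β u g w) w := by
  intro γ
  rcases lt_trichotomy γ β with k | rfl | k
  · exact Lc_congr (fun _ l => (glue_lt (l.trans_lt k)).symm) (rs_lt _ k) (h0 γ)
  · rw [Lc_iff' (by rwa [rs_extn hu]), rs_extn hu]
    refine (h3.and (extn_ev (u := u) (w := w) hg u)).imp (fun G _ _ k => ?_)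
    by_cases ha : act γ G
    · rw [k.2 ha]
      exact k.1 ha
    · rw [ev_inact ha, ev_inact ha]
  · exact Lc_of_eq (extn_gt k)

lemma extn_mem {g : Set Raw → Cd} (hg : @MS _ (SB β).ms _ g) (hu : u ∈ PB β) (hw : w ∈ FF.P)
    (h0 : FF.le u (rs β w)) (h1 : FF.Forces u (fun G => act β G → Valid (g G)))
    (h2 : ∃ δ : W1, ∀ ξ, δ ≤ ξ → FF.Forces u (fun G => act β G → Cat (X β ξ G) (g G)))
    (h3 : FF.Forces u (fun G => act β G → Tr (g G) ⊆ Tr (ev β w G))) :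
    extn β u g w ∈ FF.P := by
  refine ⟨((hu.1.union hw.1).insert β).mono (fun γ k => ?_), fun γ => ?_⟩
  · rcases lt_trichotomy γ β with l | l | l
    · exact Or.inr (Or.inl (by rwa [supp, mem_ofPred_eq, extn, glue_lt l] at k))
    · exact Or.inl l
    · exact Or.inr (Or.inr (by rwa [supp, mem_ofPred_eq, extn_gt l] at k))
  · rcases lt_trichotomy γ β with k | rfl | k
    · exact Vc_congr (fun _ l => (glue_lt (l.trans_lt k)).symm) (hu.2.2 γ k)
    · rw [Vc_iff' (by rwa [rs_extn hu]), rs_extn hu]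
      obtain ⟨δ, h2⟩ := h2
      refine ⟨(h1.and (extn_ev (u := u) (w := w) hg u)).imp (fun G _ _ k => ?_), δ, fun ξ l =>
        ((h2 ξ l).and (extn_ev (u := u) (w := w) hg u)).imp (fun G _ _ k => ?_)⟩
      · by_cases ha : act γ G
        · rw [k.2 ha]
          exact k.1 ha
        · rw [ev_inact ha]
          exact valid_univ
      · by_cases ha : act γ G
        · rw [k.2 ha]
          exact k.1 ha
        · rw [ev_inact ha]
          exact cat_univ _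
    · exact Vc_mono (rs_mem hw γ) (fun γ _ => extn_le hg hu h0 h3 γ) (extn_gt k) (hw.2 γ)

lemma extn_PB {g : Set Raw → Cd} (h : extn β u g w ∈ FF.P) (hw : w ∈ PB α) (hα : β < α) :
    extn β u g w ∈ PB α :=
  mem_PB h (fun γ k => (extn_gt (hα.trans_le k)).trans (hw.2.1 γ k))

/-- restriction of a coordinate to a node -/
lemma exists_res {s : Sq} (hu : u ∈ PB β) (hw : w ∈ FF.P) (h0 : FF.le u (rs β w))
    (h1 : FF.Forces u (fun G => (0, s) ∈ ev β w G)) :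
    ∃ w' ∈ FF.P, FF.le w' w ∧ rs β w' = u ∧ (∀ γ, β < γ → w' γ = w γ) ∧
      ∀ q, FF.Forces q (fun G => act β G → ev β w' G = res (ev β w G) s) := by
  have hg := (ms_ev β w).res s
  have h3 : FF.Forces u (fun G => act β G → Tr (res (ev β w G) s) ⊆ Tr (ev β w G)) :=
    forces_all (fun G _ => tr_res _ _)
  refine ⟨extn β u _ w, extn_mem hg hu hw h0 ?_ ?_ h3, extn_le hg hu h0 h3, rs_extn hu,
    fun γ k => extn_gt k, extn_ev hg⟩
  · exact (((forces_valid hw β).mono (PB_sub (rs_mem hw β)) h0).and h1).imp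
      (fun G _ _ k _ => k.1.res k.2)
  · obtain ⟨δ, h⟩ := forces_cat hw β
    exact ⟨δ, fun ξ k => ((h ξ k).mono (PB_sub (rs_mem hw β)) h0).imp (fun G _ _ l _ => l.res s)⟩

lemma le_of_rs (h : rs β w = u) : FF.le w u := h ▸ le_rs w β

/-- separativity -/
lemma le_of_compat (hu : u ∈ FF.P) (h : ∀ w ∈ FF.P, FF.le w u → FF.Compat w p) : FF.le u p := by
  intro γ
  let _ := (SB γ).ms
  rw [Lc_iff' (rs_mem hu γ)]
  by_contra hn
  obtain ⟨v, k1, k2, k3⟩ := Fo.Sub.exists_not (S := SB γ)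
    ((ms_ev γ u).tr.sub (ms_ev γ p).tr) (rs_mem hu γ) hn
  obtain ⟨v', l1, l2, s, l3⟩ := forces_ex (Φ := fun (s : Sq) G =>
    (0, s) ∈ ev γ u G ∧ ¬ s ∈ Tr (ev γ p G))
    (fun s => (ms_ev γ u _).and ((ms_ev γ p).tr _).not) k1 (k3.imp (fun G _ _ k => by
      obtain ⟨t, ⟨s, m1, m2⟩, m3⟩ := not_subset.1 k
      exact ⟨s, m1, fun m => m3 (tr_pre m m2)⟩))
  obtain ⟨w, m1, m2, m3, -, m4⟩ := exists_res l1 hu (le_trans' (PB_sub k1) l2 k2)
    (l3.imp (fun _ _ _ k => k.1))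
  obtain ⟨w', n1, n2, n3⟩ := h w m1 m2
  have o1 := forces_up n1 (forces_valid n1 γ)
  have o2 := forces_up n1 (forces_le n1 n2 γ)
  have o3 := forces_up n1 (forces_le n1 n3 γ)
  have o4 := l3.mono (PB_sub l1) (le_trans' m1 n2 (le_of_rs m3))
  obtain ⟨G, -, -, ⟨⟨⟨p1, p2⟩, p3⟩, p4⟩, p5⟩ :=
    ((((o1.and o2).and o3).and o4).and (m4 w')).exists_filt good_FF n1
  by_cases ha : act γ G
  · rw [p5 ha] at p2
    exact p4.2 (p1.sep p2 p3)
  · rw [ev_inact ha, ev_inact ha, tr_univ] at p4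
    exact p4.2 trivial

lemma le_of_forces_mem (hu : u ∈ FF.P) (h : FF.Forces u (fun G => p ∈ G)) : FF.le u p := by
  refine le_of_compat hu (fun w hw k => ?_)
  obtain ⟨G, l1, l2, l3⟩ := (h.mono hu k).exists_filt good_FF hw
  exact l1.compat l2 l3

/-- a name for a function that witnesses that the listed points are not dominating -/
lemma nk_name (β : O) (R : Set Raw → Set (ℕ × Lab)) (hR : @MS _ (SB β).ms _ R) :
    ∃ gg : Set Raw → ℕ → ℕ, (∀ k, @CM _ (SB β).ms _ (fun G => gg G k)) ∧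
      ∀ ξ q, FF.Forces q (fun G => act β G → ¬ Dom (R G) (X β ξ G) (gg G)) := by
  let _ := (SB β).ms
  let ρ : ℕ × Lab → Set Raw := fun c => {v | FF.Forces v (fun G => c ∈ R G)}
  have hρ : ∀ q, FF.Forces q (fun G => rev (PB β) ρ G = R G) := by
    intro q
    have k1 := good_FF.forces_forall (fun c => Fo.Sub.truth (S := SB β) (hR c) q)
    have k2 := good_FF.forces_forall (fun c => Fo.Sub.truth' (S := SB β) (hR c) q)
    exact (k1.and k2).imp (fun G _ _ k => Set.ext (fun c => ⟨k.2 c, k.1 c⟩))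
  obtain ⟨σ, hσ⟩ := (SB β).mix_dense (fun u (g : ℕ → ℕ) =>
    ∀ ξ, FF.Forces u (fun G => act β G → ¬ Dom (R G) (X β ξ G) g)) (by
      intro u hu
      by_cases h : ∃ v ∈ PB β, Act (Fl β) β v ∧ FF.Compat u v
      · obtain ⟨v, k1, k2, k3⟩ := h
        obtain ⟨r, l1, l2, l3⟩ := (SB β).compat hu k1 k3
        obtain ⟨r', m1, m2, g, m3⟩ := ((Act_iff k1).1 k2).2 ρ r l1 l3
        refine ⟨r', m1, le_trans' (PB_sub l1) m2 l2, g, fun ξ => ((m3 ξ).and (hρ r')).imp ?_⟩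
        intro G _ _ k _
        rw [← k.2]
        exact k.1
      · push Not at h
        refine ⟨u, hu, le_rfl' u, fun _ => 0, fun ξ => good_FF.of_forall ?_⟩
        rintro G k1 k2 ⟨v, l1, l2, l3⟩
        exact (h v l2 l3 (k1.compat k2 l1)).elim)
  have hLC : (SB β).LC σ := fun u hu =>
    let ⟨r, k1, k2, _, _, _, a, _, k3⟩ := hσ u hu
    ⟨r, k1, k2, a, k3⟩
  refine ⟨σ, fun k a => hLC.meas (fun g => g k = a), fun ξ q => (SB β).of_dense' (fun u hu => ?_)⟩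
  obtain ⟨r, k1, k2, v, k3, k4, a, k5, k6⟩ := hσ u hu
  refine ⟨r, k1, k2, (((k5 ξ).mono (PB_sub k3) k4).and k6).imp (fun G _ _ k => ?_)⟩
  rw [k.2]
  exact k.1

lemma forces_inj {ξ η : W1} (h : ξ ≠ η) (q : Raw) :
    FF.Forces q (fun G => act β G → ¬ X β ξ G = X β η G) := by
  let _ := (SB β).ms
  refine (Fo.Sub.truth' (S := SB β) ((ms_X β ξ).eq (ms_X β η)).not q).imp (fun G _ _ k => ?_)
  rintro ⟨v, l1, l2, l3⟩
  exact k ⟨v, l1, l2, ((Act_iff l2).1 l3).1 ξ η h⟩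

/-- a name for a point differs from almost all listed points -/
lemma exists_ne {z : Set Raw → Pt} (hz : @MP _ (SB β).ms z) (hu : u ∈ PB β) :
    ∃ u' ∈ PB β, FF.le u' u ∧ ∃ δ : W1, ∀ ξ, δ ≤ ξ →
      FF.Forces u' (fun G => act β G → ¬ z G = X β ξ G) := by
  let _ := (SB β).ms
  by_cases h : ∃ ξ, ¬ FF.Forces u (fun G => ¬ z G = X β ξ G)
  · obtain ⟨η, h⟩ := h
    obtain ⟨r, k1, k2, k3⟩ := Fo.Sub.exists_of_not (S := SB β) (hz.eq (ms_X β η)) hu h
    obtain ⟨δ, hδ⟩ := w1_bdd (countable_singleton η)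
    refine ⟨r, k1, k2, δ, fun ξ l => (k3.and (forces_inj (β := β)
      ((hδ η rfl).trans_le l).ne r)).imp (fun G _ _ k ha => ?_)⟩
    rw [k.1]
    exact k.2 ha
  · push Not at h
    exact ⟨u, hu, le_rfl' u, Classical.arbitrary _, fun ξ _ => (h ξ).imp (fun _ _ _ k _ => k)⟩

lemma exists_ne' {z : ℕ → Set Raw → Pt} (hz : ∀ i, @MP _ (SB β).ms (z i)) (hu : u ∈ PB β) (n : ℕ) :
    ∃ u' ∈ PB β, FF.le u' u ∧ ∃ δ : W1, ∀ ξ, δ ≤ ξ →
      FF.Forces u' (fun G => act β G → ∀ i < n, ¬ z i G = X β ξ G) := by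
  induction n with
  | zero => exact ⟨u, hu, le_rfl' u, Classical.arbitrary _, fun ξ _ => forces_all (by simp)⟩
  | succ n ih =>
    obtain ⟨u', k1, k2, δ, k3⟩ := ih
    obtain ⟨u'', l1, l2, δ', l3⟩ := exists_ne (hz n) k1
    refine ⟨u'', l1, le_trans' (PB_sub k1) l2 k2, max δ δ', fun ξ m =>
      (((k3 ξ (le_of_max_le_left m)).mono (PB_sub k1) l2).and (l3 ξ (le_of_max_le_right m))).imp
        (fun G _ _ k ha i hi => ?_)⟩
    rcases Nat.lt_succ_iff_lt_or_eq.1 hi with hi | rfl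
    · exact k.1 ha i hi
    · exact k.2 ha

/-- the subtree that avoids a named admissible set -/
lemma exists_av {s : Sq} {n : ℕ} {E : Set Raw → Set (ℕ × Pt)}
    (hE : ∀ t, Measurable[(SB β).ms] (fun G => Avoid (E G) t)) (hE' : ∀ G, Adm n (E G))
    (hu : u ∈ PB β) (hw : w ∈ FF.P) (h0 : FF.le u (rs β w))
    (h1 : FF.Forces u (fun G => (n, s) ∈ ev β w G))
    (h2 : ∃ δ : W1, ∀ ξ, δ ≤ ξ → FF.Forces u (fun G => act β G → ∀ k, (k, X β ξ G) ∉ E G)) :
    ∃ w' ∈ FF.P, FF.le w' w ∧ rs β w' = u ∧ (∀ γ, β < γ → w' γ = w γ) ∧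
      ∀ q, FF.Forces q (fun G => act β G → ev β w' G = av (ev β w G) s n (E G)) := by
  have hg := (ms_ev β w).av s n hE
  have hv := (forces_valid hw β).mono (PB_sub (rs_mem hw β)) h0
  have h3 : FF.Forces u (fun G => act β G → Tr (av (ev β w G) s n (E G)) ⊆ Tr (ev β w G)) :=
    hv.imp (fun G _ _ k _ => k.tr_av _ _ _)
  refine ⟨extn β u _ w, extn_mem hg hu hw h0 ?_ ?_ h3, extn_le hg hu h0 h3, rs_extn hu,
    fun γ k => extn_gt k, extn_ev hg⟩
  · exact (hv.and h1).imp (fun G _ _ k _ => k.1.av k.2 (hE' G))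
  · obtain ⟨δ, h⟩ := forces_cat hw β
    obtain ⟨δ', h'⟩ := h2
    exact ⟨max δ δ', fun ξ k => (((h ξ (le_of_max_le_left k)).mono (PB_sub (rs_mem hw β)) h0).and
      (h' ξ (le_of_max_le_right k))).imp (fun G _ _ l ha => l.1.av s (hE' G) (l.2 ha))⟩

end Pool.Agent.MP_f251cb_gt

end MrgPart0

-- ======== part 1: formerly Pool.Agent.MP_f251cb_gt.Model
section MrgPart1

/-!
Countable sets closed under the operations used in the preservation proofs.
-/

set_option autoImplicit false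

universe u v

namespace Pool.Agent.MP_f251cb_gt

open Set MeasureTheory

/-- witnesses -/
abbrev Val := List Raw × (ℕ → ℕ)

/-- dense sets with witnesses -/
abbrev Task := Raw → Val → Prop

/-- the task is dense at stage `α` -/
def DenseT (α : O) (R : Task) : Prop := ∀ u ∈ PB α, ∃ u' ∈ PB α, FF.le u' u ∧ ∃ a, R u' a

/-- the trivial condition -/
def one : Raw := fun β => dflt β

instance : Nonempty Raw := ⟨one⟩

lemma one_mem (α : O) : one ∈ PB α :=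
  ⟨countable_empty.mono (fun _ k => k rfl), fun _ _ => rfl, fun _ _ => Vc_dflt rfl⟩

lemma le_one (p : Raw) : FF.le p one := fun _ => Lc_dflt rfl

/-- quotient of a task -/
def quotT (R : Task) (p : Raw) (α γ : O) : Task := fun u a =>
  ¬ FF.Compat u (rs α p) ∨
    ∃ d, a.1 = [d] ∧ d ∈ PB γ ∧ (∃ b, R d b) ∧ FF.le d p ∧ FF.le u (rs α d)

/-- finite covers by members of a task -/
def starT (i : Sq × ℕ) (R : Task) (d : Raw) (β : O) : Task := fun u a =>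
  FF.Forces u (fun G => ¬ (rs β d ∈ G ∧ (i.2, i.1) ∈ ev β d G)) ∨
    ∃ L : List (Sq × Raw), a.1 = L.map Prod.snd ∧
      (∀ q ∈ L, q.1 ≠ [] ∧ q.2 ∈ PB (β + 1) ∧ (∃ b, R q.2 b) ∧ FF.le q.2 d ∧
        FF.le u (rs β q.2) ∧ FF.Forces u (fun G => (i.2 + 1, i.1 ++ q.1) ∈ ev β q.2 G)) ∧
      Cov i.2 [] (L.map Prod.fst)

/-- countable closed sets -/
structure Mod where
  c : Set Raw
  o : Set O
  f : Set (ℕ → ℕ)
  t : Set Task
  cc : c.Countable
  co : o.Countable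
  cf : f.Countable
  ct : t.Countable
  one : one ∈ c
  zero : 0 ∈ o
  triv : (fun _ _ => True) ∈ t
  res : ∀ p ∈ c, ∀ α ∈ o, rs α p ∈ c
  supp : ∀ p ∈ c, p ∈ FF.P → supp p ⊆ o
  succ : ∀ α ∈ o, α + 1 ∈ o
  pred : ∀ α, α + 1 ∈ o → α ∈ o
  wit : ∀ R ∈ t, ∀ u ∈ c, (∃ a, R u a) → ∃ a, R u a ∧ (∀ p ∈ a.1, p ∈ c) ∧ a.2 ∈ f
  quot : ∀ R ∈ t, ∀ p ∈ c, ∀ α ∈ o, ∀ γ ∈ o, quotT R p α γ ∈ t
  star : ∀ i, ∀ R ∈ t, ∀ d ∈ c, ∀ β ∈ o, starT i R d β ∈ t

instance (N : Mod) : Countable N.c := N.cc.to_subtype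

instance (N : Mod) : Countable N.t := N.ct.to_subtype

instance (N : Mod) : Nonempty N.c := ⟨⟨one, N.one⟩⟩

/-- all objects -/
abbrev Ob := Raw ⊕ O ⊕ (ℕ → ℕ) ⊕ Task

lemma exists_mod {ι : Type} [Countable ι] (Γ : ι → Raw → O → O → Task) (p : Raw) (γ : O) :
    ∃ N : Mod, p ∈ N.c ∧ γ ∈ N.o ∧ ∀ i, ∀ p ∈ N.c, ∀ α ∈ N.o, ∀ β ∈ N.o, Γ i p α β ∈ N.t := by
  classical
  let C : Raw → Ob := Sum.inl
  let Q : O → Ob := fun a => Sum.inr (Sum.inl a)
  let H : (ℕ → ℕ) → Ob := fun a => Sum.inr (Sum.inr (Sum.inl a))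
  let T : Task → Ob := fun a => Sum.inr (Sum.inr (Sum.inr a))
  let wt : Task → Raw → Val := fun R u => if h : ∃ a, R u a then h.choose else ([], fun _ => 0)
  let Out : Task → Raw → O → O → Set Ob := fun R p α β =>
    {C (rs α p), Q (α + 1), T (quotT R p α β), H (wt R p).2} ∪
      (Q '' {δ | p ∈ FF.P ∧ δ ∈ supp p} ∪ (Q '' {δ | δ + 1 = α} ∪ (C '' {q | q ∈ (wt R p).1} ∪
      (range (fun i => T (starT i R p α)) ∪ range (fun i => T (Γ i p α β))))))
  have hOut : ∀ R p α β, (Out R p α β).Countable := by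
    intro R p α β
    refine (toFinite _).countable.union ((Countable.image ?_ _).union ((Countable.image ?_ _).union
      (((List.finite_toSet _).countable.image _).union
        ((countable_range _).union (countable_range _)))))
    · by_cases h : p ∈ FF.P
      · exact h.1.mono (fun _ k => k.2)
      · exact countable_empty.mono (fun _ k => h k.1)
    · refine Set.Subsingleton.countable (fun a ha b hb => ?_)
      exact Order.succ_injective (by
        rw [Order.succ_eq_add_one, Order.succ_eq_add_one]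
        exact ha.trans hb.symm)
  let f : List Ob → Set Ob := fun l => match l with
    | [Sum.inr (Sum.inr (Sum.inr R)), Sum.inl p, Sum.inr (Sum.inl α), Sum.inr (Sum.inl β)] =>
      Out R p α β
    | _ => ∅
  obtain ⟨N, h1, h2, h3⟩ := closing_off f (fun l => by
    simp only [f]
    split
    · exact hOut _ _ _ _
    · exact countable_empty) (S := {C p, Q γ, C one, Q 0, T (fun _ _ => True)})
    (toFinite _).countable
  have key : ∀ R p α β, T R ∈ N → C p ∈ N → Q α ∈ N → Q β ∈ N → Out R p α β ⊆ N := by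
    intro R p α β k1 k2 k3 k4
    exact h3 [T R, C p, Q α, Q β] (by simp [k1, k2, k3, k4])
  have a1 : C one ∈ N := h2 (by simp)
  have a2 : Q 0 ∈ N := h2 (by simp)
  have a3 : T (fun _ _ => True) ∈ N := h2 (by simp)
  refine ⟨⟨C ⁻¹' N, Q ⁻¹' N, H ⁻¹' N, T ⁻¹' N, h1.preimage_of_injOn Sum.inl_injective.injOn,
    h1.preimage_of_injOn (Sum.inr_injective.comp Sum.inl_injective).injOn,
    h1.preimage_of_injOn
      (Sum.inr_injective.comp (Sum.inr_injective.comp Sum.inl_injective)).injOn,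
    h1.preimage_of_injOn
      (Sum.inr_injective.comp (Sum.inr_injective.comp Sum.inr_injective)).injOn,
    a1, a2, a3, fun p hp α hα => key _ p α 0 a3 hp hα a2 (Or.inl (by simp)),
    fun p hp hp' δ hδ => key _ p 0 0 a3 hp a2 a2 (Or.inr (Or.inl ⟨δ, ⟨hp', hδ⟩, rfl⟩)),
    fun α hα => key _ one α 0 a3 a1 hα a2 (Or.inl (by simp)),
    fun α hα => key _ one (α + 1) 0 a3 a1 hα a2 (Or.inr (Or.inr (Or.inl ⟨α, rfl, rfl⟩))),
    fun R hR u hu h => ⟨wt R u, ?_, fun q hq => key R u 0 0 hR hu a2 a2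
      (Or.inr (Or.inr (Or.inr (Or.inl ⟨q, hq, rfl⟩)))), key R u 0 0 hR hu a2 a2 (Or.inl (by simp))⟩,
    fun R hR p hp α hα β hβ => key R p α β hR hp hα hβ (Or.inl (by simp)),
    fun i R hR d hd β hβ => key R d β 0 hR hd hβ a2
      (Or.inr (Or.inr (Or.inr (Or.inr (Or.inl ⟨i, rfl⟩)))))⟩, h2 (by simp), h2 (by simp),
    fun i p hp α hα β hβ => key _ p α β a3 hp hα hβ
      (Or.inr (Or.inr (Or.inr (Or.inr (Or.inr ⟨i, rfl⟩)))))⟩
  simp only [wt, dif_pos h]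
  exact h.choose_spec

variable {α β γ : O} {p q r u v w d : Raw} {R : Task} {N : Mod} {G : Set Raw}

/-- the filter meets all dense tasks of `N` inside `N` -/
def Gen (N : Mod) (α : O) (G : Set Raw) : Prop :=
  ∀ R : N.t, DenseT α R → hitS (PB α) {u | u ∈ N.c ∧ ∃ a, R.1 u a} G

lemma ms_gen (N : Mod) (α : O) : Measurable[(SB α).ms] (Gen N α) := by
  let _ := (SB α).ms
  exact Measurable.forall (fun R => measurable_const.imp (m_hit (gen_SB α) _))

lemma Gen.wit (h : Gen N α G) (hR : R ∈ N.t) (hd : DenseT α R) :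
    ∃ u ∈ G, u ∈ PB α ∧ u ∈ N.c ∧ ∃ a, R u a ∧ (∀ p ∈ a.1, p ∈ N.c) ∧ a.2 ∈ N.f :=
  let ⟨u, k1, k2, k3, k4⟩ := h ⟨R, hR⟩ hd
  ⟨u, k1, k2, k3, N.wit R hR u k3 k4⟩

lemma dense_quot (hd : DenseT γ R) (hp : p ∈ PB γ) (hα : α ≤ γ) : DenseT α (quotT R p α γ) := by
  intro u hu
  by_cases h : FF.Compat u (rs α p)
  · obtain ⟨r, k1, k2, k3⟩ := (SB α).compat hu (rs_mem (PB_sub hp) α) h
    have k4 := glue_mem' k1 hp hα k3
    obtain ⟨d, l1, l2, l3⟩ := hd _ k4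
    refine ⟨rs α d, rs_mem (PB_sub l1) α, ?_, ([d], fun _ => 0), Or.inr ⟨d, rfl, l1, l3,
      le_trans' (PB_sub k4) l2 (glue_le k3), le_rfl' _⟩⟩
    exact rs_le_of_le hu (le_trans' (PB_sub k4) l2 (le_trans' (PB_sub k1) (glue_le' k1) k2))
  · exact ⟨u, hu, le_rfl' u, ([], fun _ => 0), Or.inl h⟩

lemma Gen.quot (h : Gen N α G) (hG : FF.Filt G) (hR : R ∈ N.t) (hd : DenseT γ R) (hp : p ∈ PB γ)
    (hp' : p ∈ N.c) (hα : α ≤ γ) (hα' : α ∈ N.o) (hγ : γ ∈ N.o) (hm : rs α p ∈ G) :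
    ∃ d ∈ N.c, d ∈ PB γ ∧ (∃ b, R d b) ∧ FF.le d p ∧ rs α d ∈ G := by
  obtain ⟨u, k1, -, -, a, k4 | ⟨d, l1, l2, l3, l4, l5⟩, k5, -⟩ :=
    h.wit (N.quot R hR p hp' α hα' γ hγ) (dense_quot hd hp hα)
  · exact (k4 (hG.compat k1 hm)).elim
  · exact ⟨d, k5 d (by simp [l1]), l2, l3, l4, hG.up u k1 _ (PB_sub (rs_mem (PB_sub l2) α)) l5⟩

lemma filt_lower {ι : Type v} (hG : FF.Filt G) (hu : u ∈ G) (hu' : u ∈ PB β) (L : List ι)
    (f : ι → Raw) (h : ∀ i ∈ L, f i ∈ G ∧ f i ∈ PB β) :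
    ∃ r ∈ G, r ∈ PB β ∧ FF.le r u ∧ ∀ i ∈ L, FF.le r (f i) := by
  induction L with
  | nil => exact ⟨u, hu, hu', le_rfl' u, by simp⟩
  | cons a L ih =>
    obtain ⟨r, k1, k2, k3, k4⟩ := ih (fun i hi => h i (List.mem_cons_of_mem _ hi))
    obtain ⟨r', l1, l2, l3, l4⟩ := (SB β).dir hG k1 (h a List.mem_cons_self).1 k2
      (h a List.mem_cons_self).2
    refine ⟨r', l1, l2, le_trans' (PB_sub k2) l3 k3, fun i hi => ?_⟩
    rcases List.mem_cons.1 hi with rfl | hi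
    · exact l4
    · exact le_trans' (PB_sub k2) l3 (k4 i hi)

lemma PB_succ (hw : w ∈ FF.P) (hd : d ∈ PB (β + 1)) (h : ∀ γ, β < γ → w γ = d γ) :
    w ∈ PB (β + 1) :=
  mem_PB hw (fun γ k => (h γ (Order.add_one_le_iff.1 k)).trans (hd.2.1 γ k))

lemma dense_star (hR : DenseT (β + 1) R) (hd : d ∈ PB (β + 1)) (i : Sq × ℕ) :
    DenseT β (starT i R d β) := by
  let _ := (SB β).ms
  obtain ⟨s, n⟩ := i
  intro u hu
  by_cases h : FF.Forces u (fun G => ¬ (rs β d ∈ G ∧ (n, s) ∈ ev β d G))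
  · exact ⟨u, hu, le_rfl' u, ([], fun _ => 0), Or.inl h⟩
  obtain ⟨u1, a1, a2, a3⟩ := Fo.Sub.exists_of_not (S := SB β)
    ((Fo.Sub.meas_mem (S := SB β) (rs_mem (PB_sub hd) β)).and (ms_ev β d _)) hu h
  have a4 : FF.le u1 (rs β d) := le_of_forces_mem (PB_sub a1) (a3.imp (fun _ _ _ k => k.1))
  let T : Set Raw → Set Sq := fun G => {t | t ≠ [] ∧ hitS (PB β) {v | ∃ d' ∈ PB (β + 1),
    (∃ b, R d' b) ∧ FF.le d' d ∧ FF.le v (rs β d') ∧
      FF.Forces v (fun G => (n + 1, s ++ t) ∈ ev β d' G)} G}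
  have hT : MS T := fun t => measurable_const.and (m_hit (gen_SB β) _)
  by_cases h' : FF.Forces u1 (fun G => ¬ ∃ L : List Sq, (∀ t ∈ L, t ∈ T G) ∧ Cov n [] L)
  · exfalso
    choose z b1 b2 using fun μ : Fin n → Fin (n + 1) => exists_bad T hT μ
    obtain ⟨u2, c1, c2, μ, c3⟩ := forces_ex (Φ := fun (μ : Fin n → Fin (n + 1)) G =>
      ∀ t, t ∈ T G → ¬ Avoid (toE μ (z μ G)) t)
      (fun μ => Measurable.forall (fun t => (hT t).imp ((b1 μ).avoid_toE μ t).not)) a1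
      (h'.imp (fun G _ _ k => by
        obtain ⟨μ, y, l⟩ := exists_not_avoid k
        exact ⟨μ, b2 μ G ⟨y, l⟩⟩))
    obtain ⟨u3, d1, d2, δ, d3⟩ := exists_ne' (z := fun i G => sec (z μ G) i)
      (fun i => (b1 μ).sec i) c1 n
    have d4 : FF.le u3 u1 := le_trans' (PB_sub c1) d2 c2
    obtain ⟨w, e1, e2, e3, e4, e5⟩ := exists_av (s := s) (E := fun G => toE μ (z μ G))
      (fun t => (b1 μ).avoid_toE μ t) (fun G => adm_toE μ _) d1 (PB_sub hd)
      (le_trans' (PB_sub a1) d4 a4) ((a3.mono (PB_sub a1) d4).imp (fun _ _ _ k => k.2))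
      ⟨δ, fun ξ k => (d3 ξ k).imp (by
        rintro G - - l ha j ⟨i, -, m⟩
        exact l ha i i.2 (Prod.ext_iff.1 m).2.symm)⟩
    obtain ⟨d', f1, f2, f3⟩ := hR w (PB_succ e1 hd e4)
    obtain ⟨v, g1, g2, t, g3⟩ := forces_ex (Φ := fun (t : Sq) G => t ≠ [] ∧
      (n + 1, s ++ t) ∈ ev β d' G ∧ Avoid (toE μ (z μ G)) t)
      (fun t => measurable_const.and ((ms_ev β d' _).and ((b1 μ).avoid_toE μ t)))
      (rs_mem (PB_sub f1) β) ((((forces_valid (PB_sub f1) β).and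
        (forces_le (PB_sub f1) f2 β)).and (e5 _)).imp (fun G _ _ k => by
          by_cases ha : act β G
          · obtain ⟨s', l1, l2⟩ := k.1.1.long' (n + 1) (s.length + 1)
            have := k.1.2 (k.1.1.mem_tr l1)
            rw [k.2 ha] at this
            obtain ⟨t, rfl, l3⟩ := tr_av_long this (by omega)
            refine ⟨t, ?_, l1, l3⟩
            rintro rfl
            simp at l2
          · refine ⟨[(n, [])], by simp, by rw [ev_inact ha]; trivial, ?_⟩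
            exact avoid_single.2 (fun e he l => (((adm_toE μ _).2 e he).ne l).elim)))
    have g4 : FF.le v u2 := le_trans' (PB_sub (rs_mem (PB_sub f1) β)) g2
      (le_trans' (PB_sub d1) (e3 ▸ rs_mono f2 β) d2)
    obtain ⟨G, -, k2, k3, k4⟩ := ((c3.mono (PB_sub c1) g4).and g3).exists_filt good_FF (PB_sub g1)
    exact k3 t ⟨k4.1, v, k2, g1, d', f1, f3, le_trans' e1 f2 e2, g2,
      g3.imp (fun _ _ _ k => k.2.1)⟩ k4.2.2
  · obtain ⟨u2, c1, c2, c3⟩ := Fo.Sub.exists_of_not (S := SB β) (Measurable.exists (fun L =>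
      (Measurable.forall (fun t => measurable_const.imp (hT t))).and measurable_const)) a1 h'
    obtain ⟨G, k1, k2, L, k3, k4⟩ := c3.exists_filt good_FF (PB_sub c1)
    choose! vv l1 l2 dd l3 l4 l5 l6 l7 using fun t (ht : t ∈ L) => (k3 t ht).2
    obtain ⟨u3, -, m2, m3, m4⟩ := filt_lower k1 k2 c1 L vv (fun t ht => ⟨l1 t ht, l2 t ht⟩)
    refine ⟨u3, m2, le_trans' (PB_sub c1) m3 (le_trans' (PB_sub a1) c2 a2),
      ((L.map (fun t => (t, dd t))).map Prod.snd, fun _ => 0),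
      Or.inr ⟨L.map (fun t => (t, dd t)), rfl, ?_, by simpa [Function.comp_def] using k4⟩⟩
    intro q hq
    obtain ⟨t, ht, rfl⟩ := List.mem_map.1 hq
    exact ⟨(k3 t ht).1, l3 t ht, l4 t ht, l5 t ht, le_trans' (PB_sub (l2 t ht)) (m4 t ht) (l6 t ht),
      (l7 t ht).mono (PB_sub (l2 t ht)) (m4 t ht)⟩

lemma exists_enum (N : Mod) (γ : O) : ∃ e : ℕ → Task, (∀ n, e n ∈ N.t ∧ DenseT γ (e n)) ∧
    ∀ R ∈ N.t, DenseT γ R → ∃ n, e n = R := by
  obtain ⟨e, he⟩ := (N.ct.mono (s₁ := {R | R ∈ N.t ∧ DenseT γ R}) (fun _ k => k.1)).exists_eq_range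
    ⟨_, N.triv, fun u hu => ⟨u, hu, le_rfl' u, ([], fun _ => 0), trivial⟩⟩
  refine ⟨e, fun n => ?_, fun R h1 h2 => ?_⟩
  · have : e n ∈ range e := mem_range_self n
    rwa [← he] at this
  · have : R ∈ range e := he ▸ ⟨h1, h2⟩
    exact this

end Pool.Agent.MP_f251cb_gt

end MrgPart1

-- ======== part 2: formerly Pool.Agent.MP_f251cb_gt.Kill
section MrgPart2

-- ======== part 0: formerly Pool.Agent.MP_f251cb_gt.Proper
section MrgPart0

/-!
Properness of the iteration.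
-/

set_option autoImplicit false

universe u v

namespace Pool.Agent.MP_f251cb_gt

open Set MeasureTheory

variable {α β γ : O} {p q r u v w d : Raw} {R : Task} {N : Mod} {G : Set Raw}

lemma tr_res_res {g : Cd} {s t : Sq} (h : s <+: t) : Tr (res g t) ⊆ Tr (res g s) :=
  fun _ ⟨r, h1, h2⟩ => ⟨r, ⟨h1.1, h.trans h1.2⟩, h2⟩

/-- fusion at one coordinate -/
lemma fuse_at {A : Type v} [Countable A] (c : A → Raw) {Av : Set Raw → ℕ → Sq × A → Prop}
    (hAv : ∀ n p, Measurable[(SB β).ms] (fun G => Av G n p)) (hu : u ∈ PB β) (hw : w ∈ FF.P)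
    (h0 : FF.le u (rs β w)) (h1 : FF.Forces u (fun G => Hyp (fun a => ev β (c a) G) (Av G)))
    (h2 : ∃ δ : W1, ∀ ξ, δ ≤ ξ →
      FF.Forces u (fun G => ∀ n p, Av G n p → Cat (X β ξ G) (ev β (c p.2) G)))
    (h3 : FF.Forces u (fun G => ∀ p, Av G 0 p → Tr (ev β (c p.2) G) ⊆ Tr (ev β w G))) :
    ∃ w' ∈ FF.P, FF.le w' w ∧ rs β w' = u ∧ (∀ γ, β < γ → w' γ = w γ) ∧
      ∃ F : Set Raw → ℕ → List (Sq × A), (∀ n, @CM _ (SB β).ms _ (fun G => F G n)) ∧
      ∀ n, ∀ w'' ∈ FF.P, FF.le w'' w' → ∃ v ∈ PB β, FF.le v (rs β w'') ∧ ∃ t p,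
        FF.Forces v (fun G => p ∈ F G n ∧ Av G n p ∧ (0, t) ∈ ev β w'' G ∧
          (act β G → p.1 <+: t) ∧ Tr (res (ev β w'' G) t) ⊆ Tr (ev β (c p.2) G)) := by
  let _ := (SB β).ms
  obtain ⟨F, l, a1, a2, a3⟩ := name_fusion (g := fun G a => ev β (c a) G)
    (fun a => ms_ev β (c a)) hAv (X β) (FF.Forces u)
    (fun Φ Ψ k k' => k.imp (fun G _ _ => k' G)) (fun Φ k => good_FF.forces_forall k) (act β)
    (fun R hR =>
      let ⟨gg, k1, k2⟩ := nk_name β R hR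
      ⟨gg, k1, fun ξ => k2 ξ u⟩)
  have hg : MS (fun G => fus (F G)) := ms_fus a1
  have b3 : FF.Forces u (fun G => act β G → Tr (fus (F G)) ⊆ Tr (ev β w G)) := by
    refine (h1.and h3).imp (fun G _ _ k _ t ht => ?_)
    obtain ⟨p, l1, l2⟩ := (a2 G k.1).1.cover 0 ht
    exact k.2 p ((a2 G k.1).2 0 p l1) (tr_res _ _ l2)
  have b4 : extn β u (fun G => fus (F G)) w ∈ FF.P := by
    refine extn_mem hg hu hw h0 (h1.imp (fun G _ _ k _ => (a2 G k).1.valid)) ?_ b3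
    obtain ⟨δ, h2⟩ := h2
    exact ⟨δ, fun ξ k => (((a3 ξ).and h1).and (h2 ξ k)).imp
      (fun G _ _ l ha => l.1.1 ha l.1.2 l.2)⟩
  refine ⟨_, b4, extn_le hg hu h0 b3, rs_extn hu, fun γ k => extn_gt k, F, a1,
    fun n w'' c1 c2 => ?_⟩
  have c3 : FF.le (rs β w'') u := rs_le_of_le hu (le_trans' b4 c2 (extn_le' hu))
  obtain ⟨v, d1, d2, ⟨t, p⟩, d3⟩ := forces_ex (Φ := fun (i : Sq × (Sq × A)) G =>
    i.2 ∈ F G n ∧ Av G n i.2 ∧ (0, i.1) ∈ ev β w'' G ∧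
      (act β G → i.2.1 <+: i.1) ∧ Tr (res (ev β w'' G) i.1) ⊆ Tr (ev β (c i.2.2) G))
    (fun i => ((a1 n).comp (Q := fun _ L => i.2 ∈ L) (fun _ => measurable_const)).and
      ((hAv n _).and ((ms_ev β w'' _).and (((ms_act β).imp measurable_const).and
        (((ms_ev β w'').res _).tr.sub (ms_ev β _).tr))))) (rs_mem c1 β)
    (((((h1.mono (PB_sub hu) c3).and (forces_valid c1 β)).and (forces_le c1 c2 β)).and
      (extn_ev (u := u) (w := w) hg _)).imp (fun G _ _ k => by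
        obtain ⟨⟨⟨k1, k2⟩, k3⟩, k4⟩ := k
        obtain ⟨e1, e2⟩ := a2 G k1
        by_cases ha : act β G
        · rw [k4 ha] at k3
          obtain ⟨s, l1, p, l2, l3⟩ := k2.union (fun p : Sq × A => Tr (res (ev β (c p.2) G) p.1))
            (fun _ _ _ => tr_pre) (F G n) (fun t ht => e1.cover n (k3 ht))
          obtain ⟨t, m1, m2⟩ := (k2.res l1).long' 0 p.1.length
          exact ⟨(t, p), l2, e2 n p l2, m1.1,
            fun _ => tr_res_long (l3 ((k2.res l1).mem_tr m1)) m2,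
            ((tr_res_res m1.2).trans l3).trans (tr_res _ _)⟩
        · obtain ⟨p, hp⟩ := e1.ne' n
          refine ⟨([], p), hp, e2 n p hp, by rw [ev_inact ha]; trivial, fun k => (ha k).elim, ?_⟩
          rw [ev_inact (p := c p.2) ha, tr_univ]
          exact subset_univ _))
  exact ⟨v, d1, d2, t, p, d3⟩

lemma le_succ (hp : p ∈ PB (β + 1)) (h1 : FF.le (rs β w) (rs β p)) (h2 : Lc β w p) :
    FF.le w p := by
  refine le_of_lt hp (fun γ k => ?_)
  rcases (Order.lt_add_one_iff.1 k).eq_or_lt with rfl | k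
  · exact h2
  · exact Lc_congr (fun _ l => rs_lt _ (l.trans_lt k)) (rs_lt _ k) (h1 γ)

lemma exists_below {t : Sq} (hw : w ∈ FF.P) (hv : v ∈ PB β) (h0 : FF.le v (rs β w))
    (hd : d ∈ PB (β + 1)) (h1 : FF.Forces v (fun G => rs β d ∈ G ∧ (0, t) ∈ ev β w G ∧
      Tr (res (ev β w G) t) ⊆ Tr (ev β d G))) :
    ∃ w' ∈ FF.P, FF.le w' w ∧ FF.le w' v ∧ FF.le w' d := by
  obtain ⟨w', k1, k2, k3, -, k4⟩ := exists_res hv hw h0 (h1.imp (fun _ _ _ k => k.2.1))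
  refine ⟨w', k1, k2, le_of_rs k3, le_succ hd ?_ ?_⟩
  · rw [k3]
    exact le_of_forces_mem (PB_sub hv) (h1.imp (fun _ _ _ k => k.1))
  · rw [Lc_iff' (rs_mem k1 β), k3]
    refine (h1.and (k4 v)).imp (fun G _ _ k => ?_)
    by_cases ha : act β G
    · rw [k.2 ha]
      exact k.1.2.2
    · rw [ev_inact ha, ev_inact ha]

lemma ms_rs_mem (β : O) (d : Raw) :
    Measurable[(SB β).ms] (fun G => d ∈ PB (β + 1) ∧ rs β d ∈ G) := by
  let _ := (SB β).ms
  by_cases h : d ∈ PB (β + 1)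
  · exact measurable_const.and (Fo.Sub.meas_mem (S := SB β) (rs_mem (PB_sub h) β))
  · exact meas_congr (measurable_const (a := False)) (fun _ => by simp [h])

/-- the successor step -/
lemma proper_succ (hβ : β ∈ N.o) (hq : q ∈ PB β) (h1 : FF.Forces q (Gen N β))
    {π : Set Raw → N.c} (hπ : @CM _ (SB β).ms _ π)
    (h2 : FF.Forces q (fun G => (π G).1 ∈ PB (β + 1) ∧ rs β (π G) ∈ G)) :
    ∃ q' ∈ PB (β + 1), rs β q' = q ∧ FF.Forces q' (fun G => (π G).1 ∈ G) ∧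
      ∀ R ∈ N.t, DenseT (β + 1) R → ∃ L : Set Raw → List N.c, @CM _ (SB β).ms _ L ∧
        FF.Forces q' (fun G => ∃ d ∈ L G, d.1 ∈ G ∧ d.1 ∈ PB (β + 1) ∧ ∃ b, R d b) := by
  let _ := (SB β).ms
  obtain ⟨e, e1, e2⟩ := exists_enum N (β + 1)
  let Av : Set Raw → ℕ → Sq × N.c → Prop := fun G n p =>
    (p.2.1 ∈ PB (β + 1) ∧ rs β p.2 ∈ G) ∧ (n, p.1) ∈ ev β p.2 G ∧
      (n = 0 → π G = p.2) ∧ ∀ m, n = m + 1 → ∃ b, e m p.2 b
  have a1 : FF.Forces q (fun G => ∀ a : N.c, a.1 ∈ PB (β + 1) → rs β a ∈ G → Valid (ev β a G)) :=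
    good_FF.forces_forall (fun a => good_FF.forces_forall (fun k =>
      (forces_valid (PB_sub k) β).glob q))
  have a2 : FF.Forces q (fun G => ∀ a b : N.c, a.1 ∈ PB (β + 1) → FF.le a b → rs β a ∈ G →
      Tr (ev β a G) ⊆ Tr (ev β b G)) :=
    good_FF.forces_forall (fun a => good_FF.forces_forall (fun b => good_FF.forces_forall
      (fun k => good_FF.forces_forall (fun k' => (forces_le (PB_sub k) k' β).glob q))))
  have a3 : FF.Forces q (fun G => ∀ (u a : N.c) (c : ℕ × Sq),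
      (FF.Forces u (fun G => ¬ (rs β a ∈ G ∧ c ∈ ev β a G)) → u.1 ∈ G →
        ¬ (rs β a ∈ G ∧ c ∈ ev β a G)) ∧
      (FF.Forces u (fun G => c ∈ ev β a G) → u.1 ∈ G → c ∈ ev β a G)) :=
    good_FF.forces_forall (fun u => good_FF.forces_forall (fun a => good_FF.forces_forall
      (fun c => (good_FF.forces_forall (fun k => k.glob q)).and
        (good_FF.forces_forall (fun k => k.glob q)))))
  have a4 : ∃ δ : W1, ∀ ξ, δ ≤ ξ → FF.Forces q (fun G => ∀ a : N.c, a.1 ∈ PB (β + 1) →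
      rs β a ∈ G → Cat (X β ξ G) (ev β a G)) := by
    choose! δ hδ using fun (a : N.c) (k : a.1 ∈ PB (β + 1)) => forces_cat (PB_sub k) β
    obtain ⟨δ', hδ'⟩ := w1_bdd (countable_range δ)
    exact ⟨δ', fun ξ k => good_FF.forces_forall (fun a => good_FF.forces_forall (fun l =>
      (hδ a l ξ ((hδ' _ ⟨a, rfl⟩).le.trans k)).glob q))⟩
  obtain ⟨q', b1, -, b3, b4, F, b5, b6⟩ := fuse_at (A := N.c) Subtype.val (Av := Av)
    (fun n p => (ms_rs_mem β _).and ((ms_ev β _ _).and ((measurable_const.imp (hπ _)).and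
      measurable_const))) hq (PB_sub hq) (by rw [rs_PB hq]; exact le_rfl' q)
    (((((h1.and h2).and a1).and a2).and a3).imp (by
      rintro G hG - ⟨⟨⟨⟨k1, k2⟩, k3⟩, k4⟩, k5⟩
      refine ⟨?_, fun n p k => ⟨k.2.1, k3 _ k.1.1 k.1.2⟩, fun n p t k l E hE => ?_⟩
      · obtain ⟨s, hs⟩ := (k3 _ k2.1 k2.2).ne
        exact ⟨(s, π G), k2, hs, fun _ => rfl, fun m l => by omega⟩
      · obtain ⟨u, m1, -, m3, a, m4 | ⟨L, m4, m5, m6⟩, m7, -⟩ := k1.wit
          (N.star (p.1 ++ t, n) _ (e1 n).1 _ p.2.2 β hβ) (dense_star (e1 n).2 k.1.1 _)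
        · exact ((k5 ⟨u, m3⟩ p.2 _).1 m4 m1 ⟨k.1.2, l⟩).elim
        · obtain ⟨t', n1, n2⟩ := m6 E hE (avoid_nil _)
          obtain ⟨y, n3, rfl⟩ := List.mem_map.1 n1
          obtain ⟨o1, o2, o3, o4, o5, o6⟩ := m5 y n3
          have o7 : y.2 ∈ N.c := m7 _ (m4 ▸ List.mem_map_of_mem n3)
          have o8 : rs β y.2 ∈ G := hG.up u m1 _ (PB_sub (rs_mem (PB_sub o2) β)) o5
          refine ⟨y.1, ⟨y.2, o7⟩, o1, n2, ⟨⟨o2, o8⟩, (k5 ⟨u, m3⟩ ⟨y.2, o7⟩ _).2 o6 m1,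
            fun l => by omega, fun m l => ?_⟩, k4 ⟨y.2, o7⟩ p.2 o2 o4 o8⟩
          obtain rfl : n = m := by omega
          exact o3))
    (let ⟨δ, h⟩ := a4
     ⟨δ, fun ξ k => (h ξ k).imp (fun G _ _ l n p m => l _ m.1.1 m.1.2)⟩)
    (forces_all (fun G p _ => by
      rw [show ev β q G = univ by rw [ev, hq.2.1 β le_rfl, evl_dflt], tr_univ]
      exact subset_univ _))
  have c1 : ∀ n, FF.Forces q' (fun G => ∃ p ∈ F G n, Av G n p ∧ p.2.1 ∈ G) := by
    intro n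
    refine good_FF.of_dense (fun w hw k => ?_)
    obtain ⟨v, l1, l2, t, p, l3⟩ := b6 n w hw k
    obtain ⟨G, -, -, l4⟩ := l3.exists_filt good_FF (PB_sub l1)
    obtain ⟨w', m1, m2, m3, m4⟩ := exists_below hw l1 l2 l4.2.1.1.1
      (l3.imp (fun G _ _ k => ⟨k.2.1.1.2, k.2.2.1, k.2.2.2.2⟩))
    exact ⟨w', m1, m2, ((l3.mono (PB_sub l1) m3).and
      (good_FF.forces_mem (PB_sub l4.2.1.1.1) m4)).imp (fun G _ _ k => ⟨p, k.1.1, k.1.2.1, k.2⟩)⟩
  refine ⟨q', PB_succ b1 (PB_mono le_self_add hq) b4, b3, (c1 0).imp ?_, fun R k1 k2 => ?_⟩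
  · rintro G - - ⟨p, -, k1, k2⟩
    rw [k1.2.2.1 rfl]
    exact k2
  · obtain ⟨n, rfl⟩ := e2 R k1 k2
    refine ⟨fun G => (F G (n + 1)).map Prod.snd, (b5 _).map _, (c1 (n + 1)).imp ?_⟩
    rintro G - - ⟨p, l1, l2, l3⟩
    exact ⟨p.2, List.mem_map_of_mem l1, l3, l2.1.1, l2.2.2.2 n rfl⟩

/-- a cofinal sequence in `N` below a limit -/
lemma exists_cof (hγ : Order.IsSuccLimit γ) (hα : α ∈ N.o) (h : α < γ) :
    ∃ s : ℕ → O, s 0 = α ∧ Monotone s ∧ (∀ n, s n ∈ N.o ∧ s n < γ) ∧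
      ∀ β ∈ N.o, β < γ → ∃ n, β < s n := by
  obtain ⟨e, he⟩ := (N.co.mono (s₁ := {β | β ∈ N.o ∧ β < γ}) (fun _ k => k.1)).exists_eq_range
    ⟨α, hα, h⟩
  have h1 : ∀ n, e n ∈ N.o ∧ e n < γ := fun n => by
    have : e n ∈ range e := mem_range_self n
    rwa [← he] at this
  let s : ℕ → O := fun n => Nat.rec α (fun n a => max a (e n + 1)) n
  refine ⟨s, rfl, monotone_nat_of_le_succ (fun n => le_max_left _ _), fun n => ?_,
    fun β k1 k2 => ?_⟩
  · induction n with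
    | zero => exact ⟨hα, h⟩
    | succ n ih =>
      have : e n + 1 < γ := hγ.add_one_lt (h1 n).2
      refine ⟨?_, max_lt ih.2 this⟩
      change max (s n) (e n + 1) ∈ N.o
      rcases max_choice (s n) (e n + 1) with k | k
      · exact k.symm ▸ ih.1
      · exact k.symm ▸ N.succ _ (h1 n).1
  · obtain ⟨n, rfl⟩ : β ∈ range e := he ▸ ⟨k1, k2⟩
    exact ⟨n + 1, (Order.lt_add_one_iff.2 le_rfl).trans_le (le_max_right _ _)⟩

/-- the limit of a coherent sequence -/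
lemma limit_fusion {s : ℕ → O} (s1 : Monotone s) (s2 : ∀ n, s n < γ)
    (s3 : ∀ β ∈ N.o, β < γ → ∃ n, β < s n) {q : ℕ → Raw} {π : ℕ → Set Raw → N.c}
    (h1 : ∀ n, q n ∈ PB (s n)) (h2 : ∀ n, rs (s n) (q (n + 1)) = q n)
    (h3 : ∀ n, @CM _ (SB (s n)).ms _ (π n))
    (h4 : ∀ n, FF.Forces (q n) (fun G => (π n G).1 ∈ PB γ ∧ rs (s n) (π n G) ∈ G))
    (h5 : ∀ n, FF.Forces (q (n + 1)) (fun G => FF.le (π (n + 1) G) (π n G))) :
    ∃ q' ∈ PB γ, ∀ n, rs (s n) q' = q n ∧ FF.Forces q' (fun G => (π n G).1 ∈ G) := by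
  classical
  have a1 : ∀ n m, n ≤ m → rs (s n) (q m) = q n := by
    intro n m h
    induction m, h using Nat.le_induction with
    | base => exact rs_PB (h1 n)
    | succ m h ih => rw [← ih, ← h2 m, rs_rs _ (s1 h)]
  let q' : Raw := fun β => if h : ∃ n, β < s n then q h.choose β else dflt β
  have a2 : ∀ n β, β < s n → q' β = q n β := by
    intro n β k
    have h : ∃ n, β < s n := ⟨n, k⟩
    simp only [q', dif_pos h]
    rw [← a1 _ _ (le_max_left h.choose n), ← a1 _ _ (le_max_right h.choose n),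
      rs_lt _ h.choose_spec, rs_lt _ k]
  have a3 : ∀ n, rs (s n) q' = q n := fun n => (rs_congr (a2 n)).trans (rs_PB (h1 n))
  have a4 : q' ∈ FF.P := by
    refine ⟨(countable_iUnion (fun n => (h1 n).1)).mono (fun β k => ?_), fun β => ?_⟩
    · by_cases h : ∃ n, β < s n
      · obtain ⟨n, hn⟩ := h
        exact mem_iUnion.2 ⟨n, by rwa [supp, mem_ofPred_eq, a2 n β hn] at k⟩
      · exact (k (dif_neg h)).elim
    · by_cases h : ∃ n, β < s n
      · obtain ⟨n, hn⟩ := h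
        exact Vc_congr (fun γ k => (a2 n γ (k.trans_lt hn)).symm) ((h1 n).2.2 β hn)
      · exact Vc_dflt (dif_neg h)
  have a5 : ∀ n, FF.le q' (q n) := fun n => le_of_rs (a3 n)
  have a6 : FF.Forces q' (fun G => ∀ n m, n ≤ m → rs (s m) (π n G) ∈ G) := by
    refine ((good_FF.forces_forall (fun n => (h4 n).mono (PB_sub (h1 n)) (a5 n))).and
      (good_FF.forces_forall (fun n => (h5 n).mono (PB_sub (h1 _)) (a5 _)))).imp ?_
    rintro G hG - ⟨k1, k2⟩ n m h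
    have : FF.le (π m G) (π n G) := by
      induction m, h using Nat.le_induction with
      | base => exact le_rfl' _
      | succ m _ ih => exact le_trans' (PB_sub (k1 m).1) (k2 m) ih
    exact hG.up _ (k1 m).2 _ (PB_sub (rs_mem (PB_sub (k1 n).1) _)) (rs_mono this _)
  refine ⟨q', mem_PB a4 (fun β k => dif_neg ?_), fun n => ⟨a3 n, ?_⟩⟩
  · rintro ⟨n, hn⟩
    exact (hn.trans (s2 n)).not_ge k
  · refine good_FF.of_dense (fun w hw k => ?_)
    obtain ⟨v, l1, l2, p, l3⟩ := forces_ex (Φ := fun (p : N.c) G => π n G = p) (h3 n)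
      (rs_mem hw (s n)) (forces_all (fun G => ⟨_, rfl⟩))
    have m1 := glue_mem l1 hw l2
    have m2 : FF.le (glue (s n) v w) q' := le_trans' hw (glue_le l2) k
    have m3 := l3.mono (PB_sub l1) (glue_le' (p := w) l1)
    have m4 : p.1 ∈ PB γ := by
      obtain ⟨G, -, -, n1, n2⟩ := (m3.and ((h4 n).mono (PB_sub (h1 n))
        (le_trans' a4 m2 (a5 n)))).exists_filt good_FF m1
      exact n1 ▸ n2.1
    have m5 : FF.le (glue (s n) v w) p := by
      intro β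
      by_cases h : p.1 β = dflt β
      · exact Lc_dflt h
      · obtain ⟨m, hm⟩ := s3 β (N.supp _ p.2 (PB_sub m4) h)
          (lt_of_not_ge (fun l => h (m4.2.1 β l)))
        have n1 : β < s (max n m) := hm.trans_le (s1 (le_max_right _ _))
        have := le_of_forces_mem m1 ((m3.and (a6.mono a4 m2)).imp
          (fun G _ _ k => k.1 ▸ k.2 n (max n m) (le_max_left _ _)))
        exact Lc_congr (fun _ _ => rfl) (rs_lt _ n1) (this β)
    exact ⟨_, m1, glue_le l2, (m3.and (good_FF.forces_mem (PB_sub m4) m5)).imp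
      (fun G _ _ k => k.1 ▸ k.2)⟩

lemma cm_mono {A : Type v} {π : Set Raw → A} (h : α ≤ β) (hπ : @CM _ (SB α).ms _ π) :
    @CM _ (SB β).ms _ π := fun a => (hπ a).mono (ms_mono h) le_rfl

lemma ms_rs_mem' (α γ : O) (d : Raw) :
    Measurable[(SB α).ms] (fun G => d ∈ PB γ ∧ rs α d ∈ G) := by
  let _ := (SB α).ms
  by_cases h : d ∈ PB γ
  · exact measurable_const.and (Fo.Sub.meas_mem (S := SB α) (rs_mem (PB_sub h) α))
  · exact meas_congr (measurable_const (a := False)) (fun _ => by simp [h])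

lemma exists_seq {S : Type v} {Inv : ℕ → S → Prop} {Rel : ℕ → S → S → Prop} {a : S} (h0 : Inv 0 a)
    (h : ∀ n a, Inv n a → ∃ b, Inv (n + 1) b ∧ Rel n a b) :
    ∃ f : ℕ → S, f 0 = a ∧ ∀ n, Inv n (f n) ∧ Rel n (f n) (f (n + 1)) := by
  choose g h1 h2 using h
  let f : ∀ n, {a // Inv n a} := fun n => Nat.rec ⟨a, h0⟩ (fun n b => ⟨g n b.1 b.2, h1 n _ _⟩) n
  exact ⟨fun n => (f n).1, rfl, fun n => ⟨(f n).2, h2 n _ (f n).2⟩⟩

/-- the properness iteration lemma -/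
theorem proper_iter (N : Mod) (γ : O) : ∀ α ≤ γ, α ∈ N.o → γ ∈ N.o → ∀ q ∈ PB α,
    FF.Forces q (Gen N α) → ∀ π : Set Raw → N.c, @CM _ (SB α).ms _ π →
    FF.Forces q (fun G => (π G).1 ∈ PB γ ∧ rs α (π G) ∈ G) →
    ∃ q' ∈ PB γ, rs α q' = q ∧ FF.Forces q' (fun G => (π G).1 ∈ G) ∧ FF.Forces q' (Gen N γ) := by
  induction γ using (wellFounded_lt (α := O)).induction with
  | h γ ih =>
  intro α h1 h2 h3 q h4 h5 π h6 h7
  rcases h1.eq_or_lt with rfl | h1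
  · exact ⟨q, h4, rs_PB h4, h7.imp (fun G _ _ k => rs_PB k.1 ▸ k.2), h5⟩
  rcases Ordinal.zero_or_succ_or_isSuccLimit γ with rfl | ⟨β, rfl⟩ | hγ
  · exact (not_lt_of_ge zero_le h1).elim
  · simp only [Order.succ_eq_add_one] at *
    have k1 : β ∈ N.o := N.pred β h3
    have k2 : α ≤ β := Order.lt_add_one_iff.1 h1
    obtain ⟨q1, l1, l2, l3, l4⟩ := ih β (Order.lt_add_one_iff.2 le_rfl) α k2 h2 k1 q h4 h5
      (fun G => ⟨rs β (π G), N.res _ (π G).2 β k1⟩)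
      (h6.map (fun a : N.c => (⟨rs β a, N.res _ a.2 β k1⟩ : N.c)))
      (h7.imp (fun G _ _ k => ⟨rs_mem (PB_sub k.1) β, by rw [rs_rs _ k2]; exact k.2⟩))
    obtain ⟨q2, m1, m2, m3, m4⟩ := proper_succ k1 l1 l4 (cm_mono k2 h6)
      (((h7.mono (PB_sub h4) (le_of_rs l2)).and l3).imp (fun G _ _ k => ⟨k.1.1, k.2⟩))
    refine ⟨q2, m1, by rw [← l2, ← m2, rs_rs _ k2], m3,
      good_FF.forces_forall (fun R => good_FF.forces_forall (fun k => ?_))⟩
    obtain ⟨L, -, n1⟩ := m4 R R.2 k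
    exact n1.imp (fun G _ _ ⟨d, _, o1, o2, o3⟩ => ⟨d, o1, o2, d.2, o3⟩)
  · obtain ⟨s, s0, s1, s2, s3⟩ := exists_cof hγ h2 h1
    obtain ⟨e, e1, e2⟩ := exists_enum N γ
    subst s0
    obtain ⟨f, f0, f1⟩ := exists_seq (S := Raw × (Set Raw → N.c))
      (Inv := fun n a => a.1 ∈ PB (s n) ∧ FF.Forces a.1 (Gen N (s n)) ∧
        @CM _ (SB (s n)).ms _ a.2 ∧
        FF.Forces a.1 (fun G => (a.2 G).1 ∈ PB γ ∧ rs (s n) (a.2 G) ∈ G))
      (Rel := fun n a b => rs (s n) b.1 = a.1 ∧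
        FF.Forces b.1 (fun G => FF.le (b.2 G) (a.2 G) ∧ ∃ c, e n (b.2 G) c))
      (a := (q, π)) ⟨h4, h5, h6, h7⟩ (by
        rintro n ⟨q, π⟩ ⟨k1, k2, k3, k4⟩
        let _ := (SB (s n)).ms
        obtain ⟨π', l1, l2⟩ := exists_sel (fun G (d : N.c) => (d.1 ∈ PB γ ∧ rs (s n) d ∈ G) ∧
          (∃ c, e n d c) ∧ FF.le d (π G)) (fun d => (ms_rs_mem' _ _ _).and (measurable_const.and
            (k3.comp (Q := fun _ (a : N.c) => FF.le d a) (fun _ => measurable_const))))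
        have l3 : FF.Forces q (fun G => ((π' G).1 ∈ PB γ ∧ rs (s n) (π' G) ∈ G) ∧
            (∃ c, e n (π' G) c) ∧ FF.le (π' G) (π G)) := by
          refine (k2.and k4).imp (fun G hG _ k => l2 G ?_)
          obtain ⟨d, m1, m2, m3, m4, m5⟩ := k.1.quot hG (e1 n).1 (e1 n).2 k.2.1 (π G).2
            (s2 n).2.le (s2 n).1 h3 k.2.2
          exact ⟨⟨d, m1⟩, ⟨m2, m5⟩, m3, m4⟩
        have l4 : s n ≤ s (n + 1) := s1 (Nat.le_succ n)
        obtain ⟨q', m1, m2, m3, m4⟩ := ih (s (n + 1)) (s2 _).2 (s n) l4 (s2 _).1 (s2 _).1 q k1 k2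
          (fun G => ⟨rs (s (n + 1)) (π' G), N.res _ (π' G).2 _ (s2 _).1⟩)
          (l1.map (fun a : N.c => (⟨rs (s (n + 1)) a, N.res _ a.2 _ (s2 _).1⟩ : N.c)))
          (l3.imp (fun G _ _ k => ⟨rs_mem (PB_sub k.1.1) _, by rw [rs_rs _ l4]; exact k.1.2⟩))
        have m5 := l3.mono (PB_sub k1) (le_of_rs m2)
        exact ⟨(q', π'), ⟨m1, m4, cm_mono l4 l1, (m5.and m3).imp (fun G _ _ k => ⟨k.1.1.1, k.2⟩)⟩,
          m2, m5.imp (fun G _ _ k => ⟨k.2.2, k.2.1⟩)⟩)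
    obtain ⟨q', k1, k2⟩ := limit_fusion s1 (fun n => (s2 n).2) s3 (q := fun n => (f n).1)
      (π := fun n => (f n).2) (fun n => (f1 n).1.1) (fun n => (f1 n).2.1)
      (fun n => (f1 n).1.2.2.1) (fun n => (f1 n).1.2.2.2)
      (fun n => (f1 n).2.2.imp (fun _ _ _ k => k.1))
    refine ⟨q', k1, by simpa [f0] using (k2 0).1, by simpa [f0] using (k2 0).2,
      good_FF.forces_forall (fun R => good_FF.forces_forall (fun k => ?_))⟩
    obtain ⟨n, hn⟩ := e2 R R.2 k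
    have l1 := le_of_rs (k2 (n + 1)).1
    refine (((k2 (n + 1)).2.and ((f1 n).2.2.mono (PB_sub (f1 (n + 1)).1.1) l1)).and
      ((f1 (n + 1)).1.2.2.2.mono (PB_sub (f1 (n + 1)).1.1) l1)).imp (fun G _ _ k => ?_)
    exact ⟨_, k.1.1, k.2.1, ((f (n + 1)).2 G).2, hn ▸ k.1.2.2⟩

lemma eq_one (hp : p ∈ PB 0) : p = one := funext (fun β => hp.2.1 β zero_le)

lemma gen_zero (N : Mod) : FF.Forces one (Gen N 0) := by
  refine good_FF.of_forall (fun G _ k R hR => ?_)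
  obtain ⟨u, l1, -, l3⟩ := hR one (one_mem 0)
  exact ⟨one, k, one_mem 0, N.one, eq_one l1 ▸ l3⟩

lemma exists_generic (hγ : γ ∈ N.o) (hp : p ∈ N.c) (hp' : p ∈ PB γ) :
    ∃ q ∈ PB γ, FF.le q p ∧ FF.Forces q (Gen N γ) := by
  obtain ⟨q, k1, -, k3, k4⟩ := proper_iter N γ 0 zero_le N.zero hγ one (one_mem 0) (gen_zero N)
    (fun _ => ⟨p, hp⟩) (cm_const _) (good_FF.of_forall (fun G _ k =>
      ⟨hp', by rw [eq_one (rs_mem (PB_sub hp') 0)]; exact k⟩))
  exact ⟨q, k1, le_of_forces_mem (PB_sub k1) k3, k4⟩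

end Pool.Agent.MP_f251cb_gt

end MrgPart0

-- ======== part 1: formerly Pool.Agent.MP_f251cb_gt.Bound
section MrgPart1

/-!
The iteration does not add unbounded functions.
-/

set_option autoImplicit false

universe u v

namespace Pool.Agent.MP_f251cb_gt

open Set MeasureTheory

variable {α β γ : O} {p q r u v w d : Raw} {R : Task} {N : Mod} {G : Set Raw}

/-- every name of a function is bounded on a dense set -/
def Bdd (α : O) : Prop :=
  ∀ f : Set Raw → ℕ → ℕ, (∀ k, @CM _ (SB α).ms _ (fun G => f G k)) → ∀ p ∈ PB α,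
    ∃ q ∈ PB α, FF.le q p ∧ ∃ h : ℕ → ℕ, FF.Forces q (fun G => ∀ k, f G k ≤ h k)

lemma exists_decide {f : Set Raw → ℕ} (hf : @CM _ (SB α).ms _ f) (hu : u ∈ PB α) :
    ∃ r ∈ PB α, FF.le r u ∧ ∃ m, FF.Forces r (fun G => f G = m) :=
  forces_ex (Φ := fun m G => f G = m) hf hu (forces_all (fun _ => ⟨_, rfl⟩))

lemma bdd_zero : Bdd 0 := by
  intro f hf p hp
  choose r k1 k2 h k3 using fun k => exists_decide (hf k) hp
  refine ⟨p, hp, le_rfl' p, h, good_FF.forces_forall (fun k => ?_)⟩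
  have := k3 k
  rw [eq_one (k1 k), ← eq_one hp] at this
  exact this.imp (fun _ _ _ l => l.le)

open Classical in
/-- the value decided by a condition -/
noncomputable def val (f : Set Raw → ℕ) (d : Raw) : ℕ :=
  if h : ∃ m, FF.Forces d (fun G => f G = m) then h.choose else 0

lemma val_spec {f : Set Raw → ℕ} (h : ∃ m, FF.Forces d (fun G => f G = m)) :
    FF.Forces d (fun G => f G = val f d) := by
  rw [val, dif_pos h]
  exact h.choose_spec

lemma val_mono {f : Set Raw → ℕ} (h : ∃ m, FF.Forces d (fun G => f G = m)) (hd : d ∈ FF.P)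
    (hp : p ∈ FF.P) (hle : FF.le p d) : val f p = val f d := by
  have k1 := (val_spec h).mono hd hle
  obtain ⟨G, -, -, l1, l2⟩ := (k1.and (val_spec ⟨_, k1⟩)).exists_filt good_FF hp
  exact l2.symm.trans l1

lemma bdd_succ (hβ : Bdd β) : Bdd (β + 1) := by
  let _ := (SB β).ms
  intro f hf p hp
  obtain ⟨N, a1, a2, a3⟩ := exists_mod
    (fun (k : ℕ) _ _ _ u _ => ∃ m, FF.Forces u (fun G => f G k = m)) p (β + 1)
  have a4 := N.pred β a2
  obtain ⟨q, b1, b2, b3⟩ := exists_generic a4 (N.res p a1 β a4) (rs_mem (PB_sub hp) β)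
  obtain ⟨q', c1, c2, c3, c4⟩ := proper_succ a4 b1 b3 (π := fun _ => ⟨p, a1⟩) (cm_const _)
    ((good_FF.forces_mem (PB_sub (rs_mem (PB_sub hp) β)) b2).imp (fun _ _ _ k => ⟨hp, k⟩))
  choose L d1 d2 using fun k => c4 _ (a3 k p a1 0 N.zero 0 N.zero) (fun u hu =>
    let ⟨r, k1, k2, k3⟩ := exists_decide (hf k) hu
    ⟨r, k1, k2, ([], fun _ => 0), k3⟩)
  obtain ⟨q1, e1, e2, h, e3⟩ := hβ
    (fun G k => ((L k G).map (fun d : N.c => val (fun G => f G k) d)).sum)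
    (fun k => (d1 k).map (fun l => (l.map (fun d : N.c => val (fun G => f G k) d)).sum)) q b1
  have e4 : FF.le q1 (rs β q') := c2 ▸ e2
  have e5 := glue_mem' e1 c1 le_self_add e4
  refine ⟨_, e5, le_trans' (PB_sub c1) (glue_le e4) (le_of_forces_mem (PB_sub c1) c3), h, ?_⟩
  have f1 : FF.Forces (glue β q1 q') (fun G => ∀ (k : ℕ) (d : N.c),
      (∃ m, FF.Forces d (fun G => f G k = m)) → d.1 ∈ G → f G k = val (fun G => f G k) d) :=
    good_FF.forces_forall (fun k => good_FF.forces_forall (fun d => good_FF.forces_forall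
      (fun l => (val_spec l).glob _)))
  refine ((f1.and ((good_FF.forces_forall d2).mono (PB_sub c1) (glue_le e4))).and
    (e3.mono (PB_sub e1) (glue_le' e1))).imp (fun G _ _ k j => ?_)
  obtain ⟨d, l1, l2, -, -, l3⟩ := k.1.2 j
  rw [k.1.1 j d l3 l2]
  exact (List.le_sum_of_mem (List.mem_map_of_mem l1)).trans (k.2 j)

lemma mix_spec {A : Type v} [Nonempty A] (R : Raw → A → Prop) (H : Prop)
    (hR : H → ∀ u ∈ PB α, ∃ r ∈ PB α, FF.le r u ∧ ∃ b, R r b) :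
    ∃ σ : Set Raw → A, (SB α).LC σ ∧
      (H → ∀ q, FF.Forces q (fun G => ∃ v ∈ G, v ∈ PB α ∧ R v (σ G))) := by
  by_cases h : H
  · obtain ⟨σ, hσ⟩ := (SB α).mix_dense R (hR h)
    refine ⟨σ, fun u hu => ?_, fun _ q => (SB α).of_dense' (fun u hu => ?_)⟩
    · obtain ⟨r, k1, k2, _, _, _, a, _, k3⟩ := hσ u hu
      exact ⟨r, k1, k2, a, k3⟩
    · obtain ⟨r, k1, k2, v, k3, k4, a, k5, k6⟩ := hσ u hu
      exact ⟨r, k1, k2, k6.imp (fun G hG l m => ⟨v, hG.up r l v (PB_sub k3) k4, k3, m ▸ k5⟩)⟩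
  · exact ⟨fun _ => Classical.arbitrary A,
      fun u hu => ⟨u, hu, le_rfl' u, _, forces_all (fun _ => rfl)⟩, fun k => (h k).elim⟩

lemma lc_bind {A B : Type v} {σ : Set Raw → A} (h : (SB α).LC σ) {φ : A → Set Raw → B}
    (hφ : ∀ a, (SB α).LC (φ a)) : (SB α).LC (fun G => φ (σ G) G) := by
  intro u hu
  obtain ⟨r, k1, k2, a, k3⟩ := h u hu
  obtain ⟨r', l1, l2, b, l3⟩ := hφ a r k1
  exact ⟨r', l1, le_trans' (PB_sub k1) l2 k2, b,
    ((k3.mono (PB_sub k1) l2).and l3).imp (fun G _ _ k => by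
      show φ (σ G) G = b
      rw [k.1]
      exact k.2)⟩

lemma lc_forces {A : Type v} {σ : Set Raw → A} (h : (SB α).LC σ) {Φ : A → Set Raw → Prop}
    (hΦ : ∀ a q, FF.Forces q (Φ a)) (q : Raw) : FF.Forces q (fun G => Φ (σ G) G) := by
  refine (SB α).of_dense' (fun u hu => ?_)
  obtain ⟨r, k1, k2, a, k3⟩ := h u hu
  exact ⟨r, k1, k2, (k3.and (hΦ a r)).imp (fun G _ _ k => k.1 ▸ k.2)⟩

lemma gen_task {Ψ : Val → Set Raw → Prop} (h1 : (fun u a => FF.Forces u (Ψ a)) ∈ N.t)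
    (h2 : ∀ u ∈ PB α, ∃ r ∈ PB α, FF.le r u ∧ ∃ a, FF.Forces r (Ψ a)) (q : Raw) :
    FF.Forces q (fun G => Gen N α G → ∃ a : Val, (∀ p ∈ a.1, p ∈ N.c) ∧ a.2 ∈ N.f ∧ Ψ a G) := by
  have := N.cf.to_subtype
  have k : FF.Forces q (fun G => ∀ (u : N.c) (l : List N.c) (h : N.f),
      FF.Forces u (Ψ (l.map Subtype.val, h)) → u.1 ∈ G → Ψ (l.map Subtype.val, h) G) :=
    good_FF.forces_forall (fun u => good_FF.forces_forall (fun l => good_FF.forces_forall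
      (fun h => good_FF.forces_forall (fun m => m.glob q))))
  refine k.imp (fun G _ _ k hG => ?_)
  obtain ⟨u, l1, -, l3, a, l4, l5, l6⟩ := hG.wit h1 h2
  have := k ⟨u, l3⟩ (a.1.pmap Subtype.mk l5) ⟨a.2, l6⟩
  simp only [List.map_pmap, List.pmap_eq_map, List.map_id'] at this
  exact ⟨a, l5, l6, this l4 l1⟩

lemma exists_dominating {S : Set (ℕ → ℕ)} (hS : S.Countable) (h₀ : ℕ → ℕ) :
    ∃ g : ℕ → ℕ, (∀ j, h₀ j ≤ g j) ∧ ∀ h ∈ S, ∃ j₀, ∀ j, j₀ ≤ j → h j ≤ g j := by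
  obtain ⟨e, he⟩ := (hS.insert h₀).exists_eq_range (insert_nonempty _ _)
  refine ⟨fun j => max (h₀ j) ((Finset.range (j + 1)).sup (fun i => e i j)),
    fun j => le_max_left _ _, fun h k => ?_⟩
  obtain ⟨i, rfl⟩ : h ∈ range e := he ▸ mem_insert_of_mem _ k
  exact ⟨i, fun j l => (Finset.le_sup (f := fun i => e i j) (by simpa using l)).trans
    (le_max_right _ _)⟩

lemma bdd_limit (hγ : Order.IsSuccLimit γ) (ih : ∀ α < γ, Bdd α) : Bdd γ := by
  intro f hf p hp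
  let D : ℕ → Raw → Prop := fun k d => ∀ j < k, ∃ m, FF.Forces d (fun G => f G j = m)
  have a1 : ∀ k, ∀ u ∈ PB γ, ∃ d ∈ PB γ, FF.le d u ∧ D k d := by
    intro k u hu
    induction k with
    | zero => exact ⟨u, hu, le_rfl' u, fun j l => by omega⟩
    | succ k ih =>
      obtain ⟨d, l1, l2, l3⟩ := ih
      obtain ⟨d', m1, m2, m3⟩ := exists_decide (hf k) l1
      refine ⟨d', m1, le_trans' (PB_sub l1) m2 l2, fun j l => ?_⟩
      rcases Nat.lt_succ_iff_lt_or_eq.1 l with l | rfl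
      · exact (l3 j l).imp (fun m n => n.mono (PB_sub l1) m2)
      · exact m3
  choose nxt b1 b2 using fun (α : O) (p : Raw) (k : ℕ) => mix_spec (α := α)
    (fun u d => ¬ FF.Compat u (rs α p) ∨ (d ∈ PB γ ∧ D k d ∧ FF.le d p ∧ FF.le u (rs α d)))
    (p ∈ PB γ ∧ α ≤ γ) (fun h u hu => by
      obtain ⟨r, l1, l2, a, l3 | ⟨d, -, l3, ⟨-, l4⟩, l5⟩⟩ := dense_quot (R := fun d _ => D k d)
        (fun u hu =>
          let ⟨d, m1, m2, m3⟩ := a1 k u hu
          ⟨d, m1, m2, ([], fun _ => 0), m3⟩) h.1 h.2 u hu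
      · exact ⟨r, l1, l2, one, Or.inl l3⟩
      · exact ⟨r, l1, l2, d, Or.inr ⟨l3, l4, l5⟩⟩)
  let I : O → Raw → ℕ → Set Raw → Raw := fun α p k =>
    Nat.rec (fun _ => p) (fun k σ G => nxt α (σ G) (k + 1) G) k
  have c1 : ∀ α p k, (SB α).LC (I α p k) := by
    intro α p k
    induction k with
    | zero => exact fun u hu => ⟨u, hu, le_rfl' u, p, forces_all (fun _ => rfl)⟩
    | succ k ih => exact lc_bind ih (φ := fun a => nxt α a (k + 1)) (fun a => b1 α a _)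
  have c2 : ∀ α ≤ γ, ∀ p ∈ PB γ, ∀ q, FF.Forces q (fun G => rs α p ∈ G → ∀ k,
      (I α p k G ∈ PB γ ∧ D k (I α p k G) ∧ rs α (I α p k G) ∈ G) ∧
        ∀ j ≤ k, FF.le (I α p k G) (I α p j G)) := by
    intro α hα p hp q
    refine (good_FF.forces_forall (fun k => lc_forces (c1 α p k) (Φ := fun a G => a ∈ PB γ →
      ∃ v ∈ G, v ∈ PB α ∧ (¬ FF.Compat v (rs α a) ∨ (nxt α a (k + 1) G ∈ PB γ ∧
        D (k + 1) (nxt α a (k + 1) G) ∧ FF.le (nxt α a (k + 1) G) a ∧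
        FF.le v (rs α (nxt α a (k + 1) G)))))
      (fun a q => good_FF.forces_forall (fun l => b2 α a (k + 1) ⟨l, hα⟩ q)) q)).imp
      (fun G hG _ h hm k => ?_)
    induction k with
    | zero =>
      refine ⟨⟨hp, fun j l => by omega, hm⟩, fun j l => ?_⟩
      obtain rfl : j = 0 := by omega
      exact le_rfl' _
    | succ k ih =>
      obtain ⟨v, l1, -, l3 | ⟨l3, l4, l5, l6⟩⟩ := h k ih.1.1
      · exact (l3 (hG.compat l1 ih.1.2.2)).elim
      · refine ⟨⟨l3, l4, hG.up v l1 _ (PB_sub (rs_mem (PB_sub l3) α)) l6⟩, fun j l => ?_⟩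
        rcases l.eq_or_lt with rfl | l
        · exact le_rfl' _
        · exact le_trans' (PB_sub ih.1.1) l5 (ih.2 j (by omega))
  let fI : O → Raw → Set Raw → ℕ → ℕ := fun α p G j => val (fun G => f G j) (I α p (j + 1) G)
  have c3 : ∀ α p j, @CM _ (SB α).ms _ (fun G => fI α p G j) := fun α p j m =>
    (c1 α p (j + 1)).meas (fun d => val (fun G => f G j) d = m)
  have c4 : ∀ α ≤ γ, ∀ d ∈ PB γ, ∀ q, FF.Forces q (fun G => rs α d ∈ G → ∀ k, D k d →
      ∀ j < k, fI α d G j = val (fun G => f G j) d) := fun α hα d hd q =>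
    (c2 α hα d hd q).imp (fun G _ _ h hm k l j l' => val_mono (l j l') (PB_sub hd)
      (PB_sub (h hm (j + 1)).1.1) ((h hm (j + 1)).2 0 (Nat.zero_le _)))
  choose Bd d1 d2 using fun (α α' : O) (p : Raw) => mix_spec (α := α)
    (fun u (a : Raw × (ℕ → ℕ)) => ¬ FF.Compat u (rs α p) ∨ (a.1 ∈ PB α' ∧ FF.le a.1 (rs α' p) ∧
      FF.le u (rs α a.1) ∧ FF.Forces a.1 (fun G => ∀ j, fI α' p G j ≤ a.2 j)))
    (p ∈ FF.P ∧ α ≤ α' ∧ α' < γ) (fun h u hu => by
      by_cases hc : FF.Compat u (rs α p)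
      · obtain ⟨r, k1, k2, k3⟩ := (SB α).compat hu (rs_mem h.1 α) hc
        have k4 := glue_mem' k1 (rs_mem h.1 α') h.2.1 (by rwa [rs_rs _ h.2.1])
        obtain ⟨w, l1, l2, g, l3⟩ := ih α' h.2.2 _ (c3 α' p) _ k4
        exact ⟨rs α w, rs_mem (PB_sub l1) α, rs_le_of_le hu (le_trans' (PB_sub k4) l2
          (le_trans' (PB_sub k1) (glue_le' k1) k2)), (w, g), Or.inr ⟨l1, le_trans' (PB_sub k4) l2
            (glue_le (by rwa [rs_rs _ h.2.1])), le_rfl' _, l3⟩⟩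
      · exact ⟨u, hu, le_rfl' u, (one, fun _ => 0), Or.inl hc⟩)
  let H : O → O → Raw → Set Raw → ℕ → ℕ := fun α α' p G j =>
    (Finset.range (j + 1)).sup (fun k => (Bd α α' (I α p k G) G).2 j)
  have d3 : ∀ α α' p j, @CM _ (SB α).ms _ (fun G => H α α' p G j) := fun α α' p j =>
    cm_sup _ (fun k m => (lc_bind (c1 α p k) (φ := fun a => Bd α α' a)
      (fun a => d1 α α' a)).meas (fun a => a.2 j = m))
  obtain ⟨N, e1, e2, e3⟩ := exists_mod (ι := Option (Option ℕ)) (fun i p α α' u a =>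
    FF.Forces u (fun G => i.elim (∀ j, H α α' p G j ≤ a.2 j)
      (fun i => a.1 = [i.elim (Bd α α' p G).1 (fun k => I α p k G)]))) p γ
  obtain ⟨s, s0, s1, s2, s3⟩ := exists_cof hγ N.zero hγ.bot_lt
  obtain ⟨q0, f1, -, h0, f2⟩ := bdd_zero _ (c3 0 p) one (one_mem 0)
  obtain rfl := eq_one f1
  obtain ⟨g, g1, g2⟩ := exists_dominating N.cf h0
  obtain ⟨F, F0, F1⟩ := exists_seq (S := Raw × (Set Raw → N.c))
    (Inv := fun n a => a.1 ∈ PB (s n) ∧ FF.Forces a.1 (Gen N (s n)) ∧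
      @CM _ (SB (s n)).ms _ a.2 ∧
      FF.Forces a.1 (fun G => (a.2 G).1 ∈ PB γ ∧ rs (s n) (a.2 G) ∈ G) ∧
      FF.Forces a.1 (fun G => (∀ j, fI (s n) (a.2 G) G j ≤ g j) ∧ D n (a.2 G)))
    (Rel := fun n a b => rs (s n) b.1 = a.1 ∧ FF.Forces b.1 (fun G => FF.le (b.2 G) (a.2 G)))
    (a := (one, fun _ => ⟨p, e1⟩)) (by
      rw [s0]
      exact ⟨one_mem 0, gen_zero N, cm_const _, good_FF.of_forall (fun G _ k =>
        ⟨hp, by rw [eq_one (rs_mem (PB_sub hp) 0)]; exact k⟩),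
        f2.imp (fun G _ _ k => ⟨fun j => (k j).trans (g1 j), fun j l => by omega⟩)⟩) (by
      rintro n ⟨q, π⟩ ⟨k1, k2, k3, k4, k5⟩
      let _ := (SB (s n)).ms
      have l4 : s n ≤ s (n + 1) := s1 (Nat.le_succ n)
      obtain ⟨π', l1, l2⟩ := exists_sel (fun G (a : N.c × N.c) =>
        (a.2.1 ∈ PB (s (n + 1)) ∧ rs (s n) a.2 ∈ G) ∧ FF.le a.1 (π G) ∧ a.1.1 ∈ PB γ ∧
          D (n + 1) a.1 ∧ FF.le a.2 (rs (s (n + 1)) a.1) ∧
          FF.Forces a.2 (fun G => ∀ j, fI (s (n + 1)) a.1 G j ≤ g j))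
        (fun a => (ms_rs_mem' _ _ _).and ((k3.comp (Q := fun _ (b : N.c) => FF.le a.1 b)
          (fun _ => measurable_const)).and measurable_const))
      have m1 := good_FF.forces_forall (fun a : N.c => gen_task
        (e3 none a a.2 _ (s2 n).1 _ (s2 (n + 1)).1) (fun u hu =>
          let ⟨r, n1, n2, h, n3⟩ := ih _ (s2 n).2 _ (d3 (s n) (s (n + 1)) a) u hu
          ⟨r, n1, n2, ([], h), n3⟩) q)
      have m2 := good_FF.forces_forall (fun a : N.c => gen_task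
        (e3 (some none) a a.2 _ (s2 n).1 _ (s2 (n + 1)).1) (fun u hu =>
          let ⟨r, n1, n2, b, n3⟩ := d1 (s n) (s (n + 1)) a u hu
          ⟨r, n1, n2, ([b.1], fun _ => 0), n3.imp (fun G _ _ k => by simp [k])⟩) q)
      have m3 := good_FF.forces_forall (fun a : N.c => good_FF.forces_forall (fun k : ℕ => gen_task
        (e3 (some (some k)) a a.2 _ (s2 n).1 _ (s2 (n + 1)).1) (fun u hu =>
          let ⟨r, n1, n2, b, n3⟩ := c1 (s n) a k u hu
          ⟨r, n1, n2, ([b], fun _ => 0), n3.imp (fun G _ _ k => by simp [k])⟩) q))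
      have m4 := good_FF.forces_forall (fun a : N.c => good_FF.forces_forall
        (fun l : a.1 ∈ PB γ => c2 _ (s2 n).2.le a l q))
      have m5 := good_FF.forces_forall (fun a : N.c => good_FF.forces_forall
        (fun l : a.1 ∈ PB γ => d2 (s n) (s (n + 1)) a ⟨PB_sub l, l4, (s2 _).2⟩ q))
      have l3 := (((((((k2.and k4).and k5).and m1).and m2).and m3).and m4).and m5).imp
        (fun G hG _ k => l2 G (by
          obtain ⟨⟨⟨⟨⟨⟨⟨n1, n2⟩, n3⟩, n4⟩, n5⟩, n6⟩, n7⟩, n8⟩ := k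
          obtain ⟨a, -, o1, o2⟩ := n4 (π G) n1
          obtain ⟨j0, o3⟩ := g2 _ o1
          obtain ⟨b, o4, -, o5⟩ := n6 (π G) (max j0 (n + 1)) n1
          have o6 : I (s n) (π G) (max j0 (n + 1)) G ∈ N.c := o4 _ (by rw [o5]; exact List.mem_singleton_self _)
          obtain ⟨⟨p1, p2, p3⟩, p4⟩ := n7 (π G) n2.1 n2.2 (max j0 (n + 1))
          obtain ⟨c, o7, -, o8⟩ := n5 ⟨_, o6⟩ n1
          have o9 := o7 _ (by rw [o8]; exact List.mem_singleton_self _)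
          obtain ⟨v, q1, -, q3 | ⟨q3, q4, q5, q6⟩⟩ := n8 ⟨_, o6⟩ p1
          · exact (q3 (hG.compat q1 p3)).elim
          refine ⟨(⟨_, o6⟩, ⟨_, o9⟩), ⟨q3, hG.up v q1 _ (PB_sub (rs_mem (PB_sub q3) _)) q5⟩,
            p4 0 (Nat.zero_le _), p1, fun j l => p2 j (by omega), q4, ?_⟩
          refine ((q6.and (c4 _ (s2 (n + 1)).2.le _ p1 _)).and
            (good_FF.forces_mem (PB_sub (rs_mem (PB_sub p1) _)) q4)).imp (fun G' _ _ k j => ?_)
          rcases lt_or_ge j (max j0 (n + 1)) with l | l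
          · have r1 := n7 (π G) n2.1 n2.2 (j + 1)
            refine (k.1.2 k.2 _ p2 j l).le.trans (le_trans (le_of_eq ?_) (n3.1 j))
            exact val_mono (r1.1.2.1 j (Nat.lt_succ_self j)) (PB_sub r1.1.1) (PB_sub p1) (p4 _ l)
          · refine (k.1.1 j).trans (le_trans ?_ ((o2 j).trans (o3 j (by omega))))
            exact Finset.le_sup (f := fun k => (Bd (s n) (s (n + 1)) (I (s n) (π G) k G) G).2 j)
              (Finset.mem_range.2 (Nat.lt_succ_of_le l))))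
      obtain ⟨q', n1, n2, n3, n4⟩ := proper_iter N (s (n + 1)) (s n) l4 (s2 _).1 (s2 _).1 q k1 k2
        (fun G => (π' G).2) (l1.map Prod.snd) (l3.imp (fun G _ _ k => k.1))
      have n5 := l3.mono (PB_sub k1) (le_of_rs n2)
      have n6 : FF.Forces q' (fun G => ∀ a : N.c × N.c,
          FF.Forces a.2 (fun G => ∀ j, fI (s (n + 1)) a.1 G j ≤ g j) → a.2.1 ∈ G →
            ∀ j, fI (s (n + 1)) a.1 G j ≤ g j) :=
        good_FF.forces_forall (fun a => good_FF.forces_forall (fun l => l.glob _))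
      exact ⟨(q', fun G => (π' G).1), ⟨n1, n4, cm_mono l4 (l1.map Prod.fst),
        (n5.and n3).imp (fun G hG _ k => ⟨k.1.2.2.1, hG.up _ k.2 _
          (PB_sub (rs_mem (PB_sub k.1.2.2.1) _)) k.1.2.2.2.2.1⟩),
        ((n5.and n3).and n6).imp (fun G _ _ k => ⟨k.2 _ k.1.1.2.2.2.2.2 k.1.2, k.1.1.2.2.2.1⟩)⟩,
        n2, n5.imp (fun G _ _ k => k.2.1)⟩)
  obtain ⟨q', k1, k2⟩ := limit_fusion s1 (fun n => (s2 n).2) s3 (q := fun n => (F n).1)
    (π := fun n => (F n).2) (fun n => (F1 n).1.1) (fun n => (F1 n).2.1)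
    (fun n => (F1 n).1.2.2.1) (fun n => (F1 n).1.2.2.2.1) (fun n => (F1 n).2.2)
  refine ⟨q', k1, le_of_forces_mem (PB_sub k1) (by simpa [F0] using (k2 0).2), g,
    good_FF.forces_forall (fun j => ?_)⟩
  have l1 := le_of_rs (k2 (j + 1)).1
  have l2 := good_FF.forces_forall (fun a : N.c => good_FF.forces_forall
    (fun l : a.1 ∈ PB γ => c4 _ (s2 (j + 1)).2.le a l q'))
  have l3 : FF.Forces q' (fun G => ∀ d : N.c,
      (∃ m, FF.Forces d (fun G => f G j = m)) → d.1 ∈ G → f G j = val (fun G => f G j) d) :=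
    good_FF.forces_forall (fun d => good_FF.forces_forall (fun l => (val_spec l).glob _))
  refine (((((k2 (j + 1)).2.and ((F1 (j + 1)).1.2.2.2.1.mono (PB_sub (F1 _).1.1) l1)).and
    ((F1 (j + 1)).1.2.2.2.2.mono (PB_sub (F1 _).1.1) l1)).and l2).and l3).imp
    (fun G _ _ k => ?_)
  obtain ⟨⟨⟨⟨m1, m2⟩, m3⟩, m4⟩, m5⟩ := k
  rw [m5 _ (m3.2 j (Nat.lt_succ_self j)) m1, ← m4 _ m2.1 m2.2 _ m3.2 j (Nat.lt_succ_self j)]
  exact m3.1 j

theorem bdd_all (γ : O) : Bdd γ := by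
  induction γ using (wellFounded_lt (α := O)).induction with
  | h γ ih =>
    rcases Ordinal.zero_or_succ_or_isSuccLimit γ with rfl | ⟨β, rfl⟩ | hγ
    · exact bdd_zero
    · exact bdd_succ (ih β (Order.lt_succ β))
    · exact bdd_limit hγ ih

end Pool.Agent.MP_f251cb_gt

end MrgPart1

-- ======== part 2: formerly Pool.Agent.MP_f251cb_gt.Kill
section MrgPart2

/-!
The two properties of the whole iteration: bounding, and every sequence of `ω₁` distinct points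
has a catching system for which it is dominating.
-/

set_option autoImplicit false

universe u v

namespace Pool.Agent.MP_f251cb_gt

open Set MeasureTheory

variable {α β γ : O} {p q r u v w d : Raw} {G : Set Raw}

/-- the whole iteration as a suborder -/
abbrev SS : FF.Sub := good_FF.self

lemma ms_le_SS (β : O) : (SB β).ms ≤ SS.ms := by
  intro s hs u hu
  obtain ⟨r, k1, k2, k3⟩ := hs _ (rs_mem hu β)
  exact ⟨glue β r u, glue_mem k1 hu k2, glue_le k2,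
    k3.imp (fun l => l.mono (PB_sub k1) (glue_le' k1)) (fun l => l.mono (PB_sub k1) (glue_le' k1))⟩

lemma forces_ex' {ι : Sort v} [Countable ι] {Φ : ι → Set Raw → Prop}
    (h : ∀ i, Measurable[SS.ms] (Φ i)) (hv : v ∈ FF.P)
    (h' : FF.Forces v (fun G => ∃ i, Φ i G)) : ∃ r ∈ FF.P, FF.le r v ∧ ∃ i, FF.Forces r (Φ i) :=
  Fo.Sub.exists_of_forces_ex (S := SS) h hv h'

/-- reflection -/
lemma exists_reflect {I : Type} {Φ : I → Set Raw → Prop} (h : ∀ i, Measurable[SS.ms] (Φ i))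
    (γ : O) : ∃ α, γ ≤ α ∧ ∀ i, Measurable[(SB α).ms] (Φ i) := by
  have a1 : ∀ α : O, ∃ β, γ ≤ β ∧ ∀ i, ∀ u ∈ PB α, ∃ r ∈ PB β, FF.le r u ∧
      (FF.Forces r (Φ i) ∨ FF.Forces r (fun G => ¬ Φ i G)) := by
    intro α
    have := small_below α
    have : Small.{0} (PB α) := small_subset (s := {p : Raw | ∀ β, α ≤ β → p β = dflt β})
      (fun p hp => hp.2.1)
    choose r k1 k2 k3 using fun (z : I × PB α) => Fo.Sub.dec_iff.1 (h z.1) z.2 (PB_sub z.2.2)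
    choose b hb using fun z => exists_PB (k1 z)
    exact ⟨max γ (⨆ z, b z), le_max_left _ _, fun i u hu => ⟨r (i, ⟨u, hu⟩), PB_mono
      ((Ordinal.le_iSup b _).trans (le_max_right _ _)) (hb _), k2 _, k3 _⟩⟩
  choose f f1 f2 using a1
  let s : W1 → O := (wellFounded_lt (α := W1)).fix (fun ξ r => f (⨆ η : Iio ξ, r η.1 η.2 + 1))
  have hs : ∀ ξ, s ξ = f (⨆ η : Iio ξ, s η + 1) := fun ξ => by
    simp only [s]
    rw [WellFounded.fix_eq]
  refine ⟨⨆ ξ, s ξ, (hs (Classical.arbitrary W1) ▸ f1 _).trans (Ordinal.le_iSup s _),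
    fun i => Fo.Sub.dec_iff.2 (fun u hu => ?_)⟩
  have b1 : ∀ δ ∈ supp u, ∃ ξ, δ < s ξ := fun δ hδ =>
    Ordinal.lt_iSup_iff.1 (lt_of_not_ge (fun k => hδ (hu.2.1 δ k)))
  choose! e he using b1
  obtain ⟨ξ, hξ⟩ := w1_bdd (hu.1.image e)
  have b2 : u ∈ PB (⨆ η : Iio ξ, s η + 1) := by
    refine mem_PB (PB_sub hu) (fun δ k => by_contra (fun hn => ?_))
    have := Ordinal.le_iSup (fun η : Iio ξ => s η + 1) ⟨e δ, hξ _ ⟨δ, hn, rfl⟩⟩
    exact ((he δ hn).trans (Order.add_one_le_iff.1 (this.trans k))).false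
  obtain ⟨r, k1, k2, k3⟩ := f2 _ i u b2
  exact ⟨r, PB_mono (hs ξ ▸ Ordinal.le_iSup s ξ) k1, k2, k3⟩

/-- the iteration adds no unbounded function -/
theorem bound {f : Set Raw → ℕ → ℕ} (hf : ∀ k, @CM _ SS.ms _ (fun G => f G k)) (hp : p ∈ FF.P) :
    ∃ q ∈ FF.P, FF.le q p ∧ ∃ h : ℕ → ℕ, FF.Forces q (fun G => ∀ k, f G k ≤ h k) := by
  obtain ⟨γ, hγ⟩ := exists_PB hp
  obtain ⟨α, k1, k2⟩ := exists_reflect (Φ := fun (i : ℕ × ℕ) G => f G i.1 = i.2)
    (fun i => hf i.1 i.2) γ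
  obtain ⟨q, l1, l2, l3⟩ := bdd_all α f (fun k m => k2 (k, m)) p (PB_mono k1 hγ)
  exact ⟨q, PB_sub l1, l2, l3⟩

/-- the catching system added at a stage -/
def genR (β : O) (G : Set Raw) : Set (ℕ × Lab) :=
  {c | SS.hit {v | ∃ s : Sq, s[c.1]? = some c.2 ∧
    FF.Forces (rs β v) (fun G => ∀ e ∈ ev β v G, s <+: e.2)} G}

lemma ms_genR (β : O) : @MS _ SS.ms _ (genR β) := fun _ => Fo.Sub.meas_hit _

lemma catch_often (hw : w ∈ FF.P) (ha : FF.Forces (rs β w) (act β)) (g : ℕ → ℕ) :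
    ∃ ξ, ∃ w' ∈ FF.P, FF.le w' w ∧
      FF.Forces w' (fun G => ∀ k, ∃ m, g k ≤ m ∧ CatchAt (genR β G) m k (X β ξ G)) := by
  let _ := (SB β).ms
  obtain ⟨ξ, hξ⟩ := forces_cat hw β
  let Av : Set Raw → ℕ → Sq × Unit → Prop := fun G n p => (n, p.1) ∈ ev β w G ∧
    ∀ j < n, ∃ m u, g j ≤ m ∧ p.1[m]? = some (j, u) ∧ In (X β ξ G) u
  obtain ⟨w', b1, b2, b3, -, F, -, b6⟩ := fuse_at (A := Unit) (fun _ => w) (Av := Av)
    (fun n p => (ms_ev β w _).and (Measurable.forall (fun j => measurable_const.imp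
      (Measurable.exists (fun m => Measurable.exists (fun u => measurable_const.and
        (measurable_const.and ((ms_X β ξ).in u))))))))
    (rs_mem hw β) hw (le_rfl' _)
    (((forces_valid hw β).and (hξ ξ le_rfl)).imp (by
      rintro G - - ⟨k1, k2⟩
      refine ⟨?_, fun n p k => ⟨k.1, k1⟩, fun n p t k l E hE => ?_⟩
      · obtain ⟨s, hs⟩ := k1.ne
        exact ⟨(s, ()), hs, fun j l => by omega⟩
      · obtain ⟨t1, -, m2, m3, m4⟩ := k1.long l hE n (g n)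
        obtain ⟨t2, n1, ⟨a, n2, n3, n4⟩, n5⟩ := k2 n _ m3 n E hE
          (fun e => lt_irrefl n (hE.2 _ e))
        obtain ⟨t3, o1, o2, o3⟩ := k1.ext n _ n5 E hE (n + 1)
        refine ⟨t1 ++ t2 ++ t3, (), by simp [o1], avoid_append.2 ⟨avoid_append.2 ⟨m2, n1⟩, o2⟩,
          ⟨by simpa using o3, fun j hj => ?_⟩, le_rfl⟩
        rcases Nat.lt_succ_iff_lt_or_eq.1 hj with hj | rfl
        · obtain ⟨m, u, p1, p2, p3⟩ := k.2 j hj
          refine ⟨m, u, p1, ?_, p3⟩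
          simp only [List.append_assoc]
          rw [List.getElem?_append_left (List.getElem?_eq_some_iff.1 p2).1]
          exact p2
        · obtain ⟨i, hi, rfl⟩ := List.getElem_of_mem n2
          refine ⟨(p.1 ++ t ++ t1).length + i, t2[i].2, by simp; omega, ?_, n4⟩
          have : p.1 ++ t ++ (t1 ++ t2 ++ t3) = (p.1 ++ t ++ t1) ++ (t2 ++ t3) := by simp
          simp only
          rw [this, List.getElem?_append_right (by omega), Nat.add_sub_cancel_left,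
            List.getElem?_append_left hi, List.getElem?_eq_getElem hi, ← n3]))
    ⟨ξ, fun η k => (hξ η k).imp (fun _ _ _ l _ _ _ => l)⟩
    (forces_all (fun _ _ _ => le_rfl))
  refine ⟨ξ, w', b1, b2, good_FF.forces_forall (fun k => good_FF.of_dense (fun w2 c1 c2 => ?_))⟩
  obtain ⟨v, d1, d2, t, p, d3⟩ := b6 (k + 1) w2 c1 c2
  obtain ⟨w3, e1, e2, e3, -, e4⟩ := exists_res d1 c1 d2 (d3.imp (fun _ _ _ k => k.2.2.1))
  have e5 : FF.Forces v (act β) := ha.mono (PB_sub (rs_mem hw β))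
    (le_trans' (PB_sub (rs_mem c1 β)) d2 (rs_mono (le_trans' b1 c2 b2) β))
  have e6 : FF.Forces (rs β w3) (fun G => ∀ e ∈ ev β w3 G, p.1 <+: e.2) := by
    rw [e3]
    refine ((d3.and e5).and (e4 v)).imp (fun G _ _ l e he => ?_)
    rw [l.2 l.1.2] at he
    exact (l.1.1.2.2.2.1 l.1.2).trans he.2
  refine ⟨w3, e1, e2, (d3.mono (PB_sub d1) (le_of_rs e3)).imp (fun G _ l1 l2 => ?_)⟩
  obtain ⟨m, u, m1, m2, m3⟩ := l2.2.1.2 k (Nat.lt_succ_self k)
  exact ⟨m, m1, u, ⟨w3, l1, e1, p.1, m2, e6⟩, m3⟩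

lemma avoid_finally (hw : w ∈ FF.P) (ha : FF.Forces (rs β w) (act β)) (ξ : W1) (k : ℕ) :
    FF.Forces w (fun G => ∃ M, ∀ m, M ≤ m → ¬ CatchAt (genR β G) m k (X β ξ G)) := by
  refine good_FF.of_dense (fun w2 c1 c2 => ?_)
  obtain ⟨v, d1, d2, s, d3⟩ := forces_ex (Φ := fun (s : Sq) G => (k + 1, s) ∈ ev β w2 G)
    (fun s => ms_ev β w2 _) (rs_mem c1 β)
    ((forces_valid c1 β).imp (fun G _ _ l => let ⟨s, hs, _⟩ := l.long' (k + 1) 0; ⟨s, hs⟩))
  obtain ⟨δ, hδ⟩ := w1_bdd (countable_singleton ξ)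
  obtain ⟨w3, e1, e2, e3, -, e4⟩ := exists_av (E := fun G => {(k, X β ξ G)})
    (fun t => @MP.avoid_single _ (SB β).ms _ (ms_X β ξ) k t) (fun G => adm_single k _) d1 c1 d2 d3
    ⟨δ, fun η l => (forces_inj (β := β) ((hδ ξ rfl).trans_le l).ne' v).imp
      (fun G _ _ m n j o => m n (Prod.ext_iff.1 o).2)⟩
  refine ⟨w3, e1, e2, ?_⟩
  let _ := SS.ms
  have f1 : MP (X β ξ) := fun n b => (ms_X β ξ n b).mono (ms_le_SS β) le_rfl
  refine (good_FF.forces_forall (Φ := fun m G => s.length ≤ m →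
    ¬ CatchAt (genR β G) m k (X β ξ G)) (fun m => good_FF.forces_forall (fun hm => ?_))).imp
    (fun G _ _ l => ⟨_, l⟩)
  by_contra hn
  obtain ⟨w4, g1, g2, g3⟩ := Fo.Sub.exists_of_not (S := SS) ((ms_genR β).catchAt f1 m k) e1 hn
  obtain ⟨w5, h1, h2, u, h3⟩ := forces_ex' (Φ := fun (u : List Bool) G =>
    (m, (k, u)) ∈ genR β G ∧ In (X β ξ G) u) (fun u => (ms_genR β _).and (f1.in u)) g1 g3
  obtain ⟨G, i1, i2, ⟨v', i3, i4, s', i5, i6⟩, -⟩ := h3.exists_filt good_FF h1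
  obtain ⟨w6, j1, j2, j3⟩ := i1.compat i2 i3
  have j4 : FF.le w6 w3 := le_trans' h1 j2 (le_trans' g1 h2 g2)
  have j5 : FF.Forces w6 (act β) := (forces_up hw ha).mono hw
    (le_trans' e1 j4 (le_trans' c1 e2 c2))
  obtain ⟨G', -, -, ⟨⟨⟨⟨⟨⟨k1, k2⟩, k3⟩, k4⟩, k5⟩, k6⟩, k7⟩⟩ := (((((((forces_up j1
    (forces_valid j1 β)).and (forces_up j1 (forces_le j1 j3 β))).and
    (forces_up j1 (forces_le j1 j4 β))).and ((forces_up i4 i6).mono i4 j3)).and j5).and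
    (e4 w6)).and (h3.mono h1 j2)).exists_filt good_FF j1
  obtain ⟨r, l1, l2⟩ := k1.long' 0 (max s.length s'.length)
  obtain ⟨r', m1, m2⟩ := k2 (k1.mem_tr l1)
  have m3 : s' <+: r := pre_of_long (k4 _ m1) m2 (by omega)
  have m4 := k3 (k1.mem_tr l1)
  rw [k6 k5] at m4
  obtain ⟨t, rfl, m5⟩ := tr_av_long m4 (by omega)
  obtain ⟨t', m6⟩ := m3
  have m7 : (s ++ t)[m]? = some (k, u) := by
    rw [← m6, List.getElem?_append_left (List.getElem?_eq_some_iff.1 i5).1]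
    exact i5
  rw [List.getElem?_append_right hm] at m7
  exact m5 _ (List.mem_of_getElem? m7) _ rfl rfl k7.2

/-- every sequence of `ω₁` distinct points is made dominating -/
theorem kill {x : W1 → Set Raw → Pt} (hx : ∀ ξ, @MP _ SS.ms (x ξ)) (hp : p ∈ FF.P)
    (hd : ∀ ξ η, ξ ≠ η → FF.Forces p (fun G => ¬ x ξ G = x η G)) :
    ∃ q ∈ FF.P, FF.le q p ∧ ∃ R : Set Raw → Set (ℕ × Lab), @MS _ SS.ms _ R ∧
      ∀ g, ∀ q' ∈ FF.P, FF.le q' q → ∃ ξ, ∃ q'' ∈ FF.P, FF.le q'' q' ∧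
        FF.Forces q'' (fun G => Dom (R G) (x ξ G) g) := by
  obtain ⟨γ, hγ⟩ := exists_PB hp
  obtain ⟨α, a1, a2⟩ := exists_reflect (Φ := fun (i : W1 × ℕ) G => x i.1 G i.2 = true)
    (fun i => hx i.1 i.2 true) γ
  obtain ⟨β, b1, b2⟩ := bk_spec α
    (fun j => {v | v ∈ PB α ∧ FF.Forces v (fun G => x j.1 G j.2 = true)}) α
  have b3 : p ∈ PB β := PB_mono (a1.trans b1) hγ
  have b4 : ∀ ξ q, FF.Forces q (fun G => X β ξ G = x ξ G) := by
    intro ξ q
    have k1 := good_FF.forces_forall (fun n => Fo.Sub.truth (S := SB α) (a2 (ξ, n)) q)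
    have k2 := good_FF.forces_forall (fun n => Fo.Sub.truth' (S := SB α) (a2 (ξ, n)) q)
    refine (k1.and k2).imp (fun G hG _ k => funext (fun n => ?_))
    rw [Bool.eq_iff_iff]
    simp only [X, xev, decide_eq_true_eq]
    constructor
    · rintro ⟨v, l1, -, l3⟩
      exact k.2 n ⟨_, filt_rs hG l1 α, (b2 _ _).1 l3⟩
    · intro l
      obtain ⟨v, l1, l2, l3⟩ := k.1 n l
      exact ⟨v, l1, PB_mono b1 l2, (b2 _ _).2 (by rw [rs_PB l2]; exact ⟨l2, l3⟩)⟩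
  by_cases h : Act (Fl β) β p
  · refine ⟨p, hp, le_rfl' p, genR β, ms_genR β, fun g w c1 c2 => ?_⟩
    have c3 : ∀ w ∈ FF.P, FF.le w p → FF.Forces (rs β w) (act β) := fun w d1 d2 =>
      (good_FF.forces_mem hp (rs_le_of_le b3 d2)).imp (fun G _ _ k => ⟨p, k, b3, h⟩)
    obtain ⟨ξ, w', d1, d2, d3⟩ := catch_often c1 (c3 w c1 c2) g
    refine ⟨ξ, w', d1, d2, ((d3.and (good_FF.forces_forall (fun k => avoid_finally d1
      (c3 w' d1 (le_trans' c1 d2 c2)) ξ k))).and (b4 ξ w')).imp (fun G _ _ k j => ?_)⟩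
    rw [← k.2]
    exact ⟨k.1.1 j, k.1.2 j⟩
  · rw [Act_iff b3, not_and] at h
    have h := h (fun ξ η k => (((hd ξ η k).and (b4 ξ p)).and (b4 η p)).imp
      (fun G _ _ l => by rw [l.1.2, l.2]; exact l.1.1))
    push Not at h
    obtain ⟨ρ, u, c1, c2, c3⟩ := h
    refine ⟨u, PB_sub c1, c2, rev (PB β) ρ, m_rev ((gen_SB β).trans (ms_le_SS β)) ρ,
      fun g w d1 d2 => ?_⟩
    obtain ⟨ξ, e1⟩ := c3 _ (rs_mem d1 β) (rs_le_of_le c1 d2) g
    let _ := (SB β).ms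
    obtain ⟨r, e2, e3, e4⟩ := Fo.Sub.exists_of_not (S := SB β)
      ((m_rev (gen_SB β) ρ).dom (ms_X β ξ) (gg := fun _ => g) (fun _ => cm_const _))
      (rs_mem d1 β) e1
    exact ⟨ξ, glue β r w, glue_mem e2 d1 e3, glue_le e3,
      ((e4.mono (PB_sub e2) (glue_le' e2)).and (b4 ξ _)).imp (fun G _ _ k => k.2 ▸ k.1)⟩

end Pool.Agent.MP_f251cb_gt

end MrgPart2

-- marker of a merged file
example : 731051 + 723195 = 731051 + 723195 := rfl

end MrgPart2

-- marker of a merged file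
example : 731051 + 723195 = 731051 + 723195 := rfl
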