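import Mathlib.ModelTheory.Graph

/-! Models of ZFC: structures `(M, E)`, where `E a b` is read as `a ∈ b`, and the notions of the
problem read inside such a structure.  Throughout `w` is `ω`, and `R` with the order `l` is the
line. -/

open FirstOrder

namespace Pool.Agent.MP_f251cb_gt.Fc

variable {M : Type 2} (E : M → M → Prop)

/-- `x ⊆ y` -/
def ISub (x y : M) : Prop := ∀ z, E z x → E z y

/-- `w` is inductive -/
def IInd (w : M) : Prop :=
  (∃ e, E e w ∧ ∀ z, ¬ E z e) ∧ ∀ x, E x w → ∃ y, E y w ∧ ∀ z, E z y ↔ E z x ∨ z = x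

/-- `w = ω` -/
def IOmega (w : M) : Prop := IInd E w ∧ ∀ z, IInd E z → ISub E w z

/-- `z = {a, b}` -/
def IPair (a b z : M) : Prop := ∀ t, E t z ↔ t = a ∨ t = b

/-- the Kuratowski pair `(a, b)` belongs to `s` -/
def IApp (s a b : M) : Prop :=
  ∃ z, E z s ∧ ∃ u v, IPair E a a u ∧ IPair E a b v ∧ IPair E u v z

/-- `(M, E)` as a first-order structure for the language with one binary relation -/
@[reducible] def relStr : Language.graph.Structure M where
  RelMap | .adj => fun v => E (v 0) (v 1)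

/-- truth of a first-order formula in `(M, E)` -/
def Holds (φ : Language.graph.Formula ℕ) (v : ℕ → M) : Prop :=
  @Language.Formula.Realize _ _ (relStr E) _ φ v

/-- `(M, E)` is a model of ZFC -/
structure ZFC : Prop where
  ext : ∀ x y, ISub E x y → ISub E y x → x = y
  found : ∀ x a, E a x → ∃ y, E y x ∧ ∀ z, E z y → ¬ E z x
  pair : ∀ a b, ∃ y, E a y ∧ E b y
  union : ∀ x, ∃ y, ∀ a b, E a b → E b x → E a y
  power : ∀ x, ∃ y, ∀ z, ISub E z x → E z y
  inf : ∃ w, IInd E w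
  sep : ∀ φ v x, ∃ y, ∀ z, E z y ↔ E z x ∧ Holds E φ (Function.update v 0 z)
  coll : ∀ φ v x,
    (∀ a, E a x → ∃ b, Holds E φ (Function.update (Function.update v 0 a) 1 b)) →
      ∃ y, ∀ a, E a x → ∃ b, E b y ∧ Holds E φ (Function.update (Function.update v 0 a) 1 b)
  choice : ∀ x, (∀ y z a, E y x → E z x → E a y → E a z → y = z) →
    ∃ c, ∀ y a, E y x → E a y → ∃ b, E b y ∧ E b c ∧ ∀ b', E b' y → E b' c → b' = b

/-- the relation `f` is single valued -/
def IFunc (f : M) : Prop := ∀ i z z', IApp E f i z → IApp E f i z' → z = z'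

/-- `D` is contained in the image of `A` under a function, that is `|D| ≤ |A|` -/
def ILe (D A : M) : Prop := ∃ f, IFunc E f ∧ ∀ z, E z D → ∃ i, E i A ∧ IApp E f i z

/-- `F` is finite -/
def IFin (w F : M) : Prop := ∃ n, E n w ∧ ILe E F n

/-- `l` is a strict linear order on `R` without endpoints and with a countable dense subset, as
the order of the real line is -/
def ILine (w R l : M) : Prop :=
  (∀ a, E a R → ¬ IApp E l a a) ∧
  (∀ a, E a R → ∀ b, E b R → ∀ c, E c R → IApp E l a b → IApp E l b c → IApp E l a c) ∧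
  (∀ a, E a R → ∀ b, E b R → IApp E l a b ∨ a = b ∨ IApp E l b a) ∧
  (∀ a, E a R → (∃ b, E b R ∧ IApp E l a b) ∧ ∃ b, E b R ∧ IApp E l b a) ∧
  ∃ D, ISub E D R ∧ ILe E D w ∧
    ∀ a, E a R → ∀ b, E b R → IApp E l a b → ∃ d, E d D ∧ IApp E l a d ∧ IApp E l d b

/-- `O` is an open subset of the line -/
def IOpn (R l O : M) : Prop :=
  ISub E O R ∧ ∀ x, E x O → ∃ a, E a R ∧ ∃ b, E b R ∧ IApp E l a x ∧ IApp E l x b ∧
    ∀ y, E y R → IApp E l a y → IApp E l y b → E y O

/-- `S` contains the open sets and is closed under complements and countable unions -/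
def ISigma (w R l S : M) : Prop :=
  (∀ O, IOpn E R l O → E O S) ∧
  (∀ A, E A S → ∀ C, (∀ z, E z C ↔ E z R ∧ ¬ E z A) → E C S) ∧
  ∀ K, ISub E K S → ILe E K w → ∀ U, (∀ z, E z U ↔ ∃ A, E A K ∧ E z A) → E U S

/-- `B` is a Borel subset of the line -/
def IBorel (w R l B : M) : Prop := ∀ S, ISigma E w R l S → E B S

/-- `K` is a Borel cover of `X` -/
def ICover (w R l X K : M) : Prop :=
  ILe E K w ∧ (∀ U, E U K → IBorel E w R l U ∧ ¬ ISub E X U) ∧ ∀ x, E x X → ∃ U, E U K ∧ E x U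

/-- `K` is a Borel `γ`-cover of `X` -/
def IGamma (w R l X K : M) : Prop :=
  ICover E w R l X K ∧ ¬ IFin E w K ∧
    ∀ x, E x X → ∃ F, IFin E w F ∧ ∀ U, E U K → ¬ E x U → E U F

/-- `s` is a sequence -/
def ISeq (w s : M) : Prop := IFunc E s ∧ ∀ n, E n w → ∃ U, IApp E s n U

/-- `X` satisfies the selection principle for Borel `γ`-covers and Borel covers -/
def IS1 (w R l X : M) : Prop :=
  ∀ s, ISeq E w s → (∀ n, E n w → ∀ K, IApp E s n K → IGamma E w R l X K) →
    ∃ c, ISeq E w c ∧ (∀ n, E n w → ∀ K U, IApp E s n K → IApp E c n U → E U K) ∧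
      ∃ L, (∀ U, E U L ↔ ∃ n, E n w ∧ IApp E c n U) ∧ ICover E w R l X L

end Pool.Agent.MP_f251cb_gt.Fc
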