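import Mathlib.Data.Nat.Basic
import Mathlib.Order.RelClasses
import Mathlib.Tactic.Common
import Mathlib.Data.ULift
import Mathlib.Algebra.Notation.Lemmas
import Pool.Agent.MP_f251cb_gt.Defs
import Mathlib.Tactic.Monotonicity.Lemmas
import Pool.Agent.MP_f251cb_gt.Kill

-- ======== part 0: formerly Pool.Agent.MP_f251cb_gt.Names
section MrgPart0

/-! Names, formulas of set theory and the forcing relation (Kunen, Set Theory, VII 3.3). -/

namespace Pool.Agent.MP_f251cb_gt.Fc

/-- `P`-names over the ground universe: a name is a small family of pairs (name, condition). -/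
inductive Name (P : Type 1) : Type 2
  | mk (I : Type 1) (A : I → Name P) (c : I → P) : Name P

/-- `fEq le x y p`: the condition `p` forces `x = y`. -/
def fEq {P : Type 1} (le : P → P → Prop) : Name P → Name P → P → Prop
  | ⟨_, A, c⟩, ⟨_, B, d⟩, p =>
    (∀ i q, le q p → ∃ r, le r q ∧ (le r (c i) → ∃ j, le r (d j) ∧ fEq le (A i) (B j) r)) ∧
    (∀ j q, le q p → ∃ r, le r q ∧ (le r (d j) → ∃ i, le r (c i) ∧ fEq le (A i) (B j) r))

/-- `fMem le x y p`: the condition `p` forces `x ∈ y`. -/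
def fMem {P : Type 1} (le : P → P → Prop) (x : Name P) : Name P → P → Prop
  | ⟨_, B, d⟩, p => ∀ q, le q p → ∃ r, le r q ∧ ∃ j, le r (d j) ∧ fEq le (B j) x r

/-- Formulas of the language of set theory, with variables in `V`. -/
inductive Fml (V : Type 2) : Type 2
  | mem : V → V → Fml V
  | eq : V → V → Fml V
  | neg : Fml V → Fml V
  | and : Fml V → Fml V → Fml V
  | all : (V → Fml V) → Fml V

/-- The forcing relation. -/
def Forces {P : Type 1} (le : P → P → Prop) : Fml (Name P) → P → Prop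
  | .mem x y, p => fMem le x y p
  | .eq x y, p => fEq le x y p
  | .neg a, p => ∀ q, le q p → ¬ Forces le a q
  | .and a b, p => Forces le a p ∧ Forces le b p
  | .all f, p => ∀ x, Forces le (f x) p

namespace Fml

variable {V : Type 2}

def imp (a b : Fml V) : Fml V := neg (and a (neg b))
def or (a b : Fml V) : Fml V := imp (neg a) b
def iff (a b : Fml V) : Fml V := and (imp a b) (imp b a)
def ex (f : V → Fml V) : Fml V := neg (all fun x => neg (f x))
def allIn (y : V) (f : V → Fml V) : Fml V := all fun x => imp (mem x y) (f x)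
def exIn (y : V) (f : V → Fml V) : Fml V := ex fun x => and (mem x y) (f x)
/-- `x ⊆ y` -/
def sub (x y : V) : Fml V := allIn x fun z => mem z y
/-- `x = ∅` -/
def emp (x : V) : Fml V := all fun z => neg (mem z x)
/-- `w` is inductive -/
def ind (w : V) : Fml V :=
  and (exIn w emp) (allIn w fun x => exIn w fun y =>
    all fun z => iff (mem z y) (or (mem z x) (eq z x)))
/-- `w = ω` -/
def omega (w : V) : Fml V := and (ind w) (all fun z => imp (ind z) (sub w z))
/-- `z = {a, b}` -/
def pair (a b z : V) : Fml V := all fun t => iff (mem t z) (or (eq t a) (eq t b))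
/-- the Kuratowski pair `(n, O)` belongs to `s` -/
def app (s n O : V) : Fml V :=
  exIn s fun z => ex fun a => ex fun b => and (pair n n a) (and (pair n O b) (pair a b z))

end Fml

end Pool.Agent.MP_f251cb_gt.Fc

/-! Basic facts on the forcing relation for an arbitrary preorder. -/

namespace Pool.Agent.MP_f251cb_gt.Fc

class Pre {P : Type 1} (le : P → P → Prop) : Prop where
  refl : ∀ p, le p p
  trans : ∀ {p q r}, le p q → le q r → le p r

variable {P : Type 1} {le : P → P → Prop} [Pre le]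

theorem lrefl (p : P) : le p p := Pre.refl p
theorem ltrans {p q r : P} (h : le p q) (h' : le q r) : le p r := Pre.trans h h'

theorem fEq_mono {x y : Name P} {p q : P} (hq : le q p) (h : fEq le x y p) : fEq le x y q := by
  obtain ⟨I, A, c⟩ := x
  obtain ⟨J, B, d⟩ := y
  exact ⟨fun i r hr => h.1 i r (ltrans hr hq), fun j r hr => h.2 j r (ltrans hr hq)⟩

theorem fEq_dense {x y : Name P} {p : P} (h : ∀ q, le q p → ∃ r, le r q ∧ fEq le x y r) :
    fEq le x y p := by
  obtain ⟨I, A, c⟩ := x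
  obtain ⟨J, B, d⟩ := y
  refine ⟨fun i q hq => ?_, fun j q hq => ?_⟩
  · obtain ⟨r, hr, h'⟩ := h q hq
    obtain ⟨s, hs, h''⟩ := h'.1 i r (lrefl r)
    exact ⟨s, ltrans hs hr, h''⟩
  · obtain ⟨r, hr, h'⟩ := h q hq
    obtain ⟨s, hs, h''⟩ := h'.2 j r (lrefl r)
    exact ⟨s, ltrans hs hr, h''⟩

theorem fEq_refl (x : Name P) (p : P) : fEq le x x p := by
  induction x generalizing p with
  | mk I A c ih =>
    exact ⟨fun i q _ => ⟨q, lrefl q, fun h => ⟨i, h, ih i q⟩⟩,
      fun i q _ => ⟨q, lrefl q, fun h => ⟨i, h, ih i q⟩⟩⟩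

omit [Pre le] in
theorem fEq_symm {x y : Name P} {p : P} (h : fEq le x y p) : fEq le y x p := by
  induction x generalizing y p with
  | mk I A c ih =>
    obtain ⟨J, B, d⟩ := y
    refine ⟨fun j q hq => ?_, fun i q hq => ?_⟩
    · obtain ⟨r, hr, h'⟩ := h.2 j q hq
      exact ⟨r, hr, fun hd => let ⟨i, hi, he⟩ := h' hd; ⟨i, hi, ih i he⟩⟩
    · obtain ⟨r, hr, h'⟩ := h.1 i q hq
      exact ⟨r, hr, fun hd => let ⟨j, hj, he⟩ := h' hd; ⟨j, hj, ih i he⟩⟩

theorem fEq_trans {x y z : Name P} {p : P} (h : fEq le x y p) (h' : fEq le y z p) :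
    fEq le x z p := by
  induction x generalizing y z p with
  | mk I A c ih =>
    obtain ⟨J, B, d⟩ := y
    obtain ⟨K, C, e⟩ := z
    refine ⟨fun i q hq => ?_, fun k q hq => ?_⟩
    · obtain ⟨r, hr, h1⟩ := h.1 i q hq
      by_cases hc : le r (c i)
      · obtain ⟨j, hj, he⟩ := h1 hc
        obtain ⟨s, hs, h2⟩ := h'.1 j r (ltrans hr hq)
        obtain ⟨k, hk, he'⟩ := h2 (ltrans hs hj)
        exact ⟨s, ltrans hs hr, fun _ => ⟨k, hk, ih i (fEq_mono hs he) he'⟩⟩
      · exact ⟨r, hr, fun h => absurd h hc⟩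
    · obtain ⟨r, hr, h1⟩ := h'.2 k q hq
      by_cases hc : le r (e k)
      · obtain ⟨j, hj, he⟩ := h1 hc
        obtain ⟨s, hs, h2⟩ := h.2 j r (ltrans hr hq)
        obtain ⟨i, hi, he'⟩ := h2 (ltrans hs hj)
        exact ⟨s, ltrans hs hr, fun _ => ⟨i, hi, ih i he' (fEq_mono hs he)⟩⟩
      · exact ⟨r, hr, fun h => absurd h hc⟩

theorem fMem_mono {x y : Name P} {p q : P} (hq : le q p) (h : fMem le x y p) :
    fMem le x y q := by
  obtain ⟨J, B, d⟩ := y
  exact fun r hr => h r (ltrans hr hq)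

theorem fMem_dense {x y : Name P} {p : P} (h : ∀ q, le q p → ∃ r, le r q ∧ fMem le x y r) :
    fMem le x y p := by
  obtain ⟨J, B, d⟩ := y
  intro q hq
  obtain ⟨r, hr, h'⟩ := h q hq
  obtain ⟨s, hs, h''⟩ := h' r (lrefl r)
  exact ⟨s, ltrans hs hr, h''⟩

theorem fMem_congr_left {x x' y : Name P} {p : P} (he : fEq le x x' p) (h : fMem le x y p) :
    fMem le x' y p := by
  obtain ⟨J, B, d⟩ := y
  intro q hq
  obtain ⟨r, hr, j, hj, h'⟩ := h q hq
  exact ⟨r, hr, j, hj, fEq_trans h' (fEq_mono (ltrans hr hq) he)⟩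

theorem fMem_congr_right {x y y' : Name P} {p : P} (he : fEq le y y' p) (h : fMem le x y p) :
    fMem le x y' p := by
  obtain ⟨J, B, d⟩ := y
  obtain ⟨K, C, e⟩ := y'
  intro q hq
  obtain ⟨r, hr, j, hj, h'⟩ := h q hq
  obtain ⟨s, hs, h2⟩ := he.1 j r (ltrans hr hq)
  obtain ⟨k, hk, he'⟩ := h2 (ltrans hs hj)
  exact ⟨s, ltrans hs hr, k, hk, fEq_trans (fEq_symm he') (fEq_mono hs h')⟩

theorem fMem_mk {I : Type 1} {A : I → Name P} {c : I → P} {p : P} (i : I) (h : le p (c i)) :
    fMem le (A i) (Name.mk I A c) p :=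
  fun q hq => ⟨q, lrefl q, i, ltrans hq h, fEq_refl _ _⟩

omit [Pre le] in
theorem fMem_mk_iff {I : Type 1} {A : I → Name P} {c : I → P} {x : Name P} {p : P} :
    fMem le x (Name.mk I A c) p ↔
      ∀ q, le q p → ∃ r, le r q ∧ ∃ j, le r (c j) ∧ fEq le (A j) x r := Iff.rfl

theorem fEq_of_ext {x y : Name P} {p : P}
    (h : ∀ z q, le q p → (fMem le z x q ↔ fMem le z y q)) : fEq le x y p := by
  obtain ⟨I, A, c⟩ := x
  obtain ⟨J, B, d⟩ := y
  refine ⟨fun i q hq => ?_, fun j q hq => ?_⟩
  · by_cases hc : le q (c i)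
    · obtain ⟨r, hr, j, hj, he⟩ := (h (A i) q hq).1 (fMem_mk i hc) q (lrefl q)
      exact ⟨r, hr, fun _ => ⟨j, hj, fEq_symm he⟩⟩
    · exact ⟨q, lrefl q, fun h => absurd h hc⟩
  · by_cases hc : le q (d j)
    · obtain ⟨r, hr, i, hi, he⟩ := (h (B j) q hq).2 (fMem_mk j hc) q (lrefl q)
      exact ⟨r, hr, fun _ => ⟨i, hi, he⟩⟩
    · exact ⟨q, lrefl q, fun h => absurd h hc⟩

theorem Forces.mono {a : Fml (Name P)} {p q : P} (hq : le q p) (h : Forces le a p) :
    Forces le a q := by
  induction a generalizing p q with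
  | mem x y => exact fMem_mono hq h
  | eq x y => exact fEq_mono hq h
  | neg a _ => exact fun r hr => h r (ltrans hr hq)
  | and a b iha ihb => exact ⟨iha hq h.1, ihb hq h.2⟩
  | all f ih => exact fun x => ih x hq (h x)

theorem Forces.dense {a : Fml (Name P)} {p : P}
    (h : ∀ q, le q p → ∃ r, le r q ∧ Forces le a r) : Forces le a p := by
  induction a generalizing p with
  | mem x y => exact fMem_dense h
  | eq x y => exact fEq_dense h
  | neg a _ =>
    intro q hq ha
    obtain ⟨r, hr, h'⟩ := h q hq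
    exact h' r (lrefl r) (ha.mono hr)
  | and a b iha ihb =>
    exact ⟨iha fun q hq => let ⟨r, hr, h'⟩ := h q hq; ⟨r, hr, h'.1⟩,
      ihb fun q hq => let ⟨r, hr, h'⟩ := h q hq; ⟨r, hr, h'.2⟩⟩
  | all f ih => exact fun x => ih x fun q hq => let ⟨r, hr, h'⟩ := h q hq; ⟨r, hr, h' x⟩

open Fml

omit [Pre le] in
theorem forces_mem {x y : Name P} {p : P} : Forces le (mem x y) p ↔ fMem le x y p := Iff.rfl
omit [Pre le] in
theorem forces_eq {x y : Name P} {p : P} : Forces le (eq x y) p ↔ fEq le x y p := Iff.rfl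
omit [Pre le] in
theorem forces_neg {a : Fml (Name P)} {p : P} :
    Forces le (neg a) p ↔ ∀ q, le q p → ¬ Forces le a q := Iff.rfl
omit [Pre le] in
theorem forces_and {a b : Fml (Name P)} {p : P} :
    Forces le (and a b) p ↔ Forces le a p ∧ Forces le b p := Iff.rfl
omit [Pre le] in
theorem forces_all {f : Name P → Fml (Name P)} {p : P} :
    Forces le (all f) p ↔ ∀ x, Forces le (f x) p := Iff.rfl

theorem forces_imp {a b : Fml (Name P)} {p : P} :
    Forces le (imp a b) p ↔ ∀ q, le q p → Forces le a q → Forces le b q := by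
  constructor
  · intro h q hq ha
    refine Forces.dense fun r hr => ?_
    by_contra hn
    exact h r (ltrans hr hq) ⟨ha.mono hr, fun s hs hb => hn ⟨s, hs, hb⟩⟩
  · intro h q hq hab
    exact hab.2 q (lrefl q) (h q hq hab.1)

theorem forces_or {a b : Fml (Name P)} {p : P} :
    Forces le (or a b) p ↔ ∀ q, le q p → ∃ r, le r q ∧ (Forces le a r ∨ Forces le b r) := by
  rw [Fml.or, forces_imp]
  constructor
  · intro h q hq
    by_cases ha : ∃ r, le r q ∧ Forces le a r
    · obtain ⟨r, hr, ha⟩ := ha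
      exact ⟨r, hr, Or.inl ha⟩
    · exact ⟨q, lrefl q, Or.inr (h q hq fun r hr h' => ha ⟨r, hr, h'⟩)⟩
  · intro h q hq hna
    refine Forces.dense fun r hr => ?_
    obtain ⟨s, hs, h'⟩ := h r (ltrans hr hq)
    rcases h' with h' | h'
    · exact absurd h' (hna s (ltrans hs hr))
    · exact ⟨s, hs, h'⟩

theorem forces_iff {a b : Fml (Name P)} {p : P} :
    Forces le (iff a b) p ↔ ∀ q, le q p → (Forces le a q ↔ Forces le b q) := by
  rw [Fml.iff, forces_and, forces_imp, forces_imp]
  exact ⟨fun h q hq => ⟨h.1 q hq, h.2 q hq⟩,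
    fun h => ⟨fun q hq => (h q hq).1, fun q hq => (h q hq).2⟩⟩

omit [Pre le] in
theorem forces_ex {f : Name P → Fml (Name P)} {p : P} :
    Forces le (ex f) p ↔ ∀ q, le q p → ∃ r, le r q ∧ ∃ x, Forces le (f x) r := by
  constructor
  · intro h q hq
    by_contra hn
    exact h q hq fun x r hr hx => hn ⟨r, hr, x, hx⟩
  · intro h q hq hn
    obtain ⟨r, hr, x, hx⟩ := h q hq
    exact hn x r hr hx

theorem forces_ex_of {f : Name P → Fml (Name P)} {p : P} (x : Name P) (h : Forces le (f x) p) :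
    Forces le (ex f) p :=
  forces_ex.2 fun q hq => ⟨q, lrefl q, x, h.mono hq⟩

theorem forces_allIn {y : Name P} {f : Name P → Fml (Name P)} {p : P} :
    Forces le (allIn y f) p ↔ ∀ x q, le q p → fMem le x y q → Forces le (f x) q := by
  simp only [allIn, forces_all, forces_imp, forces_mem]

theorem forces_exIn {y : Name P} {f : Name P → Fml (Name P)} {p : P} :
    Forces le (exIn y f) p ↔
      ∀ q, le q p → ∃ r, le r q ∧ ∃ x, fMem le x y r ∧ Forces le (f x) r := by
  simp only [exIn, forces_ex, forces_and, forces_mem]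

theorem forces_exIn_of {y : Name P} {f : Name P → Fml (Name P)} {p : P} (x : Name P)
    (hx : fMem le x y p) (h : Forces le (f x) p) : Forces le (exIn y f) p :=
  forces_ex_of x ⟨hx, h⟩

theorem forces_sub {x y : Name P} {p : P} :
    Forces le (sub x y) p ↔ ∀ z q, le q p → fMem le z x q → fMem le z y q := by
  simp only [sub, forces_allIn, forces_mem]

omit [Pre le] in
theorem forces_emp {x : Name P} {p : P} :
    Forces le (emp x) p ↔ ∀ z q, le q p → ¬ fMem le z x q := Iff.rfl

theorem forces_decide (a : Fml (Name P)) (p : P) :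
    ∃ q, le q p ∧ (Forces le a q ∨ Forces le (neg a) q) := by
  by_cases ha : ∃ r, le r p ∧ Forces le a r
  · obtain ⟨r, hr, ha⟩ := ha
    exact ⟨r, hr, Or.inl ha⟩
  · exact ⟨p, lrefl p, Or.inr fun r hr h' => ha ⟨r, hr, h'⟩⟩

theorem not_forces {a : Fml (Name P)} {p : P} (h : ¬ Forces le a p) :
    ∃ q, le q p ∧ Forces le (neg a) q := by
  by_contra hn
  refine h (Forces.dense fun q hq => ?_)
  by_contra hn'
  exact hn ⟨q, hq, fun r hr ha => hn' ⟨r, hr, ha⟩⟩

/-- similarity of formulas up to a relation on variables -/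
inductive Sim {V : Type 2} (R : V → V → Prop) : Fml V → Fml V → Prop
  | mem {a b a' b' : V} : R a a' → R b b' → Sim R (mem a b) (mem a' b')
  | eq {a b a' b' : V} : R a a' → R b b' → Sim R (eq a b) (eq a' b')
  | neg {a b : Fml V} : Sim R a b → Sim R (neg a) (neg b)
  | and {a b a' b' : Fml V} : Sim R a a' → Sim R b b' → Sim R (and a b) (and a' b')
  | all {f g : V → Fml V} : (∀ x, Sim R (f x) (g x)) → Sim R (all f) (all g)

theorem Sim.forces {p : P} {a b : Fml (Name P)} (h : Sim (fun x y => fEq le x y p) a b) :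
    ∀ q, le q p → (Forces le a q ↔ Forces le b q) := by
  induction h with
  | mem h1 h2 =>
    intro q hq
    have h1' := fEq_mono hq h1
    have h2' := fEq_mono hq h2
    exact ⟨fun h => fMem_congr_right h2' (fMem_congr_left h1' h),
      fun h => fMem_congr_right (fEq_symm h2') (fMem_congr_left (fEq_symm h1') h)⟩
  | eq h1 h2 =>
    intro q hq
    have h1' := fEq_mono hq h1
    have h2' := fEq_mono hq h2
    exact ⟨fun h => fEq_trans (fEq_symm h1') (fEq_trans h h2'),
      fun h => fEq_trans h1' (fEq_trans h (fEq_symm h2'))⟩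
  | neg _ ih =>
    intro q hq
    exact ⟨fun h r hr hb => h r hr ((ih r (ltrans hr hq)).2 hb),
      fun h r hr ha => h r hr ((ih r (ltrans hr hq)).1 ha)⟩
  | and _ _ ih1 ih2 =>
    intro q hq
    exact and_congr (ih1 q hq) (ih2 q hq)
  | all _ ih =>
    intro q hq
    exact forall_congr' fun x => ih x q hq

section SimLemmas

variable {V : Type 2} {R : V → V → Prop}

theorem Sim.imp {a b a' b' : Fml V} (h : Sim R a a') (h' : Sim R b b') :
    Sim R (imp a b) (imp a' b') := .neg (.and h (.neg h'))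
theorem Sim.or {a b a' b' : Fml V} (h : Sim R a a') (h' : Sim R b b') :
    Sim R (or a b) (or a' b') := .imp (.neg h) h'
theorem Sim.iff {a b a' b' : Fml V} (h : Sim R a a') (h' : Sim R b b') :
    Sim R (iff a b) (iff a' b') := .and (.imp h h') (.imp h' h)
theorem Sim.ex {f g : V → Fml V} (h : ∀ x, Sim R (f x) (g x)) : Sim R (ex f) (ex g) :=
  .neg (.all fun x => .neg (h x))
theorem Sim.allIn (hR : ∀ x, R x x) {y y' : V} {f g : V → Fml V} (hy : R y y')
    (h : ∀ x, Sim R (f x) (g x)) : Sim R (allIn y f) (allIn y' g) :=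
  .all fun x => .imp (.mem (hR x) hy) (h x)
theorem Sim.exIn (hR : ∀ x, R x x) {y y' : V} {f g : V → Fml V} (hy : R y y')
    (h : ∀ x, Sim R (f x) (g x)) : Sim R (exIn y f) (exIn y' g) :=
  .ex fun x => .and (.mem (hR x) hy) (h x)
theorem Sim.sub (hR : ∀ x, R x x) {x x' y y' : V} (hx : R x x') (hy : R y y') :
    Sim R (sub x y) (sub x' y') := .allIn hR hx fun z => .mem (hR z) hy
theorem Sim.emp (hR : ∀ x, R x x) {x x' : V} (hx : R x x') : Sim R (emp x) (emp x') :=
  .all fun z => .neg (.mem (hR z) hx)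
theorem Sim.pair (hR : ∀ x, R x x) {a a' b b' z z' : V} (ha : R a a') (hb : R b b')
    (hz : R z z') : Sim R (pair a b z) (pair a' b' z') :=
  .all fun t => .iff (.mem (hR t) hz) (.or (.eq (hR t) ha) (.eq (hR t) hb))
theorem Sim.app (hR : ∀ x, R x x) {s s' n n' O O' : V} (hs : R s s') (hn : R n n')
    (hO : R O O') : Sim R (app s n O) (app s' n' O') :=
  .exIn hR hs fun z => .ex fun a => .ex fun b => .and (.pair hR hn hn (hR a))
    (.and (.pair hR hn hO (hR b)) (.pair hR (hR a) (hR b) (hR z)))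

end SimLemmas

/-- check names of the natural numbers (`t` is the trivial condition) -/
def natName (t : P) : ℕ → Name P
  | n => Name.mk (ULift.{1} (Fin n)) (fun i => natName t i.1) (fun _ => t)
decreasing_by exact i.1.2

omit [Pre le] in
theorem natName_eq (t : P) (n : ℕ) :
    natName t n = Name.mk (ULift.{1} (Fin n)) (fun i => natName t i.1) (fun _ => t) := by
  rw [natName]

/-- check name of `ω` -/
def omegaName (t : P) : Name P := Name.mk (ULift.{1} ℕ) (fun n => natName t n.1) (fun _ => t)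

variable {t : P}

theorem natName_inj (ht : ∀ p, le p t) {n m : ℕ} {p : P}
    (h : fEq le (natName t n) (natName t m) p) : n = m := by
  induction n using Nat.strong_induction_on generalizing m p with
  | _ n ih =>
    rw [natName_eq t n, natName_eq t m] at h
    apply le_antisymm
    · by_contra hlt
      push Not at hlt
      obtain ⟨r, -, h1⟩ := h.1 ⟨m, hlt⟩ p (lrefl p)
      obtain ⟨⟨j⟩, -, he⟩ := h1 (ht r)
      have := ih m hlt he
      have := j.2
      omega
    · by_contra hlt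
      push Not at hlt
      obtain ⟨r, -, h1⟩ := h.2 ⟨n, hlt⟩ p (lrefl p)
      obtain ⟨⟨i⟩, -, he⟩ := h1 (ht r)
      have := ih i i.2 he
      have := i.2
      simp only at *
      omega

omit [Pre le] in
theorem fMem_natName (ht : ∀ p, le p t) {x : Name P} {n : ℕ} {p : P} :
    fMem le x (natName t n) p ↔
      ∀ q, le q p → ∃ r, le r q ∧ ∃ j < n, fEq le (natName t j) x r := by
  rw [natName_eq t n, fMem_mk_iff]
  refine forall_congr' fun q => imp_congr_right fun _ => exists_congr fun r =>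
    and_congr_right fun _ => ⟨?_, ?_⟩
  · rintro ⟨⟨j⟩, -, h⟩
    exact ⟨j, j.2, h⟩
  · rintro ⟨j, hj, h⟩
    exact ⟨⟨j, hj⟩, ht r, h⟩

omit [Pre le] in
theorem fMem_omegaName (ht : ∀ p, le p t) {x : Name P} {p : P} :
    fMem le x (omegaName t) p ↔
      ∀ q, le q p → ∃ r, le r q ∧ ∃ j, fEq le (natName t j) x r := by
  rw [omegaName, fMem_mk_iff]
  simp only [ht, true_and, ULift.exists]

theorem natName_mem_omega (ht : ∀ p, le p t) (n : ℕ) (p : P) :
    fMem le (natName t n) (omegaName t) p :=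
  fMem_mk (A := fun n : ULift.{1} ℕ => natName t n.1) (c := fun _ => t) ⟨n⟩ (ht p)

theorem forces_succ (ht : ∀ p, le p t) {x : Name P} {n : ℕ} {p : P}
    (h : fEq le (natName t n) x p) (z : Name P) (q : P) (hq : le q p) :
    fMem le z (natName t (n + 1)) q ↔ Forces le (or (mem z x) (eq z x)) q := by
  rw [forces_or, fMem_natName ht]
  constructor
  · intro h' r hr
    obtain ⟨s, hs, j, hj, he⟩ := h' r hr
    have hsp : le s p := ltrans hs (ltrans hr hq)
    refine ⟨s, hs, ?_⟩
    rcases Nat.lt_succ_iff_lt_or_eq.1 hj with hj | rfl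
    · left
      refine fMem_congr_right (fEq_mono hsp h) ?_
      exact (fMem_natName ht).2 fun u hu => ⟨u, lrefl u, j, hj, fEq_mono hu he⟩
    · right
      exact fEq_trans (fEq_symm he) (fEq_mono hsp h)
  · intro h' r hr
    obtain ⟨s, hs, h''⟩ := h' r hr
    have hsp : le s p := ltrans hs (ltrans hr hq)
    rcases h'' with h'' | h''
    · have := fMem_congr_right (fEq_symm (fEq_mono hsp h)) h''
      obtain ⟨u, hu, j, hj, he⟩ := (fMem_natName ht).1 this s (lrefl s)
      exact ⟨u, ltrans hu hs, j, by omega, he⟩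
    · exact ⟨s, hs, n, by omega, fEq_trans (fEq_mono hsp h) (fEq_symm h'')⟩

theorem forces_omega (ht : ∀ p, le p t) (p : P) : Forces le (omega (omegaName t)) p := by
  refine ⟨⟨forces_exIn_of (natName t 0) (natName_mem_omega ht 0 p) ?_, ?_⟩, ?_⟩
  · intro z q _ hz
    obtain ⟨r, -, j, hj, -⟩ := (fMem_natName ht).1 hz q (lrefl q)
    omega
  · refine forces_allIn.2 fun x q _ hx => forces_exIn.2 fun r hr => ?_
    obtain ⟨s, hs, n, he⟩ := (fMem_omegaName ht).1 hx r hr
    exact ⟨s, hs, natName t (n + 1), natName_mem_omega ht _ _,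
      fun z => forces_iff.2 fun u hu => forces_succ ht he z u hu⟩
  · intro z
    refine forces_imp.2 fun q _ hz => forces_sub.2 fun x r hr hx => ?_
    have key : ∀ n, fMem le (natName t n) z q := by
      intro n
      induction n with
      | zero =>
        refine fMem_dense fun s hs => ?_
        obtain ⟨u, hu, y, hy, he⟩ := forces_exIn.1 hz.1 s hs
        refine ⟨u, hu, fMem_congr_left (fEq_of_ext fun a v hv => ⟨fun h => ?_, fun h => ?_⟩) hy⟩
        · exact absurd h (he a v hv)
        · obtain ⟨r, -, j, hj, -⟩ := (fMem_natName ht).1 h v (lrefl v)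
          omega
      | succ n ih =>
        refine fMem_dense fun s hs => ?_
        obtain ⟨u, hu, y, hy, he⟩ :=
          forces_exIn.1 (forces_allIn.1 hz.2 _ q (lrefl q) ih) s hs
        refine ⟨u, hu, fMem_congr_left (fEq_of_ext fun a v hv => ?_) hy⟩
        rw [forces_succ ht (fEq_refl _ u) a v hv]
        exact forces_iff.1 (he a) v hv
    refine fMem_dense fun s hs => ?_
    obtain ⟨u, hu, n, he⟩ := (fMem_omegaName ht).1 hx s hs
    exact ⟨u, hu, fMem_congr_left he (fMem_mono (ltrans hu (ltrans hs hr)) (key n))⟩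

end Pool.Agent.MP_f251cb_gt.Fc

end MrgPart0

-- ======== part 1: formerly Pool.Agent.MP_f251cb_gt.ZFCModel
section MrgPart1

/-! From a forcing notion to a model of ZFC in which all forced sentences are true. -/

open FirstOrder Filter

namespace Pool.Agent.MP_f251cb_gt.Fc

open Fml

/-- truth of a formula in a structure -/
def Sat {M : Type 2} (E : M → M → Prop) : Fml M → Prop
  | .mem x y => E x y
  | .eq x y => x = y
  | .neg a => ¬ Sat E a
  | .and a b => Sat E a ∧ Sat E b
  | .all f => ∀ x, Sat E (f x)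

section

variable {M : Type 2} {E : M → M → Prop} {a b : Fml M} {f : M → Fml M} {x y z : M}

theorem sat_mem : Sat E (mem x y) ↔ E x y := Iff.rfl
theorem sat_eq : Sat E (eq x y) ↔ x = y := Iff.rfl
theorem sat_neg : Sat E (neg a) ↔ ¬ Sat E a := Iff.rfl
theorem sat_and : Sat E (and a b) ↔ Sat E a ∧ Sat E b := Iff.rfl
theorem sat_all : Sat E (all f) ↔ ∀ x, Sat E (f x) := Iff.rfl
theorem sat_imp : Sat E (imp a b) ↔ (Sat E a → Sat E b) := by simp [imp, Sat]
theorem sat_or : Sat E (or a b) ↔ Sat E a ∨ Sat E b := by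
  rw [Fml.or, sat_imp, sat_neg, or_iff_not_imp_left]
theorem sat_iff : Sat E (iff a b) ↔ (Sat E a ↔ Sat E b) := by
  rw [Fml.iff, sat_and, sat_imp, sat_imp]
  exact iff_def.symm
theorem sat_ex : Sat E (ex f) ↔ ∃ x, Sat E (f x) := by simp [ex, Sat]
theorem sat_allIn : Sat E (allIn y f) ↔ ∀ x, E x y → Sat E (f x) := by
  simp only [allIn, sat_all, sat_imp, sat_mem]
theorem sat_exIn : Sat E (exIn y f) ↔ ∃ x, E x y ∧ Sat E (f x) := by
  simp only [exIn, sat_ex, sat_and, sat_mem]
theorem sat_sub : Sat E (sub x y) ↔ ISub E x y := by simp only [sub, sat_allIn, sat_mem, ISub]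
theorem sat_ind : Sat E (ind x) ↔ IInd E x := by
  simp only [ind, emp, IInd, sat_and, sat_exIn, sat_allIn, sat_all, sat_neg, sat_mem, sat_iff,
    sat_or, sat_eq]
theorem sat_omega : Sat E (omega x) ↔ IOmega E x := by
  simp only [omega, IOmega, sat_and, sat_ind, sat_all, sat_imp, sat_sub]
theorem sat_pair : Sat E (pair x y z) ↔ IPair E x y z := by
  simp only [pair, IPair, sat_all, sat_iff, sat_mem, sat_or, sat_eq]
theorem sat_app : Sat E (app x y z) ↔ IApp E x y z := by
  simp only [app, IApp, sat_exIn, sat_ex, sat_and, sat_pair]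

end

/-- two formulas have the same shape, with related variables -/
inductive Par {V W : Type 2} (R : V → W → Prop) : Fml V → Fml W → Prop
  | mem {a b : V} {a' b' : W} : R a a' → R b b' → Par R (mem a b) (mem a' b')
  | eq {a b : V} {a' b' : W} : R a a' → R b b' → Par R (eq a b) (eq a' b')
  | neg {a : Fml V} {b : Fml W} : Par R a b → Par R (neg a) (neg b)
  | and {a b : Fml V} {a' b' : Fml W} : Par R a a' → Par R b b' → Par R (and a b) (and a' b')
  | all {f : V → Fml V} {g : W → Fml W} :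
      (∀ x y, R x y → Par R (f x) (g y)) → Par R (all f) (all g)

section

variable {V W : Type 2} {R : V → W → Prop} {a b c : V} {a' b' c' : W}

theorem par_sub (h1 : R a a') (h2 : R b b') : Par R (sub a b) (sub a' b') := by
  repeat' first | assumption | constructor | intro _ _ _
theorem par_ind (h1 : R a a') : Par R (ind a) (ind a') := by
  repeat' first | assumption | constructor | intro _ _ _
theorem par_omega (h1 : R a a') : Par R (omega a) (omega a') := by
  repeat' first | assumption | constructor | intro _ _ _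
theorem par_app (h1 : R a a') (h2 : R b b') (h3 : R c c') : Par R (app a b c) (app a' b' c') := by
  repeat' first | assumption | constructor | intro _ _ _

theorem Par.sim {R : V → V → Prop} (hR : ∀ x, R x x) {φ ψ : Fml V} (h : Par R φ ψ) :
    Sim R φ ψ := by
  induction h with
  | mem h1 h2 => exact .mem h1 h2
  | eq h1 h2 => exact .eq h1 h2
  | neg _ ih => exact .neg ih
  | and _ _ ih1 ih2 => exact .and ih1 ih2
  | all _ ih => exact .all fun x => ih x x (hR x)

end

/-- the value of a term -/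
def tv {α : Type} {V : Type 2} (w : α → V) : Language.graph.Term α → V
  | .var k => w k
  | .func f _ => Empty.elim f

/-- the atomic formula given by a relation symbol -/
def relF {V : Type 2} : ∀ {l : ℕ}, Language.graph.Relations l → (Fin l → V) → Fml V
  | _, .adj, w => mem (w 0) (w 1)

/-- translation of first-order formulas -/
def toF {α : Type} {V : Type 2} :
    ∀ {l : ℕ}, Language.graph.BoundedFormula α l → (α → V) → (Fin l → V) → Fml V
  | _, .falsum, _, _ => neg (all fun x => eq x x)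
  | _, .equal t₁ t₂, w, xs => eq (tv (Sum.elim w xs) t₁) (tv (Sum.elim w xs) t₂)
  | _, .rel R ts, w, xs => relF R fun i => tv (Sum.elim w xs) (ts i)
  | _, .imp f₁ f₂, w, xs => imp (toF f₁ w xs) (toF f₂ w xs)
  | _, .all f, w, xs => all fun x => toF f w (Fin.snoc xs x)

theorem par_tv {α : Type} {V W : Type 2} {R : V → W → Prop} {w : α → V} {w' : α → W}
    (h : ∀ a, R (w a) (w' a)) (t : Language.graph.Term α) : R (tv w t) (tv w' t) := by
  cases t with
  | var k => exact h k
  | func f _ => exact Empty.elim f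

theorem par_toF {α : Type} {V W : Type 2} {R : V → W → Prop} {l : ℕ}
    (φ : Language.graph.BoundedFormula α l) {w : α → V} {w' : α → W} {xs : Fin l → V}
    {xs' : Fin l → W} (h : ∀ a, R (w a) (w' a)) (h' : ∀ i, R (xs i) (xs' i)) :
    Par R (toF φ w xs) (toF φ w' xs') := by
  induction φ with
  | falsum => exact .neg (.all fun _ _ h => .eq h h)
  | equal t₁ t₂ =>
    exact .eq (par_tv (by rintro (a | i); exacts [h a, h' i]) _)
      (par_tv (by rintro (a | i); exacts [h a, h' i]) _)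
  | rel r ts =>
    cases r
    exact .mem (par_tv (by rintro (a | i); exacts [h a, h' i]) _)
      (par_tv (by rintro (a | i); exacts [h a, h' i]) _)
  | imp f₁ f₂ ih₁ ih₂ => exact .neg (.and (ih₁ h') (.neg (ih₂ h')))
  | all f ih =>
    refine .all fun x y hxy => ih fun i => ?_
    induction i using Fin.lastCases with
    | last => simpa using hxy
    | cast i => simpa using h' i

theorem tv_eq {α : Type} {M : Type 2} (E : M → M → Prop) (w : α → M)
    (t : Language.graph.Term α) : tv w t = @Language.Term.realize _ _ (relStr E) _ w t := by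
  cases t with
  | var k => rfl
  | func f _ => exact Empty.elim f

theorem sat_toF {α : Type} {M : Type 2} {E : M → M → Prop} {l : ℕ}
    (φ : Language.graph.BoundedFormula α l) (w : α → M) (xs : Fin l → M) :
    Sat E (toF φ w xs) ↔ @Language.BoundedFormula.Realize _ _ (relStr E) _ _ φ w xs := by
  induction φ with
  | falsum => exact iff_of_false (fun h => h fun _ => rfl) id
  | equal t₁ t₂ => rw [toF, sat_eq, tv_eq E, tv_eq E]; rfl
  | rel r ts =>
    cases r
    rw [toF, relF, sat_mem, tv_eq E, tv_eq E]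
    rfl
  | imp f₁ f₂ ih₁ ih₂ => exact sat_imp.trans (imp_congr (ih₁ xs) (ih₂ xs))
  | all f ih => exact forall_congr' fun x => ih _

/-- a first-order formula with two distinguished variables -/
def fo2 {V : Type 2} (φ : Language.graph.Formula ℕ) (v : ℕ → V) (a b : V) : Fml V :=
  toF φ (Function.update (Function.update v 0 a) 1 b) default

/-- a first-order formula with a distinguished variable -/
def fo1 {V : Type 2} (φ : Language.graph.Formula ℕ) (v : ℕ → V) (a : V) : Fml V :=
  toF φ (Function.update v 0 a) default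

theorem sat_fo1 {M : Type 2} {E : M → M → Prop} {φ : Language.graph.Formula ℕ} {v : ℕ → M}
    {a : M} : Sat E (fo1 φ v a) ↔ Holds E φ (Function.update v 0 a) := sat_toF φ _ _

theorem sat_fo2 {M : Type 2} {E : M → M → Prop} {φ : Language.graph.Formula ℕ} {v : ℕ → M}
    {a b : M} : Sat E (fo2 φ v a b) ↔ Holds E φ (Function.update (Function.update v 0 a) 1 b) :=
  sat_toF φ _ _

theorem par_upd {V W : Type 2} {R : V → W → Prop} {v : ℕ → V} {v' : ℕ → W} {a : V} {a' : W}
    (h : ∀ i, R (v i) (v' i)) (h' : R a a') (n i : ℕ) :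
    R (Function.update v n a i) (Function.update v' n a' i) := by
  by_cases hi : i = n
  · simpa [hi] using h'
  · simpa [hi] using h i

theorem par_fo1 {V W : Type 2} {R : V → W → Prop} {φ : Language.graph.Formula ℕ} {v : ℕ → V}
    {v' : ℕ → W} {a : V} {a' : W} (h : ∀ i, R (v i) (v' i)) (h' : R a a') :
    Par R (fo1 φ v a) (fo1 φ v' a') := par_toF φ (par_upd h h' 0) fun i => i.elim0

theorem par_fo2 {V W : Type 2} {R : V → W → Prop} {φ : Language.graph.Formula ℕ} {v : ℕ → V}
    {v' : ℕ → W} {a b : V} {a' b' : W} (h : ∀ i, R (v i) (v' i)) (h' : R a a') (h'' : R b b') :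
    Par R (fo2 φ v a b) (fo2 φ v' a' b') :=
  par_toF φ (par_upd (par_upd h h' 0) h'' 1) fun i => i.elim0

variable {P : Type 1} {le : P → P → Prop}

/-- the index type of a name -/
def nI : Name P → Type 1
  | .mk I _ _ => I

/-- the elements of a name -/
def nA : (x : Name P) → nI x → Name P
  | .mk _ A _ => A

/-- the conditions of a name -/
def nc : (x : Name P) → nI x → P
  | .mk _ _ c => c

theorem mem_iff {x z : Name P} {p : P} : fMem le z x p ↔
    ∀ q, le q p → ∃ r, le r q ∧ ∃ j, le r (nc x j) ∧ fEq le (nA x j) z r := by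
  cases x
  rfl

variable [Pre le]

theorem Par.fo {φ ψ : Fml (Name P)} {p : P} (h : Par (fun a b => fEq le a b p) φ ψ)
    (h' : Forces le φ p) : Forces le ψ p :=
  ((h.sim fun x => fEq_refl x p).forces p (lrefl p)).1 h'

/-- the maximum principle -/
theorem max_principle (f : Name P → Fml (Name P))
    (hf : ∀ p x y, fEq le x y p → Forces le (f x) p → Forces le (f y) p) :
    ∃ y, ∀ p x, Forces le (f x) p → Forces le (f y) p := by
  classical
  have h0 : ∀ p, ∃ y, (∃ x, Forces le (f x) p) → Forces le (f y) p := fun p => by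
    by_cases h : ∃ x, Forces le (f x) p
    · exact let ⟨x, hx⟩ := h; ⟨x, fun _ => hx⟩
    · exact ⟨.mk PEmpty PEmpty.elim PEmpty.elim, fun h' => absurd h' h⟩
  choose y hy using h0
  let good : P → P → Prop := fun p q => le q p ∧ Forces le (f (y p)) p ∧
    ∀ p', WellOrderingRel p' p → Forces le (f (y p')) p' → ∀ r, le r q → ¬ le r p'
  let J := {z : Σ p : P, nI (y p) × P // good z.1 z.2.2 ∧ le z.2.2 (nc _ z.2.1)}
  have key : ∀ p q, good p q →
      fEq le (y p) (.mk J (fun z => nA _ z.1.2.1) fun z => z.1.2.2) q := fun p q h =>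
    fEq_of_ext fun z r hr => ⟨fun hz s hs => by
      obtain ⟨u, hu, j, h1, h2⟩ := mem_iff.1 hz s hs
      have h3 : le u q := ltrans hu (ltrans hs hr)
      exact ⟨u, hu, ⟨⟨p, j, u⟩, ⟨ltrans h3 h.1, h.2.1, fun p' k1 k2 r k3 =>
        h.2.2 p' k1 k2 r (ltrans k3 h3)⟩, h1⟩, lrefl u, h2⟩, fun hz => mem_iff.2 fun s hs => by
      obtain ⟨u, hu, ⟨⟨p', j, v⟩, h1, h2⟩, h3, h4⟩ := hz s hs
      have h5 : le u q := ltrans hu (ltrans hs hr)
      obtain rfl : p' = p := by
        rcases trichotomous_of WellOrderingRel p' p with k | k | k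
        · exact absurd (ltrans h3 h1.1) (h.2.2 p' k h1.2.1 u h5)
        · exact k
        · exact absurd (ltrans h5 h.1) (h1.2.2 p k h.2.1 u h3)
      exact ⟨u, hu, j, ltrans h3 h2, h4⟩⟩
  refine ⟨.mk J (fun z => nA _ z.1.2.1) fun z => z.1.2.2, fun p x h => Forces.dense fun q hq => ?_⟩
  have hne : {p' | Forces le (f (y p')) p' ∧ ∃ r, le r q ∧ le r p'}.Nonempty :=
    ⟨p, hy p ⟨x, h⟩, q, lrefl q, hq⟩
  obtain ⟨p', ⟨h1, r, h2, h3⟩, h4⟩ := (WellOrderingRel.isWellOrder (α := P)).wf.has_min _ hne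
  exact ⟨r, h2, hf r _ _ (key p' r ⟨h3, h1, fun p'' k1 k2 s k3 k4 =>
    h4 p'' ⟨k2, s, ltrans k3 h2, k4⟩ k1⟩) (h1.mono h3)⟩

theorem mem_self (x : Name P) (i : nI x) {p : P} (h : le p (nc x i)) : fMem le (nA x i) x p :=
  mem_iff.2 fun q hq => ⟨q, lrefl q, i, ltrans hq h, fEq_refl _ _⟩

theorem forces_found (x a : Name P) (p : P) (h : fMem le a x p) :
    Forces le (exIn x fun y => allIn y fun z => neg (mem z x)) p := by
  induction a generalizing p with
  | mk I A c ih =>
    refine Forces.dense fun q hq => ?_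
    by_cases hc : ∃ r, le r q ∧ ∃ i, fMem le (A i) x r
    · obtain ⟨r, hr, i, hi⟩ := hc
      exact ⟨r, hr, ih i r hi⟩
    · refine ⟨q, lrefl q, forces_exIn_of _ (fMem_mono hq h) (forces_allIn.2
        fun z r hr hz s hs hs' => ?_)⟩
      obtain ⟨u, hu, i, -, h1⟩ := hz s hs
      exact hc ⟨u, ltrans hu (ltrans hs hr), i, fMem_congr_left (fEq_symm h1) (fMem_mono hu hs')⟩

theorem forces_choice (x : Name P) : ∃ c, ∀ p, Forces le (all fun y => all fun z => all fun a =>
    imp (mem y x) (imp (mem z x) (imp (mem a y) (imp (mem a z) (eq y z))))) p →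
      ∀ y a, fMem le y x p → fMem le a y p → Forces le (exIn y fun b => and (mem b c)
        (all fun b' => imp (mem b' y) (imp (mem b' c) (eq b' b)))) p := by
  let K := Σ i : nI x, nI (nA x i)
  let B : K → Name P := fun k => nA _ k.2
  let J := {z : nI x × K × P // fMem le (nA x z.1) x z.2.2 ∧ fMem le (B z.2.1) (nA x z.1) z.2.2 ∧
    ∀ k, WellOrderingRel k z.2.1 → ∀ r, le r z.2.2 → ¬ fMem le (B k) (nA x z.1) r}
  refine ⟨.mk J (fun z => B z.1.2.1) fun z => z.1.2.2, fun p hp y a hy ha =>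
    Forces.dense fun q hq => ?_⟩
  obtain ⟨q1, h1, i, h2, h3⟩ := mem_iff.1 hy q hq
  have hne : {k | ∃ r, le r q1 ∧ fMem le (B k) (nA x i) r}.Nonempty := by
    obtain ⟨r, hr, j, h4, -⟩ := mem_iff.1
      (fMem_congr_right (fEq_symm h3) (fMem_mono (ltrans h1 hq) ha)) q1 (lrefl q1)
    exact ⟨⟨i, j⟩, r, hr, mem_self _ j h4⟩
  obtain ⟨k, ⟨r, h4, h5⟩, h6⟩ := (WellOrderingRel.isWellOrder (α := K)).wf.has_min _ hne
  refine ⟨r, ltrans h4 h1, forces_exIn_of (B k) (fMem_congr_right (fEq_mono h4 h3) h5)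
    ⟨fMem_mk (I := J) ⟨(i, k, r), mem_self x i (ltrans h4 h2), h5, fun k' h7 s hs h8 =>
      h6 k' ⟨s, ltrans hs h4, h8⟩ h7⟩ (lrefl r), fun b' => forces_imp.2 fun s hs e1 =>
      forces_imp.2 fun u hu e2 => fEq_dense fun v hv => ?_⟩⟩
  obtain ⟨w, e3, ⟨⟨i', k', r0⟩, e4, e5, e6⟩, e7, e8⟩ := e2 v hv
  have e9 : le w r := ltrans e3 (ltrans hv (ltrans hu hs))
  have e10 : le w q1 := ltrans e9 h4
  have e11 : fMem le (B k') (nA x i) w := fMem_congr_right (fEq_symm (fEq_mono e10 h3))
    (fMem_congr_left (fEq_symm e8) (fMem_mono (ltrans e3 (ltrans hv hu)) e1))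
  have e12 : fEq le (nA x i) (nA x i') w := forces_imp.1 (forces_imp.1 (forces_imp.1
    (forces_imp.1 (hp (nA x i) (nA x i') (B k')) w (ltrans e10 (ltrans h1 hq))
    (mem_self x i (ltrans e10 h2))) w (lrefl w) (fMem_mono e7 e4)) w (lrefl w) e11) w (lrefl w)
    (fMem_mono e7 e5)
  obtain rfl : k' = k := by
    rcases trichotomous_of WellOrderingRel k' k with h | h | h
    · exact absurd h (h6 k' ⟨w, e10, e11⟩)
    · exact h
    · exact absurd (fMem_congr_right e12 (fMem_mono e9 h5)) (e6 k h w e7)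
  exact ⟨w, e3, fEq_symm e8⟩

/-- an ultrafilter on the set of conditions containing all dense open sets -/
structure Gen (le : P → P → Prop) where
  U : Ultrafilter P
  dense : ∀ D : P → Prop, (∀ p q, le q p → D p → D q) → (∀ p, ∃ q, le q p ∧ D q) →
    ∀ᶠ p in U, D p

theorem exists_gen [Nonempty P] : Nonempty (Gen le) := by
  let F : Filter P :=
    { sets := {S | ∃ D : P → Prop, (∀ p q, le q p → D p → D q) ∧ (∀ p, ∃ q, le q p ∧ D q) ∧
        ∀ p, D p → p ∈ S}
      univ_sets := ⟨fun _ => True, fun _ _ _ _ => trivial, fun p => ⟨p, lrefl p, trivial⟩,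
        fun _ _ => trivial⟩
      sets_of_superset := fun ⟨D, h1, h2, h3⟩ h => ⟨D, h1, h2, fun p hp => h (h3 p hp)⟩
      inter_sets := fun ⟨D, h1, h2, h3⟩ ⟨D', k1, k2, k3⟩ => ⟨fun p => D p ∧ D' p,
        fun p q h h' => ⟨h1 p q h h'.1, k1 p q h h'.2⟩, fun p => by
          obtain ⟨q, e1, e2⟩ := h2 p
          obtain ⟨r, e3, e4⟩ := k2 q
          exact ⟨r, ltrans e3 e1, h1 q r e3 e2, e4⟩, fun p h => ⟨h3 p h.1, k3 p h.2⟩⟩ }
  have : F.NeBot := ⟨fun h => by
    obtain ⟨D, -, h2, h3⟩ : ∅ ∈ F := empty_mem_iff_bot.2 h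
    obtain ⟨q, -, h4⟩ := h2 (Classical.arbitrary P)
    exact h3 q h4⟩
  exact ⟨⟨Ultrafilter.of F, fun D h1 h2 => Ultrafilter.of_le F ⟨D, h1, h2, fun _ h => h⟩⟩⟩

namespace Gen

variable (G : Gen le)

/-- equality modulo the ultrafilter -/
def setoid : Setoid (Name P) where
  r x y := ∀ᶠ p in G.U, fEq le x y p
  iseqv := ⟨fun x => .of_forall (fEq_refl x), fun h => h.mono fun _ => fEq_symm,
    fun h1 h2 => (h1.and h2).mono fun _ h => fEq_trans h.1 h.2⟩

/-- the quotient model -/
def N : Type 2 := Quotient G.setoid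

/-- the class of a name -/
def cl (x : Name P) : G.N := Quotient.mk G.setoid x

theorem cl_surj (w : G.N) : ∃ x, G.cl x = w := Quotient.exists_rep w

/-- membership in the quotient model -/
def E : G.N → G.N → Prop :=
  Quotient.lift₂ (fun x y => ∀ᶠ p in G.U, fMem le x y p) fun _ _ _ _ h1 h2 => propext
    ⟨fun h => (h.and (h1.and h2)).mono fun _ k =>
      fMem_congr_right k.2.2 (fMem_congr_left k.2.1 k.1),
    fun h => (h.and (h1.and h2)).mono fun _ k =>
      fMem_congr_right (fEq_symm k.2.2) (fMem_congr_left (fEq_symm k.2.1) k.1)⟩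

theorem los {φ : Fml (Name P)} {ψ : Fml G.N} (h : Par (fun a m => G.cl a = m) φ ψ)
    (h' : ∀ p, Par (fun a b => fEq le a b p) φ φ) :
    (∀ᶠ p in G.U, Forces le φ p) ↔ Sat G.E ψ := by
  induction h with
  | mem h1 h2 => subst h1 h2; rfl
  | eq h1 h2 => subst h1 h2; exact (Quotient.eq (r := G.setoid)).symm
  | @neg a b _ ih =>
    refine Iff.trans ⟨fun k1 k2 => ?_, fun k => ?_⟩
      (not_congr (ih fun p => by cases h' p; assumption))
    · obtain ⟨p, k3, k4⟩ := (k1.and k2).exists
      exact k3 p (lrefl p) k4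
    · exact (Ultrafilter.eventually_or.1 (G.dense (fun p => Forces le a p ∨ Forces le (neg a) p)
        (fun p q h h' => h'.imp (Forces.mono h) (Forces.mono h)) (forces_decide a))).resolve_left k
  | and _ _ ih1 ih2 =>
    exact eventually_and.trans (and_congr (ih1 fun p => by cases h' p; assumption)
      (ih2 fun p => by cases h' p; assumption))
  | @all f g _ ih =>
    have h1 : ∀ p x y, fEq le x y p → Par (fun a b => fEq le a b p) (f x) (f y) := fun p => by
      cases h' p
      assumption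
    replace ih := fun x => ih x _ rfl fun p => h1 p x x (fEq_refl x p)
    refine ⟨fun k m => ?_, fun k => ?_⟩
    · obtain ⟨x, rfl⟩ := G.cl_surj m
      exact (ih x).1 (k.mono fun p hp => hp x)
    · obtain ⟨y, hy⟩ := max_principle (le := le) (fun x => neg (f x))
        fun p x y h => (h1 p x y h).neg.fo
      refine ((ih y).2 (k _)).mono fun p hp x => by_contra fun hn => ?_
      obtain ⟨q, hq, h2⟩ := not_forces hn
      exact hy q x h2 q (lrefl q) (hp.mono hq)

/-- forced statements are true in the quotient -/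
theorem sat_of_forces {α : Type} (Φ : ∀ {V : Type 2}, (α → V) → Fml V)
    (hΦ : ∀ (V W : Type 2) (R : V → W → Prop) (v : α → V) (w : α → W), (∀ a, R (v a) (w a)) →
      Par R (Φ v) (Φ w)) (h : ∀ v p, Forces le (Φ v) p) (w : α → G.N) : Sat G.E (Φ w) := by
  choose s hs using G.cl_surj
  exact (G.los (φ := Φ fun a => s (w a)) (hΦ _ _ _ _ _ fun a => hs _)
    fun p => hΦ _ _ _ _ _ fun a => fEq_refl _ p).1 (.of_forall (h _))

theorem sat_of_forces0 (Φ : ∀ {V : Type 2}, Fml V)
    (hΦ : ∀ (V W : Type 2) (R : V → W → Prop), Par R Φ Φ) (h : ∀ p, Forces le Φ p) :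
    Sat G.E Φ :=
  (G.los (hΦ _ _ _) fun _ => hΦ _ _ _).1 (.of_forall h)

theorem zfc {t : P} (ht : ∀ p, le p t) : ZFC G.E where
  ext := by
    simpa only [sat_all, sat_imp, sat_sub, sat_eq] using G.sat_of_forces0
      (all fun x => all fun y => imp (sub x y) (imp (sub y x) (eq x y)))
      (fun _ _ _ => by repeat' first | assumption | constructor | intro _ _ _)
      fun p x y => forces_imp.2 fun q _ h1 => forces_imp.2 fun r hr h2 => fEq_of_ext
        fun z s hs => ⟨forces_sub.1 h1 z s (ltrans hs hr), forces_sub.1 h2 z s hs⟩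
  found := by
    simpa only [sat_all, sat_imp, sat_mem, sat_exIn, sat_allIn, sat_neg] using G.sat_of_forces0
      (all fun x => all fun a => imp (mem a x) (exIn x fun y => allIn y fun z => neg (mem z x)))
      (fun _ _ _ => by repeat' first | assumption | constructor | intro _ _ _)
      fun p x a => forces_imp.2 fun q _ => forces_found x a q
  pair := by
    simpa only [sat_all, sat_ex, sat_and, sat_mem] using G.sat_of_forces0
      (all fun a => all fun b => ex fun y => and (mem a y) (mem b y))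
      (fun _ _ _ => by repeat' first | assumption | constructor | intro _ _ _)
      fun p a b => forces_ex_of (.mk (ULift.{1} Bool) (fun i => cond i.1 a b) fun _ => t)
        ⟨fMem_mk (A := fun i : ULift.{1} Bool => cond i.1 a b) ⟨true⟩ (ht p),
          fMem_mk (A := fun i : ULift.{1} Bool => cond i.1 a b) ⟨false⟩ (ht p)⟩
  union := by
    simpa only [sat_all, sat_ex, sat_imp, sat_mem] using G.sat_of_forces0
      (all fun x => ex fun y => all fun a => all fun b => imp (mem a b) (imp (mem b x) (mem a y)))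
      (fun _ _ _ => by repeat' first | assumption | constructor | intro _ _ _)
      fun p x => forces_ex_of (.mk (Σ i : nI x, nI (nA x i)) (fun k => nA _ k.2) fun _ => t)
        fun a b => forces_imp.2 fun q _ h1 => forces_imp.2 fun r hr h2 s hs => by
          obtain ⟨u, hu, i, -, h3⟩ := mem_iff.1 h2 s hs
          obtain ⟨v, hv, j, -, h4⟩ := mem_iff.1 (fMem_congr_right (fEq_symm h3)
            (fMem_mono (ltrans hu (ltrans hs hr)) h1)) u (lrefl u)
          exact ⟨v, ltrans hv hu, ⟨i, j⟩, ht v, h4⟩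
  power := by
    simpa only [sat_all, sat_ex, sat_imp, sat_mem, sat_sub] using G.sat_of_forces0
      (all fun x => ex fun y => all fun z => imp (sub z x) (mem z y))
      (fun _ _ _ => by repeat' first | assumption | constructor | intro _ _ _)
      fun p x => forces_ex_of (.mk (nI x → P → Prop) (fun S => .mk {z : nI x × P // S z.1 z.2}
        (fun z => nA x z.1.1) fun z => z.1.2) fun _ => t)
        fun z => forces_imp.2 fun q _ h r hr => ⟨r, lrefl r, fun i s => fMem le (nA x i) z s,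
          ht r, fEq_of_ext fun w s hs => ⟨fun k => fMem_dense fun u hu => by
            obtain ⟨v, hv, j, k1, k2⟩ := k u hu
            exact ⟨v, hv, fMem_congr_left k2 (fMem_mono k1 j.2)⟩, fun k u hu => by
            obtain ⟨v, hv, j, -, k2⟩ := mem_iff.1 (forces_sub.1 h w s (ltrans hs hr) k) u hu
            exact ⟨v, hv, ⟨(j, v), fMem_congr_left (fEq_symm k2) (fMem_mono (ltrans hv hu) k)⟩,
              lrefl v, k2⟩⟩⟩
  inf := by
    simpa only [sat_ex, sat_ind] using G.sat_of_forces0 (ex ind)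
      (fun _ _ _ => by repeat' first | assumption | constructor | intro _ _ _)
      fun p => forces_ex_of _ (forces_omega ht p).1
  sep φ v := by
    simpa only [sat_all, sat_ex, sat_iff, sat_mem, sat_and, sat_fo1] using G.sat_of_forces
      (fun v => all fun x => ex fun y => all fun z => iff (mem z y) (and (mem z x) (fo1 φ v z)))
      (fun _ _ _ _ _ h => by
        repeat' first | assumption | apply par_fo1 h | constructor | intro _ _ _)
      (fun v p x => forces_ex_of (.mk {z : nI x × P // fMem le (nA x z.1) x z.2 ∧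
        Forces le (fo1 φ v (nA x z.1)) z.2} (fun z => nA x z.1.1) fun z => z.1.2)
        fun z => forces_iff.2 fun q _ => ⟨fun k => Forces.dense fun r hr => by
          obtain ⟨s, hs, j, k1, k2⟩ := k r hr
          exact ⟨s, hs, fMem_congr_left k2 (fMem_mono k1 j.2.1),
            (par_fo1 (fun _ => fEq_refl _ _) k2).fo (j.2.2.mono k1)⟩, fun k r hr => by
          obtain ⟨s, hs, j, k1, k2⟩ := mem_iff.1 k.1 r hr
          exact ⟨s, hs, ⟨(j, s), mem_self x j k1, (par_fo1 (fun _ => fEq_refl _ _)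
            (fEq_symm k2)).fo (Forces.mono (ltrans hs hr) k.2)⟩, lrefl s, k2⟩⟩) v
  coll φ v x h := by
    have : ∃ y, ∀ a b, G.E a x → Holds G.E φ (Function.update (Function.update v 0 a) 1 b) →
        ∃ b', G.E b' y ∧ Holds G.E φ (Function.update (Function.update v 0 a) 1 b') := by
      revert x
      simpa only [sat_all, sat_ex, sat_imp, sat_mem, sat_exIn, sat_fo2] using
        fun x _ => G.sat_of_forces (fun v => all fun x => ex fun y => all fun a => all fun b =>
          imp (mem a x) (imp (fo2 φ v a b) (exIn y fun b' => fo2 φ v a b')))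
        (fun _ _ _ _ _ h => by
          repeat' first | assumption | apply par_fo2 h | constructor | intro _ _ _)
        (fun v p x => by
          choose y hy using fun i => max_principle (le := le) (fo2 φ v (nA x i))
            fun p _ _ h => (par_fo2 (fun _ => fEq_refl _ _) (fEq_refl _ _) h).fo
          refine forces_ex_of (.mk (nI x) y fun _ => t) fun a b => forces_imp.2 fun q _ h1 =>
            forces_imp.2 fun r hr h2 => Forces.dense fun s hs => ?_
          obtain ⟨u, hu, i, -, h3⟩ := mem_iff.1 h1 s (ltrans hs hr)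
          exact ⟨u, hu, forces_exIn_of (y i) (fMem_mk i (ht u))
            ((par_fo2 (fun _ => fEq_refl _ _) h3 (fEq_refl _ _)).fo (hy i u b
            ((par_fo2 (fun _ => fEq_refl _ _) (fEq_symm h3) (fEq_refl _ _)).fo
              (h2.mono (ltrans hu hs)))))⟩) v x
    obtain ⟨y, hy⟩ := this
    exact ⟨y, fun a ha => let ⟨b, hb⟩ := h a ha; hy a b ha hb⟩
  choice := by
    simpa only [sat_all, sat_ex, sat_imp, sat_mem, sat_exIn, sat_and, sat_eq] using
      G.sat_of_forces0 (all fun x => imp (all fun y => all fun z => all fun a =>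
        imp (mem y x) (imp (mem z x) (imp (mem a y) (imp (mem a z) (eq y z)))))
        (ex fun c => all fun y => all fun a => imp (mem y x) (imp (mem a y)
          (exIn y fun b => and (mem b c)
            (all fun b' => imp (mem b' y) (imp (mem b' c) (eq b' b)))))))
      (fun _ _ _ => by repeat' first | assumption | constructor | intro _ _ _)
      fun p x => forces_imp.2 fun q _ h => let ⟨c, hc⟩ := forces_choice (le := le) x
        forces_ex_of c fun y a => forces_imp.2 fun r hr h1 => forces_imp.2 fun s hs h2 =>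
          hc s (h.mono (ltrans hs hr)) y a (fMem_mono hs h1) h2

end Gen

/-- a sentence forced by every condition holds in some model of ZFC -/
theorem exists_model {t : P} (ht : ∀ p, le p t) (Φ : ∀ {V : Type 2}, Fml V)
    (hΦ : ∀ (V W : Type 2) (R : V → W → Prop), Par R Φ Φ) (h : ∀ p, Forces le Φ p) :
    ∃ (M : Type 2) (E : M → M → Prop), ZFC E ∧ Sat E Φ := by
  have : Nonempty P := ⟨t⟩
  obtain ⟨G⟩ := exists_gen (le := le)
  exact ⟨G.N, G.E, G.zfc ht, G.sat_of_forces0 Φ hΦ h⟩

end Pool.Agent.MP_f251cb_gt.Fc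

end MrgPart1

-- ======== part 2: formerly Pool.Agent.MP_f251cb_gt.Sent
section MrgPart2

/-! The sentence in the language of set theory, and names for pairs, sequences and families. -/

set_option autoImplicit false

namespace Pool.Agent.MP_f251cb_gt.Fc

open Fml

section

variable {V : Type 2}

/-- the relation `f` is single valued -/
def func (f : V) : Fml V :=
  all fun i => all fun z => all fun z' => imp (app f i z) (imp (app f i z') (eq z z'))

/-- `|D| ≤ |A|` -/
def img (D A : V) : Fml V :=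
  ex fun f => and (func f) (allIn D fun z => exIn A fun i => app f i z)

/-- `F` is finite -/
def fin (w F : V) : Fml V := exIn w fun n => img F n

/-- the line -/
def line (w R l : V) : Fml V :=
  and (allIn R fun a => neg (app l a a))
  (and (allIn R fun a => allIn R fun b => allIn R fun c =>
    imp (app l a b) (imp (app l b c) (app l a c)))
  (and (allIn R fun a => allIn R fun b => or (app l a b) (or (eq a b) (app l b a)))
  (and (allIn R fun a => and (exIn R fun b => app l a b) (exIn R fun b => app l b a))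
  (ex fun D => and (sub D R) (and (img D w) (allIn R fun a => allIn R fun b =>
    imp (app l a b) (exIn D fun d => and (app l a d) (app l d b))))))))

/-- open sets -/
def opn (R l O : V) : Fml V :=
  and (sub O R) (allIn O fun x => exIn R fun a => exIn R fun b => and (app l a x) (and (app l x b)
    (allIn R fun y => imp (app l a y) (imp (app l y b) (mem y O)))))

/-- closure under the Borel operations -/
def sigma (w R l S : V) : Fml V :=
  and (all fun O => imp (opn R l O) (mem O S))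
  (and (allIn S fun A => all fun C =>
    imp (all fun z => iff (mem z C) (and (mem z R) (neg (mem z A)))) (mem C S))
  (all fun K => imp (sub K S) (imp (img K w) (all fun U =>
    imp (all fun z => iff (mem z U) (exIn K fun A => mem z A)) (mem U S)))))

/-- Borel sets -/
def borel (w R l B : V) : Fml V := all fun S => imp (sigma w R l S) (mem B S)

/-- Borel covers -/
def cover (w R l X K : V) : Fml V :=
  and (img K w) (and (allIn K fun U => and (borel w R l U) (neg (sub X U)))
    (allIn X fun x => exIn K fun U => mem x U))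

/-- Borel `γ`-covers -/
def gamma (w R l X K : V) : Fml V :=
  and (cover w R l X K) (and (neg (fin w K)) (allIn X fun x => ex fun F =>
    and (fin w F) (allIn K fun U => imp (neg (mem x U)) (mem U F))))

/-- sequences -/
def seq (w s : V) : Fml V := and (func s) (allIn w fun n => ex fun U => app s n U)

/-- the selection principle -/
def s1 (w R l X : V) : Fml V :=
  all fun s => imp (seq w s) (imp
    (allIn w fun n => all fun K => imp (app s n K) (gamma w R l X K))
    (ex fun c => and (seq w c) (and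
      (allIn w fun n => all fun K => all fun U => imp (app s n K) (imp (app c n U) (mem U K)))
      (ex fun L => and (all fun U => iff (mem U L) (exIn w fun n => app c n U))
        (cover w R l X L)))))

/-- every set with the selection principle is countable -/
def sentence : Fml V :=
  ex fun w => and (omega w) (all fun R => all fun l => all fun X =>
    imp (line w R l) (imp (sub X R) (imp (s1 w R l X) (img X w))))

end

section

variable {V W : Type 2} {Q : V → W → Prop} {a b c d e : V} {a' b' c' d' e' : W}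

theorem par_func (h1 : Q a a') : Par Q (func a) (func a') := by
  repeat' first | assumption | with_reducible apply par_app | constructor | intro _ _ _

theorem par_img (h1 : Q a a') (h2 : Q b b') : Par Q (img a b) (img a' b') := by
  repeat' first
    | assumption | with_reducible apply par_app | with_reducible apply par_func | constructor
    | intro _ _ _

theorem par_fin (h1 : Q a a') (h2 : Q b b') : Par Q (fin a b) (fin a' b') := by
  repeat' first | assumption | with_reducible apply par_img | constructor | intro _ _ _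

theorem par_line (h1 : Q a a') (h2 : Q b b') (h3 : Q c c') :
    Par Q (line a b c) (line a' b' c') := by
  repeat' first
    | assumption | with_reducible apply par_app | with_reducible apply par_img | constructor
    | intro _ _ _

theorem par_opn (h1 : Q a a') (h2 : Q b b') (h3 : Q c c') : Par Q (opn a b c) (opn a' b' c') := by
  repeat' first | assumption | with_reducible apply par_app | constructor | intro _ _ _

theorem par_sigma (h1 : Q a a') (h2 : Q b b') (h3 : Q c c') (h4 : Q d d') :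
    Par Q (sigma a b c d) (sigma a' b' c' d') := by
  repeat' first
    | assumption | with_reducible apply par_opn | with_reducible apply par_img | constructor
    | intro _ _ _

theorem par_borel (h1 : Q a a') (h2 : Q b b') (h3 : Q c c') (h4 : Q d d') :
    Par Q (borel a b c d) (borel a' b' c' d') := by
  repeat' first | assumption | with_reducible apply par_sigma | constructor | intro _ _ _

theorem par_cover (h1 : Q a a') (h2 : Q b b') (h3 : Q c c') (h4 : Q d d') (h5 : Q e e') :
    Par Q (cover a b c d e) (cover a' b' c' d' e') := by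
  repeat' first
    | assumption | with_reducible apply par_borel | with_reducible apply par_img | constructor
    | intro _ _ _

theorem par_gamma (h1 : Q a a') (h2 : Q b b') (h3 : Q c c') (h4 : Q d d') (h5 : Q e e') :
    Par Q (gamma a b c d e) (gamma a' b' c' d' e') := by
  repeat' first
    | assumption | with_reducible apply par_cover | with_reducible apply par_fin | constructor
    | intro _ _ _

theorem par_seq (h1 : Q a a') (h2 : Q b b') : Par Q (seq a b) (seq a' b') := by
  repeat' first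
    | assumption | with_reducible apply par_app | with_reducible apply par_func | constructor
    | intro _ _ _

theorem par_s1 (h1 : Q a a') (h2 : Q b b') (h3 : Q c c') (h4 : Q d d') :
    Par Q (s1 a b c d) (s1 a' b' c' d') := by
  repeat' first
    | assumption | with_reducible apply par_app | with_reducible apply par_seq
    | with_reducible apply par_gamma | with_reducible apply par_cover | constructor | intro _ _ _

theorem par_sentence : Par Q sentence sentence := by
  repeat' first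
    | assumption | with_reducible apply par_omega | with_reducible apply par_line
    | with_reducible apply par_s1 | with_reducible apply par_img | constructor | intro _ _ _

end

theorem sat_sentence {M : Type 2} {E : M → M → Prop} (h : Sat E sentence) :
    ∃ w, IOmega E w ∧ ∀ R l X, ILine E w R l → ISub E X R → IS1 E w R l X → ILe E X w := by
  simpa only [sentence, s1, seq, gamma, cover, borel, sigma, opn, line, fin, img, func, IS1, ISeq,
    IGamma, ICover, IBorel, ISigma, IOpn, ILine, IFin, ILe, IFunc, sat_ex, sat_and, sat_omega,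
    sat_all, sat_imp, sat_allIn, sat_exIn, sat_sub, sat_app, sat_neg, sat_mem, sat_eq, sat_or,
    sat_iff] using h

/-- preorders with a largest element -/
class PT (P : Type 1) extends Preorder P where
  top : P
  le_top : ∀ p, p ≤ top

variable {P : Type 1} [PT P]

/-- the order on conditions -/
def cle (P : Type 1) [PT P] (q p : P) : Prop := q ≤ p

instance : Pre (cle P) := ⟨fun p => le_refl p, fun h h' => le_trans h h'⟩

/-- forcing -/
abbrev Fr (a : Fml (Name P)) (p : P) : Prop := Forces (cle P) a p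

/-- forced equality -/
abbrev fE (a b : Name P) (p : P) : Prop := fEq (cle P) a b p

/-- forced membership -/
abbrev fM (a b : Name P) (p : P) : Prop := fMem (cle P) a b p

/-- natural numbers -/
def nn (n : ℕ) : Name P := natName PT.top n

/-- countable families -/
def famN (e : ℕ → Name P) : Name P := .mk (ULift.{1} ℕ) (fun n => e n.1) fun _ => PT.top

/-- `ω` -/
def om : Name P := famN nn

/-- unordered pairs -/
def upN (a b : Name P) : Name P := .mk (ULift.{1} Bool) (fun i => cond i.1 a b) fun _ => PT.top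

/-- ordered pairs -/
def opN (a b : Name P) : Name P := upN (upN a a) (upN a b)

/-- sequences -/
def seqN (e : ℕ → Name P) : Name P := famN fun n => opN (nn n) (e n)

variable {p q : P} {a b a' b' z s : Name P} {e : ℕ → Name P}

theorem ht (p : P) : cle P p PT.top := PT.le_top p

theorem Fr.mono {φ : Fml (Name P)} (h : Fr φ p) (hq : q ≤ p) : Fr φ q := Forces.mono hq h
theorem fE.mono (h : fE a b p) (hq : q ≤ p) : fE a b q := fEq_mono hq h
theorem fM.mono (h : fM a b p) (hq : q ≤ p) : fM a b q := fMem_mono hq h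
theorem fE.symm (h : fE a b p) : fE b a p := fEq_symm h
theorem fE.trans (h : fE a b p) (h' : fE b z p) : fE a z p := fEq_trans h h'
theorem fE.rfl : fE a a p := fEq_refl a p
theorem fM.left (h : fM a z p) (h' : fE a b p) : fM b z p := fMem_congr_left h' h
theorem fM.right (h : fM z a p) (h' : fE a b p) : fM z b p := fMem_congr_right h' h

theorem mem_upN : fM z (upN a b) p ↔ ∀ q ≤ p, ∃ r ≤ q, fE a z r ∨ fE b z r := by
  refine fMem_mk_iff.trans (forall₂_congr fun q _ => exists_congr fun r => and_congr_right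
    fun _ => ?_)
  simp only [ULift.exists, Bool.exists_bool, cond_false, cond_true, ht, true_and]
  exact or_comm

theorem left_mem_upN : fM a (upN a b) p := mem_upN.2 fun q _ => ⟨q, le_rfl, Or.inl fE.rfl⟩
theorem right_mem_upN : fM b (upN a b) p := mem_upN.2 fun q _ => ⟨q, le_rfl, Or.inr fE.rfl⟩

theorem upN_congr (h : fE a a' p) (h' : fE b b' p) : fE (upN a b) (upN a' b') p := by
  have key : ∀ {a b a' b' : Name P}, fE a a' p → fE b b' p → ∀ z, ∀ q ≤ p,
      fM z (upN a b) q → fM z (upN a' b') q := fun h h' z q hq hz => mem_upN.2 fun r hr => by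
    obtain ⟨t, ht, h1⟩ := mem_upN.1 hz r hr
    have h2 := ht.trans (hr.trans hq)
    exact ⟨t, ht, h1.imp (h.mono h2).symm.trans (h'.mono h2).symm.trans⟩
  exact fEq_of_ext fun z q hq => ⟨key h h' z q hq, key h.symm h'.symm z q hq⟩

theorem opN_congr (h : fE a a' p) (h' : fE b b' p) : fE (opN a b) (opN a' b') p :=
  upN_congr (upN_congr h h) (upN_congr h h')

theorem forces_pair : Fr (pair a b z) p ↔ fE z (upN a b) p := by
  have key : ∀ t q, Fr (or (eq t a) (eq t b)) q ↔ fM t (upN a b) q := fun t q =>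
    forces_or.trans (mem_upN.trans (forall₂_congr fun _ _ => exists_congr fun _ =>
      and_congr_right fun _ => ⟨fun h => h.imp fE.symm fE.symm,
        fun h => h.imp fE.symm fE.symm⟩)).symm
  constructor
  · intro h
    exact fEq_of_ext fun t q hq => (forces_iff.1 (h t) q hq).trans (key t q)
  · intro h t
    exact forces_iff.2 fun q hq => Iff.trans
      ⟨fun h' => fM.right h' (h.mono hq), fun h' => fM.right h' (h.mono hq).symm⟩ (key t q).symm

theorem forces_app : Fr (app s a b) p ↔ fM (opN a b) s p := by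
  constructor
  · intro h
    refine fMem_dense fun q hq => ?_
    obtain ⟨r, hr, z, h1, h2⟩ := forces_exIn.1 h q hq
    obtain ⟨r1, hr1, u, h3⟩ := forces_ex.1 h2 r (le_refl r)
    obtain ⟨r2, hr2, v, h4, h5, h6⟩ := forces_ex.1 h3 r1 (le_refl r1)
    exact ⟨r2, le_trans hr2 (le_trans hr1 hr), fM.left (fM.mono h1 (le_trans hr2 hr1))
      ((forces_pair.1 h6).trans (upN_congr (forces_pair.1 h4) (forces_pair.1 h5)))⟩
  · intro h
    exact forces_exIn_of _ h (forces_ex_of (upN a a) (forces_ex_of (upN a b)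
      ⟨forces_pair.2 fE.rfl, forces_pair.2 fE.rfl, forces_pair.2 fE.rfl⟩))

theorem eq_of_mem_sing (h : fM z (upN a a) p) : fE a z p := fEq_dense fun q hq =>
  let ⟨r, hr, h1⟩ := mem_upN.1 h q hq; ⟨r, hr, h1.elim id id⟩

theorem opN_inj (h : fE (opN a b) (opN a' b') p) : fE a a' p ∧ fE b b' p := by
  have key : ∀ {a b a' b' : Name P} {p : P}, fE (opN a b) (opN a' b') p → fE a a' p := by
    intro a b a' b' p h
    refine fEq_dense fun q hq => ?_
    obtain ⟨r, hr, h1 | h1⟩ := mem_upN.1 (fM.right left_mem_upN h) q hq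
    · exact ⟨r, hr, eq_of_mem_sing (fM.right left_mem_upN h1)⟩
    · exact ⟨r, hr, eq_of_mem_sing (fM.right left_mem_upN h1)⟩
  have key2 : ∀ {a b a' b' : Name P} {p : P}, fE (opN a b) (opN a' b') p →
      ∀ q ≤ p, ∃ r ≤ q, fE a' b r ∨ fE b' b r := by
    intro a b a' b' p h q hq
    obtain ⟨r, hr, h1 | h1⟩ := mem_upN.1 (fM.right right_mem_upN h) q hq
    · exact ⟨r, hr, Or.inl (eq_of_mem_sing (fM.right right_mem_upN h1.symm))⟩
    · obtain ⟨t, ht, h2⟩ := mem_upN.1 (fM.right right_mem_upN h1.symm) r le_rfl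
      exact ⟨t, ht.trans hr, h2⟩
  refine ⟨key h, fEq_dense fun q hq => ?_⟩
  obtain ⟨r, hr, h1 | h1⟩ := key2 h q hq
  · obtain ⟨t, ht, h2 | h2⟩ := key2 h.symm r (hr.trans hq)
    · exact ⟨t, ht.trans hr, (h1.mono ht).symm.trans
        (((key h).mono (ht.trans (hr.trans hq))).symm.trans h2)⟩
    · exact ⟨t, ht.trans hr, h2⟩
  · exact ⟨r, hr, h1.symm⟩

theorem app_congr {s' : Name P} (h : Fr (app s a b) p) (hs : fE s s' p) (ha : fE a a' p)
    (hb : fE b b' p) : Fr (app s' a' b') p :=
  forces_app.2 (fM.right (fM.left (forces_app.1 h) (opN_congr ha hb)) hs)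

theorem mem_famN (h : fM z (famN e) p) : ∃ r ≤ p, ∃ n, fE (e n) z r :=
  let ⟨r, k1, n, _, k2⟩ := h p (le_refl p)
  ⟨r, k1, n.1, k2⟩

theorem self_mem_famN (n : ℕ) : fM (e n) (famN e) p :=
  fMem_mk (A := fun n : ULift.{1} ℕ => e n.1) (c := fun _ => PT.top) ⟨n⟩ (ht p)

theorem nn_inj {m n : ℕ} (h : fE (nn m) (nn n) p) : m = n := natName_inj ht h

theorem mem_nn {n : ℕ} (h : fM z (nn n) p) : ∃ r ≤ p, ∃ j < n, fE (nn j) z r :=
  (fMem_natName ht).1 h p (le_refl p)

theorem nn_mem_nn {m n : ℕ} (h : m < n) : fM (nn m) (nn n) p :=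
  (fMem_natName ht).2 fun q _ => ⟨q, le_refl q, m, h, fE.rfl⟩

theorem omega_om : Fr (omega om) p := forces_omega ht p

theorem app_seqN' (h : Fr (app (seqN e) a b) p) : ∃ r ≤ p, ∃ n, fE (nn n) a r ∧ fE (e n) b r :=
  let ⟨r, k1, n, k2⟩ := mem_famN (forces_app.1 h)
  ⟨r, k1, n, opN_inj k2⟩

theorem app_seqN {n : ℕ} : Fr (app (seqN e) (nn n) z) p ↔ fE (e n) z p := by
  constructor
  · intro h
    refine fEq_dense fun q hq => ?_
    obtain ⟨r, hr, i, h1, h2⟩ := app_seqN' (h.mono hq)
    exact ⟨r, hr, nn_inj h1 ▸ h2⟩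
  · exact fun h => forces_app.2 (fM.left
      (self_mem_famN (e := fun n => opN (nn n) (e n)) n) (opN_congr fE.rfl h))

theorem func_eq {f i : Name P} (h : Fr (func f) p) (h1 : Fr (app f i a) p)
    (h2 : Fr (app f i b) p) : fE a b p :=
  forces_imp.1 (forces_imp.1 (h i a b) p (le_refl p) h1) p (le_refl p) h2

theorem func_seqN : Fr (func (seqN e)) p := fun i a b => forces_imp.2 fun q _ h1 =>
  forces_imp.2 fun r hr h2 => fEq_dense fun t ht => by
    obtain ⟨u, k1, n, k2, k3⟩ := app_seqN' (Fr.mono h2 ht)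
    exact ⟨u, k1, (app_seqN.1 (app_congr (Fr.mono h1 (le_trans k1 (le_trans ht hr))) fE.rfl
      k2.symm fE.rfl)).symm.trans k3⟩

/-- formulas which respect forced equality -/
def Cong (f : Name P → Fml (Name P)) : Prop :=
  ∀ p x y, fE x y p → (∀ z, fE z z p) → Par (fun a b => fE a b p) (f x) (f y)

theorem Cong.fo {f : Name P → Fml (Name P)} (hf : Cong f) (h : fE a b p) (h' : Fr (f a) p) :
    Fr (f b) p := (hf p a b h fun _ => fE.rfl).fo h'

theorem allIn_famN {f : Name P → Fml (Name P)} (hf : Cong f) (h : ∀ n, Fr (f (e n)) p) :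
    Fr (allIn (famN e) f) p := forces_allIn.2 fun _ q hq hx => Forces.dense fun r hr => by
  obtain ⟨t, ht, n, h1⟩ := mem_famN (fM.mono hx hr)
  exact ⟨t, ht, hf.fo h1 (Fr.mono (h n) (le_trans ht (le_trans hr hq)))⟩

theorem allIn_of {f : Name P → Fml (Name P)} (h : Fr (allIn s f) p) (hq : q ≤ p) (ha : fM a s q) :
    Fr (f a) q := forces_allIn.1 h a q hq ha

theorem imp_of {φ ψ : Fml (Name P)} (h : Fr (imp φ ψ) p) (h' : Fr φ p) : Fr ψ p :=
  forces_imp.1 h p (le_refl p) h'

theorem exIn_elim {f : Name P → Fml (Name P)} (h : Fr (exIn s f) p) :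
    ∃ r ≤ p, ∃ x, fM x s r ∧ Fr (f x) r := forces_exIn.1 h p (le_refl p)

theorem ex_elim {f : Name P → Fml (Name P)} (h : Fr (ex f) p) : ∃ r ≤ p, ∃ x, Fr (f x) r :=
  forces_ex.1 h p (le_refl p)

theorem exIn_famN {f : Name P → Fml (Name P)} (hf : Cong f) (h : Fr (exIn (famN e) f) p) :
    ∃ r ≤ p, ∃ n, Fr (f (e n)) r := by
  obtain ⟨r, hr, x, h1, h2⟩ := exIn_elim h
  obtain ⟨t, ht, n, h3⟩ := mem_famN h1
  exact ⟨t, ht.trans hr, n, hf.fo h3.symm (Fr.mono h2 ht)⟩

theorem cong_app1 (s b : Name P) : Cong fun x => app s x b := fun _ _ _ h h' =>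
  par_app (h' _) h (h' _)

theorem seq_seqN : Fr (seq om (seqN e)) p :=
  ⟨func_seqN, allIn_famN (fun _ _ _ h h' => .neg (.all fun _ _ k => .neg (par_app (h' _) h k)))
    fun n => forces_ex_of (e n) (app_seqN.2 fE.rfl)⟩

theorem img_famN : Fr (img (famN e) om) p :=
  forces_ex_of (seqN e) ⟨func_seqN, allIn_famN
    (fun _ _ _ h h' => .neg (.all fun _ _ k => .neg (.and (.mem k (h' _)) (par_app (h' _) k h))))
    fun n => forces_exIn_of (nn n) (self_mem_famN n) (app_seqN.2 fE.rfl)⟩

theorem fin_famN (N : ℕ) : Fr (fin om (famN fun n => e (min n N))) p :=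
  forces_exIn_of (nn (N + 1)) (self_mem_famN _) (forces_ex_of (seqN e) ⟨func_seqN, allIn_famN
    (fun _ _ _ h h' => .neg (.all fun _ _ k => .neg (.and (.mem k (h' _)) (par_app (h' _) k h))))
    fun n => forces_exIn_of (nn (min n N)) (nn_mem_nn (by omega)) (app_seqN.2 fE.rfl)⟩)

/-- an element of an uncountable set outside a countable family -/
theorem exists_new {X : Name P} (h : Fr (neg (img X om)) p) (e : ℕ → Name P) :
    ∃ a, fM a X p ∧ ∀ n, Fr (neg (eq a (e n))) p := by
  obtain ⟨y, hy⟩ := max_principle (le := cle P)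
    (fun x => and (mem x X) (neg (mem x (famN e))))
    (fun p _ _ k => (Par.and (.mem k fE.rfl) (.neg (.mem k fE.rfl))).fo)
  have : Fr (and (mem y X) (neg (mem y (famN e)))) p := Forces.dense fun q hq => by
    by_contra hn
    refine h q hq (forces_ex_of (seqN e) ⟨func_seqN, forces_allIn.2 fun x r hr hx =>
      Forces.dense fun t ht => ?_⟩)
    by_contra hn'
    refine hn ⟨t, le_trans ht hr, hy t x ⟨fM.mono hx ht, fun u hu k => ?_⟩⟩
    obtain ⟨v, k1, n, k2⟩ := mem_famN k
    exact hn' ⟨v, le_trans k1 hu, forces_exIn_of (nn n) (self_mem_famN n) (app_seqN.2 k2)⟩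
  exact ⟨y, this.1, fun n q hq k => this.2 q hq (fM.left (self_mem_famN n) (fE.symm k))⟩

end Pool.Agent.MP_f251cb_gt.Fc

end MrgPart2

-- ======== part 3: formerly Pool.Agent.MP_f251cb_gt.Link
section MrgPart3

/-! Names of Borel sets. -/

set_option autoImplicit false

namespace Pool.Agent.MP_f251cb_gt.Fc

open Fml Set MeasureTheory

/-- the conditions of the iteration -/
def PP : Type 1 := FF.P

instance : PT PP where
  le a b := FF.le a.1 b.1
  le_refl a := le_rfl' a.1
  le_trans _ b _ := le_trans' b.2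
  top := ⟨one, PB_sub (one_mem 0)⟩
  le_top a := le_one a.1

/-- names -/
abbrev Nm : Type 2 := Name PP

/-- generic truth below a condition -/
abbrev Ge (p : PP) (Φ : Set Raw → Prop) : Prop := FF.Forces p.1 Φ

/-- the formula is forced by a member of the filter -/
def T (φ : Fml Nm) (G : Set Raw) : Prop := ∃ v : PP, v.1 ∈ G ∧ Fr φ v

variable {p q : PP} {φ : Fml Nm} {Φ Ψ : Set Raw → Prop}

theorem Ge.mono (h : Ge p Φ) (hq : q ≤ p) : Ge q Φ := Fo.Forces.mono h p.2 hq

theorem Ge.dense (h : ∀ q ≤ p, ∃ r ≤ q, Ge r Φ) : Ge p Φ :=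
  good_FF.of_dense fun q h1 h2 =>
    let ⟨r, k1, k2⟩ := h ⟨q, h1⟩ h2
    ⟨r.1, r.2, k1, k2⟩

theorem Ge.not_false (h : Ge p fun _ => False) : False := Fo.Forces.not_false good_FF h p.2

theorem Ge.ex {ι : Type} [Countable ι] {Φ : ι → Set Raw → Prop}
    (h : ∀ i, Measurable[SS.ms] (Φ i)) (h' : Ge p (fun G => ∃ i, Φ i G)) :
    ∃ r ≤ p, ∃ i, Ge r (Φ i) :=
  let ⟨r, k1, k2, k3⟩ := forces_ex' h p.2 h'
  ⟨⟨r, k1⟩, k2, k3⟩

theorem ge_decide (h : Measurable[SS.ms] Φ) (p : PP) :
    ∃ r ≤ p, Ge r Φ ∨ Ge r (fun G => ¬ Φ G) :=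
  let ⟨r, k1, k2, k3⟩ := Fo.Sub.dec_iff.1 h p.1 p.2
  ⟨⟨r, k1⟩, k2, k3⟩

theorem meas_T (φ : Fml Nm) : Measurable[SS.ms] (T φ) :=
  @meas_congr _ SS.ms _ _ (Fo.Sub.meas_hit (S := SS) {v | ∃ h : v ∈ FF.P, Fr φ ⟨v, h⟩})
    (fun _ => ⟨fun ⟨v, k1, k2⟩ => ⟨v.1, k1, v.2, v.2, k2⟩,
      fun ⟨v, k1, k2, _, k3⟩ => ⟨⟨v, k2⟩, k1, k3⟩⟩)

theorem filt_compat {G : Set Raw} (hG : FF.Filt G) (hp : p.1 ∈ G) (hq : q.1 ∈ G) :
    ∃ r : PP, r.1 ∈ G ∧ r ≤ p ∧ r ≤ q :=
  let ⟨r, k1, k2, k3⟩ := hG.dir _ hp _ hq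
  ⟨⟨r, hG.sub k1⟩, k1, k2, k3⟩

theorem T_iff : Ge p (T φ) ↔ Fr φ p := by
  refine ⟨fun h => Forces.dense fun q hq => ?_,
    fun h => good_FF.of_forall fun G _ k => ⟨p, k, h⟩⟩
  obtain ⟨G, k1, k2, v, k3, k4⟩ := (h.mono hq).exists_filt good_FF q.2
  obtain ⟨r, -, l2, l3⟩ := filt_compat k1 k2 k3
  exact ⟨r, l2, k4.mono l3⟩

theorem T_not (h : Fr (neg φ) p) : Ge p (fun G => ¬ T φ G) :=
  good_FF.of_forall fun _ k1 k2 ⟨_, k3, k4⟩ =>
    let ⟨r, _, l2, l3⟩ := filt_compat k1 k2 k3
    h r l2 (k4.mono l3)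

variable (f R l : Nm)

/-- the `i`-th point of the dense set lies below `a` -/
def bitF (i : ℕ) (a : Nm) : Fml Nm :=
  ex fun d => and (app f (nn i) d) (and (mem d R) (app l d a))

open Classical in
/-- the code of a point of the line -/
noncomputable def bt (a : Nm) (G : Set Raw) : Pt := fun i => decide (T (bitF f R l i a) G)

/-- the name of a subset of the line -/
def BN (s : Set (Set Raw × Pt)) : Nm :=
  .mk {z : nI R × PP // fM (nA R z.1) R z.2 ∧ Ge z.2 (fun G => (G, bt f R l (nA R z.1) G) ∈ s)}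
    (fun z => nA R z.1.1) fun z => z.1.2

variable {f R l} {a b z : Nm} {s s' : Set (Set Raw × Pt)}

theorem cong_bitF (i : ℕ) : Cong (bitF f R l i) := fun _ _ _ h h' =>
  .neg (.all fun _ _ k => .neg (.and (par_app (h' _) (h' _) k)
    (.and (.mem k (h' _)) (par_app (h' _) k h))))

theorem bt_true {G : Set Raw} {i : ℕ} : bt f R l a G i = true ↔ T (bitF f R l i a) G := by
  simp [bt]

theorem mp_bt (a : Nm) : @MP _ SS.ms (bt f R l a) := by
  let _ := SS.ms
  intro n c
  cases c
  · exact meas_congr (meas_T (bitF f R l n a)).not (fun G => by simp [bt])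
  · exact meas_congr (meas_T (bitF f R l n a)) (fun G => bt_true)

theorem bt_congr (h : fE a b p) : Ge p (fun G => bt f R l a G = bt f R l b G) := by
  refine good_FF.of_forall fun G k1 k2 => funext fun i => ?_
  rw [Bool.eq_iff_iff, bt_true, bt_true]
  constructor
  · rintro ⟨v, l1, l2⟩
    obtain ⟨r, m1, m2, m3⟩ := filt_compat k1 k2 l1
    exact ⟨r, m1, (cong_bitF i).fo (h.mono m2) (l2.mono m3)⟩
  · rintro ⟨v, l1, l2⟩
    obtain ⟨r, m1, m2, m3⟩ := filt_compat k1 k2 l1
    exact ⟨r, m1, (cong_bitF i).fo (h.mono m2).symm (l2.mono m3)⟩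

theorem mem_BN : fM z (BN f R l s) p ↔ fM z R p ∧ Ge p (fun G => (G, bt f R l z G) ∈ s) := by
  constructor
  · intro h
    have : ∀ q ≤ p, ∃ r ≤ q, fM z R r ∧ Ge r (fun G => (G, bt f R l z G) ∈ s) := by
      intro q hq
      obtain ⟨r, k1, j, k2, k3⟩ := h q hq
      exact ⟨r, k1, (j.2.1.mono k2).left k3, ((j.2.2.mono k2).and (bt_congr k3)).imp
        fun G _ _ k => k.2 ▸ k.1⟩
    exact ⟨fMem_dense fun q hq => let ⟨r, k1, k2⟩ := this q hq; ⟨r, k1, k2.1⟩,
      Ge.dense fun q hq => let ⟨r, k1, k2⟩ := this q hq; ⟨r, k1, k2.2⟩⟩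
  · intro h q hq
    obtain ⟨r, k1, j, k2, k3⟩ := mem_iff.1 h.1 q hq
    exact ⟨r, k1, ⟨(j, r), mem_self R j k2, ((h.2.mono (le_trans k1 hq)).and (bt_congr k3)).imp
      fun G _ _ k => k.2 ▸ k.1⟩, le_refl r, k3⟩

theorem BN_congr (h : Ge p (fun G => ∀ y, (G, y) ∈ s ↔ (G, y) ∈ s')) :
    fE (BN f R l s) (BN f R l s') p :=
  fEq_of_ext fun _ _ hq => mem_BN.trans (Iff.trans (and_congr_right fun _ =>
    ⟨fun k => (k.and (h.mono hq)).imp fun _ _ _ m => (m.2 _).1 m.1,
      fun k => (k.and (h.mono hq)).imp fun _ _ _ m => (m.2 _).2 m.1⟩) mem_BN.symm)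

theorem BN_sub : Fr (sub (BN f R l s) R) p := forces_sub.2 fun _ _ _ h => (mem_BN.1 h).1

variable (f R l)

/-- the sets whose names are forced to be Borel -/
@[reducible] def mB (p : PP) : MeasurableSpace (Set Raw × Pt) where
  MeasurableSet' s := (∀ a, Measurable[SS.ms] (fun G => (G, bt f R l a G) ∈ s)) ∧
    ∀ S, ∀ q ≤ p, Fr (sigma om R l S) q → fM (BN f R l s) S q
  measurableSet_empty := ⟨fun _ => @measurable_const _ _ _ SS.ms False,
    fun _ _ _ h => imp_of (h.1 _) ⟨BN_sub, forces_allIn.2 fun _ _ _ k =>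
      (mem_BN.1 k).2.not_false.elim⟩⟩
  measurableSet_compl := fun s hs => ⟨fun a => @Measurable.not _ SS.ms _ (hs.1 a),
    fun S q hq h => imp_of (allIn_of h.2.1 le_rfl (hs.2 S q hq h) _) fun z =>
      forces_iff.2 fun r _ => ⟨fun k => ⟨(mem_BN.1 k).1, fun t ht m =>
        (mem_BN.1 m).2.contra good_FF ((mem_BN.1 k).2.mono ht) t.2⟩, fun k => mem_BN.2 ⟨k.1,
          Ge.dense fun t ht => by
            obtain ⟨u, m1, m2 | m2⟩ := ge_decide (hs.1 z) t
            · exact (k.2 u (le_trans m1 ht) (mem_BN.2 ⟨fM.mono k.1 (le_trans m1 ht), m2⟩)).elim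
            · exact ⟨u, m1, m2⟩⟩⟩⟩
  measurableSet_iUnion := fun s hs => ⟨fun a => by
      let _ := SS.ms
      exact meas_congr (Measurable.exists (fun n => (hs n).1 a)) (fun _ => mem_iUnion),
    fun S q hq h => imp_of (imp_of (imp_of (h.2.2 (famN fun n => BN f R l (s n)))
      (allIn_famN (fun _ _ _ k k' => .mem k (k' _)) fun n => (hs n).2 S q hq h)) img_famN _)
      fun z => forces_iff.2 fun r _ => ⟨fun k => Forces.dense fun t ht => by
        obtain ⟨u, m1, n, m2⟩ := Ge.ex (fun n => (hs n).1 z)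
          (((mem_BN.1 k).2.mono ht).imp fun G _ _ m => mem_iUnion.1 m)
        exact ⟨u, m1, forces_exIn_of _ (self_mem_famN n)
          (mem_BN.2 ⟨(mem_BN.1 k).1.mono (le_trans m1 ht), m2⟩)⟩,
      fun k => fMem_dense fun t ht => by
        obtain ⟨u, m1, n, m2⟩ := exIn_famN (fun _ _ _ k k' => .mem (k' _) k) (Fr.mono k ht)
        exact ⟨u, m1, mem_BN.2 ⟨(mem_BN.1 m2).1,
          (mem_BN.1 m2).2.imp fun G _ _ m => mem_iUnion.2 ⟨n, m⟩⟩⟩⟩⟩

variable {f R l}

theorem mB_const (h : Measurable[SS.ms] Φ) : Measurable[mB f R l p] (fun ω => Φ ω.1) := by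
  rw [← @measurableSet_setOfPred _ (mB f R l p)]
  refine ⟨fun _ => h, fun S q hq k => fMem_dense fun r hr => ?_⟩
  obtain ⟨t, k1, k2 | k2⟩ := ge_decide h r
  · exact ⟨t, k1, fM.left ((@MeasurableSet.univ _ (mB f R l p)).2 S t
      (le_trans k1 (le_trans hr hq)) (k.mono (le_trans k1 hr)))
      (BN_congr (k2.imp fun G _ _ m y => ⟨fun _ => m, fun _ => trivial⟩))⟩
  · exact ⟨t, k1, fM.left ((@MeasurableSet.empty _ (mB f R l p)).2 S t
      (le_trans k1 (le_trans hr hq)) (k.mono (le_trans k1 hr)))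
      (BN_congr (k2.imp fun G _ _ m y => ⟨False.elim, m⟩))⟩

theorem mB_snd (h : Fr (line om R l) p) : @MP _ (mB f R l p) Prod.snd := by
  let _ := mB f R l p
  have : ∀ i, Measurable (fun ω : Set Raw × Pt => ω.2 i = true) := by
    intro i
    rw [← measurableSet_setOfPred]
    refine ⟨fun a => mp_bt a i true, fun S q hq k => imp_of (k.1 _) ⟨BN_sub,
      forces_allIn.2 fun x r hr hx => Forces.dense fun t ht => ?_⟩⟩
    obtain ⟨k1, k2⟩ := mem_BN.1 (fM.mono hx ht)
    obtain ⟨t1, k3, d, k4, k5, k6⟩ := ex_elim (T_iff.1 (k2.imp fun G _ _ m => bt_true.1 m))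
    obtain ⟨t2, k7, c, k8, k9⟩ := exIn_elim (allIn_of h.2.2.2.1
      (le_trans k3 (le_trans ht (le_trans hr hq))) (k1.mono k3)).1
    exact ⟨t2, le_trans k7 k3, forces_exIn_of d (fM.mono k5 k7) (forces_exIn_of c k8
      ⟨Fr.mono k6 k7, k9, forces_allIn.2 fun y u hu hy => forces_imp.2 fun v hv m1 =>
        forces_imp.2 fun w hw _ => mem_BN.2 ⟨fM.mono hy (le_trans hw hv),
          (T_iff.2 (show Fr (bitF f R l i y) w from forces_ex_of d ⟨Fr.mono k4 (le_trans hw (le_trans hv (le_trans hu k7))),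
            fM.mono k5 (le_trans hw (le_trans hv (le_trans hu k7))), Fr.mono m1 hw⟩)).imp
            fun G _ _ m => bt_true.2 m⟩⟩)⟩
  intro i c
  cases c
  · exact meas_congr (this i).not (fun ω => by simp)
  · exact this i

/-- `f` enumerates a dense subset of the line -/
def Den (f R l : Nm) (p : PP) : Prop :=
  Fr (func f) p ∧ ∀ a b, ∀ q ≤ p, fM a R q → fM b R q → Fr (app l a b) q →
    ∃ r ≤ q, ∃ i d, Fr (app f (nn i) d) r ∧ fM d R r ∧ Fr (app l a d) r ∧ Fr (app l d b) r

theorem exists_den (h : Fr (line om R l) p) : ∃ q ≤ p, ∃ f, Den f R l q := by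
  obtain ⟨p1, k1, D, k2, k3, k4⟩ := ex_elim h.2.2.2.2
  obtain ⟨p2, k5, f, k6, k7⟩ := ex_elim k3
  refine ⟨p2, k5.trans k1, f, k6, fun a b q hq ha hb hab => ?_⟩
  obtain ⟨r, l1, d, l2, l3, l4⟩ := exIn_elim
    (imp_of (allIn_of (allIn_of k4 (hq.trans k5) ha) le_rfl hb) hab)
  obtain ⟨t, l5, i, l6⟩ := exIn_famN (cong_app1 f d) (allIn_of k7 (l1.trans hq) l2)
  exact ⟨t, l5.trans l1, i, d, l6, allIn_of k2 (l5.trans (l1.trans (hq.trans k5))) (l2.mono l5),
    Fr.mono l3 l5, Fr.mono l4 l5⟩

theorem bt_lt (h : Fr (line om R l) p) (hf : Den f R l p) (ha : fM a R p) (hb : fM b R p)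
    (hab : Fr (app l a b) p) : ∃ r ≤ p, Ge r (fun G => ¬ bt f R l a G = bt f R l b G) := by
  obtain ⟨r, k1, i, d, k2, k3, k4, k5⟩ := hf.2 a b p le_rfl ha hb hab
  have l1 : Fr (bitF f R l i b) r := forces_ex_of d ⟨k2, k3, k5⟩
  have l2 : Fr (neg (bitF f R l i a)) r := fun t ht m => by
    obtain ⟨u, m1, d', m2, -, m3⟩ := ex_elim m
    have m4 : u ≤ r := le_trans m1 ht
    have m5 : u ≤ p := m4.trans k1
    have m6 := app_congr m3 fE.rfl (func_eq (hf.1.mono m5) m2 (k2.mono m4)) fE.rfl
    exact allIn_of h.1 m5 (ha.mono m5) u (le_refl u) (imp_of (imp_of (allIn_of (allIn_of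
      (allIn_of h.2.1 m5 (ha.mono m5)) le_rfl (k3.mono m4)) le_rfl (ha.mono m5)) (k4.mono m4)) m6)
  refine ⟨r, k1, ((T_iff.2 l1).and (T_not l2)).imp fun G _ _ m e => m.2 ?_⟩
  rw [← bt_true, e, bt_true]
  exact m.1

theorem bt_ne (h : Fr (line om R l) p) (hf : Den f R l p) (ha : fM a R p) (hb : fM b R p)
    (hab : Fr (neg (eq a b)) p) : Ge p (fun G => ¬ bt f R l a G = bt f R l b G) := by
  refine Ge.dense fun q hq => ?_
  have hf' : ∀ r ≤ p, Den f R l r := fun r hr =>
    ⟨hf.1.mono hr, fun a b t ht => hf.2 a b t (ht.trans hr)⟩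
  obtain ⟨r, k1, k2 | k2⟩ := forces_or.1 (allIn_of (allIn_of h.2.2.1 le_rfl ha) le_rfl hb) q hq
  · have k3 : r ≤ p := le_trans k1 hq
    obtain ⟨t, l1, l2⟩ := bt_lt (h.mono k3) (hf' r k3) (ha.mono k3) (hb.mono k3) k2
    exact ⟨t, le_trans l1 k1, l2⟩
  · obtain ⟨t, k3, k4 | k4⟩ := forces_or.1 k2 r (le_refl r)
    · exact (hab t (le_trans k3 (le_trans k1 hq)) k4).elim
    · have k5 : t ≤ p := le_trans k3 (le_trans k1 hq)
      obtain ⟨u, l1, l2⟩ := bt_lt (h.mono k5) (hf' t k5) (hb.mono k5) (ha.mono k5) k4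
      exact ⟨u, le_trans l1 (le_trans k3 k1), l2.imp fun G _ _ m e => m e.symm⟩

theorem exists_long {X : Nm} (h : Fr (neg (img X om)) p) :
    ∃ a : W1 → Nm, (∀ ξ, fM (a ξ) X p) ∧ ∀ ξ η, ξ ≠ η → Fr (neg (eq (a ξ) (a η))) p := by
  have : ∀ S : Set Nm, ∃ a, S.Countable → fM a X p ∧ ∀ b ∈ S, Fr (neg (eq a b)) p := by
    intro S
    by_cases hS : S.Countable
    · obtain ⟨e, he⟩ := (hS.insert X).exists_eq_range (insert_nonempty _ _)
      obtain ⟨a, k1, k2⟩ := exists_new h e
      refine ⟨a, fun _ => ⟨k1, fun b hb => ?_⟩⟩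
      obtain ⟨n, rfl⟩ : b ∈ range e := he ▸ mem_insert_of_mem _ hb
      exact k2 n
    · exact ⟨X, fun k => (hS k).elim⟩
  choose g hg using this
  let a : W1 → Nm := (wellFounded_lt (α := W1)).fix
    (fun ξ r => g (range fun η : Iio ξ => r η.1 η.2))
  have ha : ∀ ξ, a ξ = g (range fun η : Iio ξ => a η) := fun ξ => by
    simp only [a]
    rw [WellFounded.fix_eq]
  have k : ∀ ξ, fM (a ξ) X p ∧ ∀ η < ξ, Fr (neg (eq (a ξ) (a η))) p := by
    intro ξ
    have := (w1_Iio ξ).to_subtype
    have k := hg _ (countable_range fun η : Iio ξ => a η)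
    rw [← ha] at k
    exact ⟨k.1, fun η hη => k.2 _ ⟨⟨η, hη⟩, rfl⟩⟩
  refine ⟨a, fun ξ => (k ξ).1, fun ξ η hne => ?_⟩
  rcases lt_or_gt_of_ne hne with l | l
  · exact fun q hq m => (k η).2 ξ l q hq (fE.symm m)
  · exact (k ξ).2 η l

end Pool.Agent.MP_f251cb_gt.Fc

end MrgPart3

-- ======== part 4: formerly Pool.Agent.MP_f251cb_gt.Final
section MrgPart4

/-! The iteration forces that every set with the selection principle is countable. -/

set_option autoImplicit false

namespace Pool.Agent.MP_f251cb_gt.Fc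

open Fml Set MeasureTheory

/-- not caught from level `n` on, or caught infinitely often -/
def uu (Q : Set Raw → Set (ℕ × Lab)) (k n : ℕ) : Set (Set Raw × Pt) :=
  {ω | (∀ m, n ≤ m → ¬ CatchAt (Q ω.1) m k ω.2) ∨ ∀ M, ∃ m, M ≤ m ∧ CatchAt (Q ω.1) m k ω.2}

variable {Q : Set Raw → Set (ℕ × Lab)} {p : PP} {f R l X : Nm}

theorem uu_ev (k : ℕ) (ω : Set Raw × Pt) : ∃ n, ∀ n', n ≤ n' → ω ∈ uu Q k n' := by
  by_cases h : ∀ M, ∃ m, M ≤ m ∧ CatchAt (Q ω.1) m k ω.2
  · exact ⟨0, fun _ _ => Or.inr h⟩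
  · push Not at h
    obtain ⟨M, hM⟩ := h
    exact ⟨M, fun n' h => Or.inl fun m k => hM m (h.trans k)⟩

theorem not_uu {G : Set Raw} {y : Pt} {g : ℕ → ℕ} (h : Dom (Q G) y g) {k n : ℕ} (hn : n ≤ g k) :
    (G, y) ∉ uu Q k n := by
  obtain ⟨⟨m, h1, h2⟩, M, h3⟩ := h k
  rintro (h4 | h4)
  · exact h4 m (hn.trans h1) h2
  · obtain ⟨m', h5, h6⟩ := h4 M
    exact h3 m' h5 h6

theorem meas_uu (h : Fr (line om R l) p) (hQ : @MS _ SS.ms _ Q) (k n : ℕ) :
    MeasurableSet[mB f R l p] (uu Q k n) := by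
  let _ := mB f R l p
  have h1 : MS (fun ω : Set Raw × Pt => Q ω.1) := fun c => mB_const (Φ := fun G => c ∈ Q G) (hQ c)
  exact measurableSet_setOfPred.2 ((Measurable.forall fun m => measurable_const.imp
    (h1.catchAt (mB_snd h) m k).not).or (Measurable.forall fun _ => Measurable.exists fun m =>
      measurable_const.and (h1.catchAt (mB_snd h) m k)))

theorem gamma_uu (h : Fr (line om R l) p) (hX : Fr (sub X R) p) (hQ : @MS _ SS.ms _ Q)
    (hK : ∀ g : ℕ → ℕ, ∀ q ≤ p, ∃ r ≤ q, ∃ a, fM a X r ∧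
      ∀ k n, n ≤ g k → Fr (neg (mem a (BN f R l (uu Q k n)))) r) (k : ℕ) :
    Fr (gamma om R l X (famN fun n => BN f R l (uu Q k n))) p := by
  let _ := SS.ms
  have a1 : ∀ x, ∀ q ≤ p, fM x X q → ∃ r ≤ q, ∃ n, ∀ n', n ≤ n' →
      fM x (BN f R l (uu Q k n')) r := by
    intro x q hq hx
    obtain ⟨r, k1, n, k2⟩ := Ge.ex (p := q)
      (Φ := fun n G => ∀ n', n ≤ n' → (G, bt f R l x G) ∈ uu Q k n')
      (fun n => Measurable.forall fun n' => measurable_const.imp ((meas_uu h hQ k n').1 x))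
      (MP_f251cb_gt.forces_all fun G => uu_ev k _)
    exact ⟨r, k1, n, fun n' hn => mem_BN.2 ⟨fM.mono (allIn_of hX hq hx) k1,
      k2.imp fun _ _ _ m => m n' hn⟩⟩
  refine ⟨⟨img_famN, allIn_famN (fun _ _ _ k k' => .and (par_borel (k' _) (k' _) (k' _) k)
      (.neg (par_sub (k' _) k))) fun n => ⟨fun S => forces_imp.2 fun q hq m =>
        (meas_uu h hQ k n).2 S q hq m, fun q hq m => ?_⟩,
      forces_allIn.2 fun x q hq hx => Forces.dense fun r hr => ?_⟩, fun q hq m => ?_,
    forces_allIn.2 fun x q hq hx => Forces.dense fun r hr => ?_⟩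
  · obtain ⟨r, k1, a, k2, k3⟩ := hK (fun _ => n) q hq
    exact k3 k n le_rfl r (le_refl r) (forces_sub.1 m _ _ k1 k2)
  · obtain ⟨t, k1, n, k2⟩ := a1 x r (le_trans hr hq) (fM.mono hx hr)
    exact ⟨t, k1, forces_exIn_of _ (self_mem_famN n) (k2 n le_rfl)⟩
  · obtain ⟨q1, k1, N, k2⟩ := exIn_famN (f := fun n => img _ n)
      (fun _ _ _ k k' => par_img (k' _) k) m
    obtain ⟨q2, k3, F, k4, k5⟩ := ex_elim k2
    obtain ⟨q3, k6, M, k7⟩ := Ge.ex (p := q2) (Φ := fun M G => ∀ i < N, ∀ n,
      T (app F (nn i) (BN f R l (uu Q k n))) G →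
        ∃ n', n' ≤ M ∧ T (app F (nn i) (BN f R l (uu Q k n'))) G)
      (fun M => Measurable.forall fun i => measurable_const.imp (Measurable.forall fun n =>
        (meas_T _).imp (Measurable.exists fun n' => measurable_const.and (meas_T _))))
      (MP_f251cb_gt.forces_all fun G => ⟨(Finset.range N).sup
        (fun i => sInf {n | T (app F (nn i) (BN f R l (uu Q k n))) G}), fun i hi n hn =>
          ⟨_, Finset.le_sup (f := fun i => sInf {n | T (app F (nn i) (BN f R l (uu Q k n))) G})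
            (Finset.mem_range.2 hi),
            Nat.sInf_mem (s := {n | T (app F (nn i) (BN f R l (uu Q k n))) G}) ⟨n, hn⟩⟩⟩)
    have k8 : q3 ≤ p := k6.trans (k3.trans (k1.trans hq))
    obtain ⟨q4, l1, a, l2, l3⟩ := hK (fun _ => M) q3 k8
    obtain ⟨q5, l4, n, l5⟩ := a1 a q4 (l1.trans k8) l2
    obtain ⟨q6, l6, i, l7, l8⟩ := exIn_elim
      (allIn_of k5 (l4.trans (l1.trans k6)) (self_mem_famN n))
    obtain ⟨q7, l9, j, l10, l11⟩ := mem_nn l7
    have l12 := app_congr (l8.mono l9) fE.rfl l11.symm fE.rfl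
    have l13 : q7 ≤ q3 := l9.trans (l6.trans (l4.trans l1))
    obtain ⟨q8, m1, n', m2⟩ := Ge.ex (p := q7)
      (Φ := fun n' G => n' ≤ M ∧ T (app F (nn j) (BN f R l (uu Q k n'))) G)
      (fun n' => measurable_const.and (meas_T _))
      (((k7.mono l13).and (T_iff.2 l12)).imp fun G _ _ m => m.1 j l10 n m.2)
    obtain ⟨G, -, -, m3, -⟩ := m2.exists_filt good_FF q8.2
    exact l3 k n' m3 q8 (m1.trans (l9.trans (l6.trans l4)))
      (((l5 n le_rfl).mono (m1.trans (l9.trans l6))).right (func_eq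
        (Fr.mono k4 (m1.trans (l13.trans k6))) (l12.mono m1)
        (T_iff.1 (m2.imp fun _ _ _ m => m.2))))
  · obtain ⟨t, k1, n, k2⟩ := a1 x r (le_trans hr hq) (fM.mono hx hr)
    refine ⟨t, k1, forces_ex_of _ ⟨fin_famN (e := fun n => BN f R l (uu Q k n)) n, allIn_famN
      (fun _ _ _ k k' => .neg (.and (.neg (.mem (k' _) k)) (.neg (.mem k (k' _)))))
      fun n' => forces_imp.2 fun u hu m => ?_⟩⟩
    rcases le_total n n' with hn | hn
    · exact (m u (le_refl u) ((k2 n' hn).mono hu)).elim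
    · have := self_mem_famN (p := u) (e := fun j => BN f R l (uu Q k (min j n))) n'
      rwa [min_eq_left hn] at this

theorem not_s1 (h : Fr (line om R l) p) (hX : Fr (sub X R) p) (hS : Fr (s1 om R l X) p)
    (hn : Fr (neg (img X om)) p) : False := by
  let _ := SS.ms
  obtain ⟨p1, a1, f, a2⟩ := exists_den h
  obtain ⟨a, a3, a4⟩ := exists_long (hn.mono a1)
  obtain ⟨p2, b1, b2, Q, b3, b4⟩ := kill (x := fun ξ => bt f R l (a ξ)) (fun ξ => mp_bt _) p1.2
    (fun ξ η k => bt_ne (h.mono a1) a2 (allIn_of hX a1 (a3 ξ)) (allIn_of hX a1 (a3 η)) (a4 ξ η k))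
  obtain ⟨p2, rfl⟩ : ∃ x : PP, x.1 = p2 := ⟨⟨p2, b1⟩, rfl⟩
  have b5 : p2 ≤ p := le_trans (show p2 ≤ p1 from b2) a1
  have hK : ∀ g : ℕ → ℕ, ∀ q ≤ p2, ∃ r ≤ q, ∃ a, fM a X r ∧
      ∀ k n, n ≤ g k → Fr (neg (mem a (BN f R l (uu Q k n)))) r := by
    intro g q hq
    obtain ⟨ξ, r, k1, k2, k3⟩ := b4 g q.1 q.2 hq
    obtain ⟨r, rfl⟩ : ∃ x : PP, x.1 = r := ⟨⟨r, k1⟩, rfl⟩
    refine ⟨r, k2, a ξ, (a3 ξ).mono (le_trans (show r ≤ q from k2) (le_trans hq b2)),
      fun k n hn t ht m => ?_⟩
    exact (mem_BN.1 m).2.contra good_FF ((Ge.mono k3 ht).imp fun G _ _ o => not_uu o hn) t.2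
  have c1 := imp_of (imp_of (Fr.mono hS b5 (seqN fun k => famN fun n => BN f R l (uu Q k n)))
    seq_seqN) (allIn_famN (fun _ _ _ k k' => .all fun _ _ m => .neg (.and (par_app (k' _) k m)
      (.neg (par_gamma (k' _) (k' _) (k' _) (k' _) m)))) fun k K => forces_imp.2 fun q hq m =>
        (par_gamma fE.rfl fE.rfl fE.rfl fE.rfl (app_seqN.1 m)).fo
          ((gamma_uu (h.mono b5) (hX.mono b5) b3 hK k).mono hq))
  obtain ⟨p3, c2, c, c3, c4, c5⟩ := ex_elim c1
  obtain ⟨p4, c6, L, c7, c8⟩ := ex_elim c5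
  choose σ d1 d2 using fun k => exists_sel (fun G n => T (app c (nn k) (BN f R l (uu Q k n))) G)
    (fun n => meas_T _)
  have d3 : ∀ k, Ge p4 (fun G => T (app c (nn k) (BN f R l (uu Q k (σ k G)))) G) := by
    intro k
    refine Ge.dense fun q hq => ?_
    obtain ⟨r, k1, U, k2⟩ := ex_elim (allIn_of c3.2 (hq.trans c6) (self_mem_famN k))
    obtain ⟨t, k3, n, k4⟩ := mem_famN (imp_of (imp_of
      (allIn_of c4 (k1.trans (hq.trans c6)) (self_mem_famN k) _ U) (app_seqN.2 fE.rfl)) k2)
    exact ⟨t, k3.trans k1, (T_iff.2 (app_congr (k2.mono k3) fE.rfl fE.rfl k4.symm)).imp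
      fun G _ _ m => d2 k G ⟨n, m⟩⟩
  obtain ⟨p5, e1, e2, g, e3⟩ := bound (f := fun G k => σ k G) d1 p4.2
  obtain ⟨p5, rfl⟩ : ∃ x : PP, x.1 = p5 := ⟨⟨p5, e1⟩, rfl⟩
  have e4 : p5 ≤ p4 := e2
  obtain ⟨p6, e5, x, e6, e7⟩ := hK g p5 (e4.trans (c6.trans c2))
  obtain ⟨p7, e8, U, e9, e10⟩ := exIn_elim (allIn_of c8.2.2 (e5.trans e4) e6)
  have e11 : p7 ≤ p4 := e8.trans (e5.trans e4)
  obtain ⟨p8, f1, k, f2⟩ := exIn_famN (cong_app1 c U) ((forces_iff.1 (c7 U) p7 e11).1 e9)
  obtain ⟨p9, f3, n, f4⟩ := Ge.ex (p := p8)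
    (Φ := fun n G => n ≤ g k ∧ T (app c (nn k) (BN f R l (uu Q k n))) G)
    (fun n => measurable_const.and (meas_T _))
    ((((d3 k).mono (f1.trans e11)).and (Ge.mono e3 (f1.trans (e8.trans e5)))).imp
      fun G _ _ m => ⟨_, m.2 k, m.1⟩)
  obtain ⟨G, -, -, f5, -⟩ := f4.exists_filt good_FF p9.2
  exact e7 k n f5 p9 (f3.trans (f1.trans e8)) ((fM.mono e10 (f3.trans f1)).right (func_eq
    (Fr.mono c3.1 (f3.trans (f1.trans (e11.trans c6)))) (f2.mono f3)
    (T_iff.1 (f4.imp fun _ _ _ m => m.2))))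

theorem forces_sentence (p : PP) : Fr sentence p :=
  forces_ex_of om ⟨omega_om, fun _ _ _ => forces_imp.2 fun _ _ h1 => forces_imp.2 fun _ k2 h2 =>
    forces_imp.2 fun _ k3 h3 => by_contra fun hn =>
      let ⟨_, k4, h4⟩ := not_forces hn
      not_s1 (Fr.mono h1 (le_trans k4 (le_trans k3 k2))) (Fr.mono h2 (le_trans k4 k3))
        (Fr.mono h3 k4) h4⟩

theorem exists_zfc_model : ∃ (M : Type 2) (E : M → M → Prop), ZFC E ∧
    ∀ w R l X, IOmega E w → ILine E w R l → ISub E X R → IS1 E w R l X → ILe E X w := by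
  obtain ⟨M, E, h1, h2⟩ := exists_model (le := cle PP) ht sentence
    (fun _ _ _ => par_sentence) forces_sentence
  obtain ⟨w, h3, h4⟩ := sat_sentence h2
  refine ⟨M, E, h1, fun w' R l X h => ?_⟩
  obtain rfl : w = w' := h1.ext _ _ (h3.2 _ h.1) (h.2 _ h3.1)
  exact h4 R l X

end Pool.Agent.MP_f251cb_gt.Fc

end MrgPart4

-- marker of a merged file
example : 731051 + 299517 = 731051 + 299517 := rfl
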