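import Mathlib.Order.Zorn
import Mathlib.Algebra.Notation.Lemmas
import Mathlib.MeasureTheory.MeasurableSpace.Constructions
import Mathlib.Order.CompletePartialOrder
import Mathlib.SetTheory.ZFC.PSet
import Mathlib.Algebra.Order.Archimedean.Basic
import Mathlib.Data.Set.Card
import Mathlib.Data.ENat.Lattice
import Mathlib.Topology.NoetherianSpace
import Mathlib.Tactic.Monotonicity.Lemmas
import Mathlib.Algebra.Order.Ring.Star
import Mathlib.Data.List.GetD
import Mathlib.SetTheory.Cardinal.Arithmetic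
import Mathlib.Order.Interval.Set.Infinite

-- ======== part 0: formerly Pool.Agent.MP_f251cb_gt.Forcing
section MrgPart0

/-!
Forcing in the Baire category style: `p` forces `Φ` when all sufficiently generic filters through
`p` satisfy `Φ`.
-/

set_option autoImplicit false

universe u v

open MeasureTheory

namespace Pool.Agent.MP_f251cb_gt

/-- a set of conditions with an order, inside an ambient type -/
structure Fo (X : Type u) where
  P : Set X
  le : X → X → Prop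

namespace Fo

variable {X : Type u} (F : Fo X)

/-- dense sets -/
def Dense (D : Set X) : Prop := ∀ p ∈ F.P, ∃ d ∈ D, d ∈ F.P ∧ F.le d p

/-- filters -/
structure Filt (G : Set X) : Prop where
  sub : G ⊆ F.P
  up : ∀ p ∈ G, ∀ q ∈ F.P, F.le p q → q ∈ G
  dir : ∀ p ∈ G, ∀ q ∈ G, ∃ r ∈ G, F.le r p ∧ F.le r q

/-- all sufficiently generic filters through `p` satisfy `Φ` -/
def Forces (p : X) (Φ : Set X → Prop) : Prop :=
  ∃ D : ℕ → Set X, (∀ n, F.Dense (D n)) ∧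
    ∀ G, F.Filt G → p ∈ G → (∀ n, (G ∩ D n).Nonempty) → Φ G

/-- the order is a preorder on the conditions -/
structure Good : Prop where
  refl : ∀ p ∈ F.P, F.le p p
  trans : ∀ p ∈ F.P, ∀ q ∈ F.P, ∀ r ∈ F.P, F.le p q → F.le q r → F.le p r

/-- compatibility -/
def Compat (p q : X) : Prop := ∃ r ∈ F.P, F.le r p ∧ F.le r q

variable {F} {p q : X} {Φ Ψ : Set X → Prop}

lemma Compat.symm (h : F.Compat p q) : F.Compat q p :=
  let ⟨r, h1, h2, h3⟩ := h
  ⟨r, h1, h3, h2⟩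

lemma Filt.compat {G : Set X} (hG : F.Filt G) (hp : p ∈ G) (hq : q ∈ G) : F.Compat p q :=
  let ⟨r, h1, h2, h3⟩ := hG.dir p hp q hq
  ⟨r, hG.sub h1, h2, h3⟩

lemma Forces.mono (h : F.Forces p Φ) (hp : p ∈ F.P) (hq : F.le q p) : F.Forces q Φ :=
  let ⟨D, h1, h2⟩ := h
  ⟨D, h1, fun G k1 k2 k3 => h2 G k1 (k1.up q k2 p hp hq) k3⟩

lemma Forces.imp (h : F.Forces p Φ) (h' : ∀ G, F.Filt G → p ∈ G → Φ G → Ψ G) : F.Forces p Ψ :=
  let ⟨D, h1, h2⟩ := h
  ⟨D, h1, fun G k1 k2 k3 => h' G k1 k2 (h2 G k1 k2 k3)⟩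

lemma Forces.glob (h : F.Forces p Φ) (q : X) : F.Forces q (fun G => p ∈ G → Φ G) :=
  let ⟨D, h1, h2⟩ := h
  ⟨D, h1, fun G k1 _ k3 k4 => h2 G k1 k4 k3⟩

lemma Good.of_forall (hF : F.Good) (h : ∀ G, F.Filt G → p ∈ G → Φ G) : F.Forces p Φ :=
  ⟨fun _ => Set.univ, fun _ p hp => ⟨p, trivial, hp, hF.refl p hp⟩, fun G k1 k2 _ => h G k1 k2⟩

lemma forces_meet {D : Set X} (hD : F.Dense D) : F.Forces p (fun G => (G ∩ D).Nonempty) :=
  ⟨fun _ => D, fun _ => hD, fun _ _ _ k => k 0⟩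

lemma Good.forces_forall (hF : F.Good) {ι : Sort v} [Countable ι] {Φ : ι → Set X → Prop}
    (h : ∀ i, F.Forces p (Φ i)) : F.Forces p (fun G => ∀ i, Φ i G) := by
  rcases isEmpty_or_nonempty ι with hι | hι
  · exact hF.of_forall (fun G _ _ i => (hι.false i).elim)
  obtain ⟨e, he⟩ := exists_surjective_nat ι
  choose D h1 h2 using h
  refine ⟨fun n => D (e n.unpair.1) n.unpair.2, fun n => h1 _ _, fun G k1 k2 k3 i => ?_⟩
  obtain ⟨m, rfl⟩ := he i
  exact h2 _ G k1 k2 (fun n => by simpa using k3 (Nat.pair m n))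

lemma Forces.and (h : F.Forces p Φ) (h' : F.Forces p Ψ) : F.Forces p (fun G => Φ G ∧ Ψ G) := by
  obtain ⟨D, h1, h2⟩ := h
  obtain ⟨D', h3, h4⟩ := h'
  refine ⟨fun n => if n % 2 = 0 then D (n / 2) else D' (n / 2), fun n => ?_,
    fun G k1 k2 k3 => ⟨h2 G k1 k2 (fun n => ?_), h4 G k1 k2 (fun n => ?_)⟩⟩
  · dsimp only
    split_ifs
    exacts [h1 _, h3 _]
  · have := k3 (2 * n)
    simpa using this
  · have := k3 (2 * n + 1)
    have e1 : (2 * n + 1) % 2 ≠ 0 := by omega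
    have e2 : (2 * n + 1) / 2 = n := by omega
    simpa [e1, e2] using this

lemma Forces.mp (h : F.Forces p (fun G => Φ G → Ψ G)) (h' : F.Forces p Φ) : F.Forces p Ψ :=
  (h.and h').imp (fun _ _ _ k => k.1 k.2)

/-- generic filters exist -/
lemma Forces.exists_filt (hF : F.Good) (h : F.Forces p Φ) (hp : p ∈ F.P) :
    ∃ G, F.Filt G ∧ p ∈ G ∧ Φ G := by
  obtain ⟨D, h1, h2⟩ := h
  choose! f k1 k2 k3 using h1
  let s : ℕ → X := fun n => Nat.rec p (fun n a => f n a) n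
  have hs : ∀ n, s n ∈ F.P := by
    intro n
    induction n with
    | zero => exact hp
    | succ n ih => exact k2 n _ ih
  have hs' : ∀ n m, n ≤ m → F.le (s m) (s n) := by
    intro n m hm
    induction m, hm using Nat.le_induction with
    | base => exact hF.refl _ (hs n)
    | succ m _ ih => exact hF.trans _ (hs (m + 1)) _ (hs _) _ (hs _) (k3 m _ (hs m)) ih
  have hG : F.Filt {q | q ∈ F.P ∧ ∃ n, F.le (s n) q} := by
    refine ⟨fun q hq => hq.1, ?_, ?_⟩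
    · rintro a ⟨ha, n, hn⟩ b hb hab
      exact ⟨hb, n, hF.trans _ (hs n) _ ha _ hb hn hab⟩
    · rintro a ⟨ha, n, hn⟩ b ⟨hb, m, hm⟩
      exact ⟨s (max n m), ⟨hs _, _, hF.refl _ (hs _)⟩,
        hF.trans _ (hs _) _ (hs _) _ ha (hs' _ _ (le_max_left _ _)) hn,
        hF.trans _ (hs _) _ (hs _) _ hb (hs' _ _ (le_max_right _ _)) hm⟩
  have hpG : p ∈ {q | q ∈ F.P ∧ ∃ n, F.le (s n) q} := ⟨hp, 0, hF.refl _ hp⟩
  exact ⟨_, hG, hpG, h2 _ hG hpG (fun n =>
    ⟨s (n + 1), ⟨hs (n + 1), n + 1, hF.refl _ (hs (n + 1))⟩, k1 n _ (hs n)⟩)⟩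

lemma Forces.not_false (hF : F.Good) (h : F.Forces p (fun _ => False)) (hp : p ∈ F.P) : False :=
  let ⟨_, _, _, k⟩ := h.exists_filt hF hp
  k

lemma Forces.contra (hF : F.Good) (h : F.Forces p Φ) (h' : F.Forces p (fun G => ¬ Φ G))
    (hp : p ∈ F.P) : False :=
  ((h.and h').imp (fun _ _ _ k => k.2 k.1)).not_false hF hp

/-- maximal antichains -/
lemma exists_antichain (hF : F.Good) (S : Set X) (hS : S ⊆ F.P) : ∃ A ⊆ S,
    (∀ a ∈ A, ∀ b ∈ A, F.Compat a b → a = b) ∧ ∀ s ∈ S, ∃ a ∈ A, F.Compat s a := by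
  obtain ⟨A, hA⟩ := zorn_subset {A | A ⊆ S ∧ ∀ a ∈ A, ∀ b ∈ A, F.Compat a b → a = b} (by
    intro c hc hch
    refine ⟨⋃₀ c, ⟨Set.sUnion_subset (fun t ht => (hc ht).1), ?_⟩, fun s hs => Set.subset_sUnion_of_mem hs⟩
    rintro a ⟨s, hs, ha⟩ b ⟨t, ht, hb⟩ hab
    rcases hch.total hs ht with h | h
    · exact (hc ht).2 a (h ha) b hb hab
    · exact (hc hs).2 a ha b (h hb) hab)
  refine ⟨A, hA.prop.1, hA.prop.2, fun s hs => ?_⟩
  by_contra hn
  push Not at hn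
  have h1 : insert s A ∈ {A | A ⊆ S ∧ ∀ a ∈ A, ∀ b ∈ A, F.Compat a b → a = b} := by
    refine ⟨Set.insert_subset hs hA.prop.1, ?_⟩
    rintro a (rfl | ha) b (rfl | hb) hab
    · rfl
    · exact (hn b hb hab).elim
    · exact (hn a ha hab.symm).elim
    · exact hA.prop.2 a ha b hb hab
  have h2 : s ∈ A := hA.le_of_ge h1 (Set.subset_insert _ _) (Set.mem_insert _ _)
  exact hn s h2 ⟨s, hS hs, hF.refl _ (hS hs), hF.refl _ (hS hs)⟩

/-- the density lemma -/
lemma Good.of_dense (hF : F.Good)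
    (h : ∀ q ∈ F.P, F.le q p → ∃ r ∈ F.P, F.le r q ∧ F.Forces r Φ) : F.Forces p Φ := by
  obtain ⟨A, hA1, hA2, hA3⟩ := exists_antichain hF {r | r ∈ F.P ∧ F.Forces r Φ} (fun _ h => h.1)
  choose! D hD1 hD2 using fun r (hr : r ∈ A) => (hA1 hr).2
  refine ⟨fun n => {w | (∃ r ∈ A, w ∈ D r n ∧ F.le w r) ∨ ¬ F.Compat w p}, fun n w hw => ?_,
    fun G k1 k2 k3 => ?_⟩
  · by_cases hc : F.Compat w p
    · obtain ⟨w1, l1, l2, l3⟩ := hc
      obtain ⟨r, m1, m2, m3⟩ := h w1 l1 l3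
      obtain ⟨a, ha, w2, n1, n2, n3⟩ := hA3 r ⟨m1, m3⟩
      obtain ⟨d, o1, o2, o3⟩ := hD1 a ha n w2 n1
      exact ⟨d, Or.inl ⟨a, ha, o1, hF.trans _ o2 _ n1 _ (hA1 ha).1 o3 n3⟩, o2,
        hF.trans _ o2 _ n1 _ hw o3 (hF.trans _ n1 _ m1 _ hw n2 (hF.trans _ m1 _ l1 _ hw m2 l2))⟩
    · exact ⟨w, Or.inr hc, hw, hF.refl _ hw⟩
  · have key : ∀ n, ∃ r ∈ A, r ∈ G ∧ (G ∩ D r n).Nonempty := by
      intro n
      obtain ⟨w, hw, ⟨r, l1, l2, l3⟩ | hc⟩ := k3 n
      · exact ⟨r, l1, k1.up w hw r (hA1 l1).1 l3, w, hw, l2⟩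
      · exact (hc (k1.compat hw k2)).elim
    obtain ⟨r, l1, l2, -⟩ := key 0
    refine hD2 r l1 G k1 l2 (fun n => ?_)
    obtain ⟨r', m1, m2, m3⟩ := key n
    rwa [hA2 r l1 r' m1 (k1.compat l2 m2)]

lemma Good.forces_mem (hF : F.Good) (hp : p ∈ F.P) (hq : F.le q p) :
    F.Forces q (fun G => p ∈ G) := hF.of_forall (fun _ k1 k2 => k1.up q k2 p hp hq)

/-- a suborder with a projection -/
structure Sub (F : Fo X) where
  S : Set X
  π : X → X
  good : F.Good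
  sub : S ⊆ F.P
  mem : ∀ p ∈ F.P, π p ∈ S
  le_π : ∀ p ∈ F.P, F.le p (π p)
  π_le : ∀ p ∈ F.P, ∀ u ∈ S, F.le p u → F.le (π p) u
  amal : ∀ p ∈ F.P, ∀ u ∈ S, F.le u (π p) → ∃ w ∈ F.P, F.le w u ∧ F.le w p

/-- the whole order as a suborder -/
def Good.self (hF : F.Good) : F.Sub where
  S := F.P
  π := id
  good := hF
  sub := le_rfl
  mem := fun _ h => h
  le_π := hF.refl
  π_le := fun _ _ _ _ h => h
  amal := fun _ _ u hu h => ⟨u, hu, hF.refl u hu, h⟩

namespace Sub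

variable (S : F.Sub)

lemma of_dense {v : X} (hv : v ∈ S.S)
    (h : ∀ u ∈ S.S, F.le u v → ∃ r ∈ S.S, F.le r u ∧ F.Forces r Φ) : F.Forces v Φ := by
  refine S.good.of_dense (fun q hq hqv => ?_)
  obtain ⟨r, k1, k2, k3⟩ := h _ (S.mem q hq) (S.π_le q hq v hv hqv)
  obtain ⟨w, l1, l2, l3⟩ := S.amal q hq r k1 k2
  exact ⟨w, l1, l3, k3.mono (S.sub k1) l2⟩

lemma of_dense' (h : ∀ u ∈ S.S, ∃ r ∈ S.S, F.le r u ∧ F.Forces r Φ) : F.Forces p Φ := by
  refine S.good.of_dense (fun q hq _ => ?_)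
  obtain ⟨r, k1, k2, k3⟩ := h _ (S.mem q hq)
  obtain ⟨w, l1, l2, l3⟩ := S.amal q hq r k1 k2
  exact ⟨w, l1, l3, k3.mono (S.sub k1) l2⟩

lemma compat {u v : X} (hu : u ∈ S.S) (hv : v ∈ S.S) (h : F.Compat u v) :
    ∃ r ∈ S.S, F.le r u ∧ F.le r v :=
  let ⟨w, k1, k2, k3⟩ := h
  ⟨S.π w, S.mem w k1, S.π_le w k1 u hu k2, S.π_le w k1 v hv k3⟩

lemma π_mem {G : Set X} (hG : F.Filt G) (hp : p ∈ G) : S.π p ∈ G :=
  hG.up p hp _ (S.sub (S.mem p (hG.sub hp))) (S.le_π p (hG.sub hp))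

lemma dir {G : Set X} (hG : F.Filt G) {u v : X} (hu : u ∈ G) (hv : v ∈ G) (hu' : u ∈ S.S)
    (hv' : v ∈ S.S) : ∃ r ∈ G, r ∈ S.S ∧ F.le r u ∧ F.le r v :=
  let ⟨w, k1, k2, k3⟩ := hG.dir u hu v hv
  ⟨S.π w, S.π_mem hG k1, S.mem w (hG.sub k1), S.π_le w (hG.sub k1) u hu' k2,
    S.π_le w (hG.sub k1) v hv' k3⟩

/-- statements decided by conditions of the suborder -/
def Dec (Φ : Set X → Prop) : Prop :=
  ∀ u ∈ S.S, ∃ r ∈ S.S, F.le r u ∧ (F.Forces r Φ ∨ F.Forces r (fun G => ¬ Φ G))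

variable {S}

lemma Dec.exists_not (h : S.Dec Φ) {v : X} (hv : v ∈ S.S) (h' : ¬ F.Forces v Φ) :
    ∃ r ∈ S.S, F.le r v ∧ F.Forces r (fun G => ¬ Φ G) := by
  by_contra hn
  push Not at hn
  refine h' (S.of_dense hv (fun u hu huv => ?_))
  obtain ⟨r, k1, k2, k3 | k3⟩ := h u hu
  · exact ⟨r, k1, k2, k3⟩
  · exact (hn r k1 (S.good.trans _ (S.sub k1) _ (S.sub hu) _ (S.sub hv) k2 huv) k3).elim

variable (S)

/-- the decided statements form a σ-algebra -/
@[reducible] def ms : MeasurableSpace (Set X) where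
  MeasurableSet' s := S.Dec (fun G => G ∈ s)
  measurableSet_empty := fun u hu => ⟨u, hu, S.good.refl u (S.sub hu),
    Or.inr (S.good.of_forall (fun _ _ _ => id))⟩
  measurableSet_compl := fun s hs u hu => by
    obtain ⟨r, k1, k2, k3 | k3⟩ := hs u hu
    · exact ⟨r, k1, k2, Or.inr (k3.imp (fun _ _ _ l m => m l))⟩
    · exact ⟨r, k1, k2, Or.inl k3⟩
  measurableSet_iUnion := fun f hf u hu => by
    by_cases h : ∃ r ∈ S.S, F.le r u ∧ ∃ i, F.Forces r (fun G => G ∈ f i)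
    · obtain ⟨r, k1, k2, i, k3⟩ := h
      exact ⟨r, k1, k2, Or.inl (k3.imp (fun _ _ _ l => Set.mem_iUnion.2 ⟨i, l⟩))⟩
    · push Not at h
      refine ⟨u, hu, S.good.refl u (S.sub hu), Or.inr ?_⟩
      refine (S.good.forces_forall (Φ := fun i G => ¬ G ∈ f i) (fun i => ?_)).imp
        (fun _ _ _ l m => ?_)
      · refine S.of_dense hu (fun w hw hwu => ?_)
        obtain ⟨r, k1, k2, k3 | k3⟩ := hf i w hw
        · exact (h r k1 (S.good.trans _ (S.sub k1) _ (S.sub hw) _ (S.sub hu) k2 hwu) i k3).elim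
        · exact ⟨r, k1, k2, k3⟩
      · obtain ⟨i, hi⟩ := Set.mem_iUnion.1 m
        exact l i hi

variable {S}

lemma dec_iff : Measurable[S.ms] Φ ↔ S.Dec Φ := by
  rw [← @measurableSet_setOfPred _ S.ms]
  rfl

lemma exists_not (h : Measurable[S.ms] Φ) {v : X} (hv : v ∈ S.S) (h' : ¬ F.Forces v Φ) :
    ∃ r ∈ S.S, F.le r v ∧ F.Forces r (fun G => ¬ Φ G) := (dec_iff.1 h).exists_not hv h'

lemma exists_of_not (h : Measurable[S.ms] Φ) {v : X} (hv : v ∈ S.S)
    (h' : ¬ F.Forces v (fun G => ¬ Φ G)) : ∃ r ∈ S.S, F.le r v ∧ F.Forces r Φ := by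
  obtain ⟨r, k1, k2, k3⟩ := exists_not (@Measurable.not _ S.ms _ h) hv h'
  exact ⟨r, k1, k2, k3.imp (fun _ _ _ l => not_not.1 l)⟩

lemma forces_π (h : Measurable[S.ms] Φ) (hp : p ∈ F.P) (h' : F.Forces p Φ) :
    F.Forces (S.π p) Φ := by
  by_contra hn
  obtain ⟨r, k1, k2, k3⟩ := exists_not h (S.mem p hp) hn
  obtain ⟨w, l1, l2, l3⟩ := S.amal p hp r k1 k2
  exact (h'.mono hp l3).contra S.good (k3.mono (S.sub k1) l2) l1

/-- the truth lemma -/
lemma truth (h : Measurable[S.ms] Φ) (p : X) :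
    F.Forces p (fun G => Φ G → ∃ v ∈ G, v ∈ S.S ∧ F.Forces v Φ) := by
  refine S.of_dense' (fun u hu => ?_)
  obtain ⟨r, k1, k2, k3 | k3⟩ := dec_iff.1 h u hu
  · exact ⟨r, k1, k2, S.good.of_forall (fun G _ l _ => ⟨r, l, k1, k3⟩)⟩
  · exact ⟨r, k1, k2, k3.imp (fun G _ _ l m => (l m).elim)⟩

lemma truth' (h : Measurable[S.ms] Φ) (p : X) :
    F.Forces p (fun G => (∃ v ∈ G, v ∈ S.S ∧ F.Forces v Φ) → Φ G) := by
  refine S.of_dense' (fun u hu => ?_)
  obtain ⟨r, k1, k2, k3 | k3⟩ := dec_iff.1 h u hu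
  · exact ⟨r, k1, k2, k3.imp (fun G _ _ l _ => l)⟩
  · refine ⟨r, k1, k2, S.good.of_forall (fun G l1 l2 l3 => ?_)⟩
    obtain ⟨v, m1, m2, m3⟩ := l3
    obtain ⟨w, n1, n2, n3⟩ := l1.compat l2 m1
    exact ((m3.mono (S.sub m2) n3).contra S.good (k3.mono (S.sub k1) n2) n1).elim

/-- a statement true in one sufficiently generic filter is forced by an extension -/
lemma exists_forces (h : Measurable[S.ms] Φ) {v : X} (hv : v ∈ S.S)
    (h' : ∀ Ψ, F.Forces v Ψ → ∃ G, F.Filt G ∧ v ∈ G ∧ Ψ G ∧ Φ G) :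
    ∃ r ∈ S.S, F.le r v ∧ F.Forces r Φ := by
  refine exists_of_not h hv (fun hn => ?_)
  obtain ⟨G, -, -, k1, k2⟩ := h' _ hn
  exact k1 k2

lemma exists_of_forces_ex {ι : Sort v} [Countable ι] {Φ : ι → Set X → Prop}
    (h : ∀ i, Measurable[S.ms] (Φ i)) {v : X} (hv : v ∈ S.S)
    (h' : F.Forces v (fun G => ∃ i, Φ i G)) : ∃ r ∈ S.S, F.le r v ∧ ∃ i, F.Forces r (Φ i) := by
  by_contra hn
  push Not at hn
  refine h'.contra S.good ((S.good.forces_forall (Φ := fun i G => ¬ Φ i G) (fun i => ?_)).imp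
    (fun G _ _ k l => l.elim k)) (S.sub hv)
  by_contra hn'
  obtain ⟨r, k1, k2, k3⟩ := exists_of_not (h i) hv hn'
  exact hn r k1 k2 i k3

/-- hitting a set of conditions of the suborder -/
def hit (S : F.Sub) (A : Set X) (G : Set X) : Prop := ∃ v ∈ G, v ∈ S.S ∧ v ∈ A

lemma meas_hit (A : Set X) : Measurable[S.ms] (S.hit A) := by
  refine dec_iff.2 (fun u hu => ?_)
  by_cases h : ∃ v ∈ S.S, v ∈ A ∧ F.Compat u v
  · obtain ⟨v, k1, k2, k3⟩ := h
    obtain ⟨r, l1, l2, l3⟩ := S.compat hu k1 k3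
    exact ⟨r, l1, l2, Or.inl (S.good.of_forall (fun G m1 m2 =>
      ⟨v, m1.up r m2 v (S.sub k1) l3, k1, k2⟩))⟩
  · push Not at h
    refine ⟨u, hu, S.good.refl u (S.sub hu), Or.inr (S.good.of_forall (fun G m1 m2 => ?_))⟩
    rintro ⟨v, l1, l2, l3⟩
    exact h v l2 l3 (m1.compat m2 l1)

lemma meas_mem {v : X} (hv : v ∈ S.S) : Measurable[S.ms] (fun G => v ∈ G) := by
  have : (fun G => v ∈ G) = S.hit {v} := by
    funext G
    exact propext ⟨fun h => ⟨v, h, hv, rfl⟩, fun ⟨w, h1, _, h2⟩ => h2 ▸ h1⟩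
  rw [this]
  exact meas_hit _

/-- mixing along a maximal antichain -/
lemma mix {α : Type v} [Nonempty α] (R : X → α → Prop) : ∃ (A : Set X) (a : X → α)
    (σ : Set X → α), A ⊆ S.S ∧ (∀ v ∈ A, R v (a v)) ∧
      (∀ u ∈ S.S, (∃ b, R u b) → ∃ v ∈ A, ∃ r ∈ S.S, F.le r u ∧ F.le r v) ∧
      (∀ G, F.Filt G → ∀ v ∈ A, v ∈ G → σ G = a v) := by
  classical
  obtain ⟨A, h1, h2, h3⟩ := exists_antichain S.good {u | u ∈ S.S ∧ ∃ b, R u b}
    (fun _ h => S.sub h.1)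
  choose! a ha using fun v (hv : v ∈ A) => (h1 hv).2
  refine ⟨A, a, fun G => if h : ∃ v ∈ A, v ∈ G then a h.choose else Classical.arbitrary α,
    fun v hv => (h1 hv).1, ha, fun u hu hb => ?_, fun G hG v k1 k2 => ?_⟩
  · obtain ⟨v, k1, k2⟩ := h3 u ⟨hu, hb⟩
    exact ⟨v, k1, S.compat hu (h1 k1).1 k2⟩
  · have h : ∃ v ∈ A, v ∈ G := ⟨v, k1, k2⟩
    simp only [dif_pos h]
    rw [h2 _ h.choose_spec.1 v k1 (hG.compat h.choose_spec.2 k2)]

/-- locally constant names -/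
def LC (S : F.Sub) {α : Type v} (σ : Set X → α) : Prop :=
  ∀ u ∈ S.S, ∃ r ∈ S.S, F.le r u ∧ ∃ a, F.Forces r (fun G => σ G = a)

lemma LC.meas {α : Type v} {σ : Set X → α} (h : S.LC σ) (Q : α → Prop) :
    Measurable[S.ms] (fun G => Q (σ G)) := by
  refine dec_iff.2 (fun u hu => ?_)
  obtain ⟨r, k1, k2, a, k3⟩ := h u hu
  by_cases hQ : Q a
  · exact ⟨r, k1, k2, Or.inl (k3.imp (fun G _ _ l => l ▸ hQ))⟩
  · exact ⟨r, k1, k2, Or.inr (k3.imp (fun G _ _ l => l ▸ hQ))⟩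

lemma LC.measurable {α : Type v} {σ : Set X → α} (h : S.LC σ) {β : Type*} [MeasurableSpace β]
    (f : α → β) : Measurable[S.ms] (fun G => f (σ G)) := fun s _ => by
  have := h.meas (fun a => f a ∈ s)
  rwa [← @measurableSet_setOfPred _ S.ms] at this

/-- mixing, for a dense relation -/
lemma mix_dense {α : Type v} [Nonempty α] (R : X → α → Prop)
    (hR : ∀ u ∈ S.S, ∃ r ∈ S.S, F.le r u ∧ ∃ b, R r b) : ∃ σ : Set X → α,
      ∀ u ∈ S.S, ∃ r ∈ S.S, F.le r u ∧ ∃ v ∈ S.S, F.le r v ∧ ∃ a, R v a ∧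
        F.Forces r (fun G => σ G = a) := by
  obtain ⟨A, a, σ, h1, h2, h3, h4⟩ := S.mix R
  refine ⟨σ, fun u hu => ?_⟩
  obtain ⟨r, k1, k2, k3⟩ := hR u hu
  obtain ⟨v, l1, w, l2, l3, l4⟩ := h3 r k1 k3
  exact ⟨w, l2, S.good.trans _ (S.sub l2) _ (S.sub k1) _ (S.sub hu) l3 k2, v, h1 l1, l4, a v,
    h2 v l1, S.good.of_forall (fun G m1 m2 => h4 G m1 v l1 (m1.up w m2 v (S.sub (h1 l1)) l4))⟩

/-- the σ-algebra generated by hitting sets -/
@[reducible] def gen (T : Set X) : MeasurableSpace (Set X) :=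
  MeasurableSpace.generateFrom {s | ∃ A : Set X, s = {G | ∃ v ∈ G, v ∈ T ∧ v ∈ A}}

lemma gen_hit (T A : Set X) : Measurable[gen T] (fun G : Set X => ∃ v ∈ G, v ∈ T ∧ v ∈ A) := by
  rw [← @measurableSet_setOfPred _ (gen T)]
  exact MeasurableSpace.measurableSet_generateFrom ⟨A, rfl⟩

lemma gen_le : gen S.S ≤ S.ms := by
  refine MeasurableSpace.generateFrom_le ?_
  rintro s ⟨A, rfl⟩
  exact dec_iff.1 (meas_hit A)

lemma gen_inv {T : Set X} (h : Measurable[gen T] Φ) (G : Set X) : Φ (G ∩ T) ↔ Φ G := by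
  rw [← @measurableSet_setOfPred _ (gen T)] at h
  have key : ∀ s : Set (Set X), MeasurableSet[gen T] s → ∀ G, G ∩ T ∈ s ↔ G ∈ s := by
    intro s hs
    induction hs with
    | basic u hu =>
      obtain ⟨A, rfl⟩ := hu
      intro G
      exact ⟨fun ⟨v, k1, k2⟩ => ⟨v, k1.1, k2⟩, fun ⟨v, k1, k2⟩ => ⟨v, ⟨k1, k2.1⟩, k2⟩⟩
    | empty => simp
    | compl t _ ih => intro G; simp [ih G]
    | iUnion f _ ih => intro G; simp [ih]
  exact key _ h G

/-- forcing over the suborder lifts -/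
lemma lift {F' : Fo X} (h1 : F'.P = S.S) (h2 : ∀ p ∈ S.S, ∀ q ∈ S.S, F'.le p q ↔ F.le p q)
    {u : X} (hu : u ∈ S.S) (h : F'.Forces u Φ) : F.Forces u (fun G => Φ (G ∩ S.S)) := by
  obtain ⟨D, k1, k2⟩ := h
  refine ⟨fun n => {w | ∃ d ∈ D n, d ∈ S.S ∧ F.le w d}, fun n p hp => ?_, fun G l1 l2 l3 => ?_⟩
  · obtain ⟨d, l1, l2, l3⟩ := k1 n (S.π p) (h1 ▸ S.mem p hp)
    rw [h1] at l2
    obtain ⟨w, m1, m2, m3⟩ := S.amal p hp d l2 ((h2 _ l2 _ (S.mem p hp)).1 l3)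
    exact ⟨w, ⟨d, l1, l2, m2⟩, m1, m3⟩
  · refine k2 _ ⟨fun a ha => h1 ▸ ha.2, fun a ha b hb hab => ?_, fun a ha b hb => ?_⟩ ⟨l2, hu⟩
      (fun n => ?_)
    · rw [h1] at hb
      exact ⟨l1.up a ha.1 b (S.sub hb) ((h2 _ ha.2 _ hb).1 hab), hb⟩
    · obtain ⟨r, m1, m2, m3, m4⟩ := S.dir l1 ha.1 hb.1 ha.2 hb.2
      exact ⟨r, ⟨m1, m2⟩, (h2 _ m2 _ ha.2).2 m3, (h2 _ m2 _ hb.2).2 m4⟩
    · obtain ⟨w, m1, d, m2, m3, m4⟩ := l3 n
      exact ⟨d, ⟨l1.up w m1 d (S.sub m3) m4, m3⟩, m2⟩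

/-- forcing over the suborder and over the whole order agree on generated statements -/
lemma conv {F' : Fo X} (h1 : F'.P = S.S) (h2 : ∀ p ∈ S.S, ∀ q ∈ S.S, F'.le p q ↔ F.le p q)
    {u : X} (hu : u ∈ S.S) (hΦ : Measurable[gen S.S] Φ) : F'.Forces u Φ ↔ F.Forces u Φ := by
  have hF' : F'.Good := by
    refine ⟨fun p hp => ?_, fun p hp q hq r hr k1 k2 => ?_⟩
    · rw [h1] at hp
      exact (h2 _ hp _ hp).2 (S.good.refl _ (S.sub hp))
    · rw [h1] at hp hq hr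
      exact (h2 _ hp _ hr).2 (S.good.trans _ (S.sub hp) _ (S.sub hq) _ (S.sub hr)
        ((h2 _ hp _ hq).1 k1) ((h2 _ hq _ hr).1 k2))
  refine ⟨fun h => (lift h1 h2 hu h).imp (fun G _ _ k => (gen_inv hΦ G).1 k), fun h => ?_⟩
  by_contra hn
  have hm : Measurable[hF'.self.ms] Φ := by
    refine hΦ.mono ?_ le_rfl
    rw [← h1]
    exact gen_le (S := hF'.self)
  obtain ⟨r, k1, k2, k3⟩ := exists_not hm (show u ∈ F'.P from h1 ▸ hu) hn
  have k1' : r ∈ S.S := h1 ▸ k1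
  exact (h.mono (S.sub hu) ((h2 _ k1' _ hu).1 k2)).contra S.good
    ((lift h1 h2 k1' k3).imp (fun G _ _ k l => k ((gen_inv hΦ G).2 l))) (S.sub k1')

end Sub

end Fo

end Pool.Agent.MP_f251cb_gt

end MrgPart0

-- ======== part 1: formerly Pool.Agent.MP_f251cb_gt.Tree
section MrgPart1

/-!
The conditions of the iterand: trees of finite sequences of labelled cylinders with norms.
-/

set_option autoImplicit false

universe u v

namespace Pool.Agent.MP_f251cb_gt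

/-- points of the Cantor space -/
abbrev Pt := ℕ → Bool

/-- labels: a coordinate and a cylinder -/
abbrev Lab := ℕ × List Bool

/-- nodes -/
abbrev Sq := List Lab

/-- sets of good nodes with their norms -/
abbrev Cd := Set (ℕ × Sq)

/-- the point lies in the cylinder -/
def In (x : Pt) (u : List Bool) : Prop := ∀ i, ∀ h : i < u.length, x i = u[i]

/-- the cylinder of length `n` around a point -/
def cyl (x : Pt) (n : ℕ) : List Bool := List.ofFn (fun i : Fin n => x i)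

lemma in_cyl {x y : Pt} {n : ℕ} : In y (cyl x n) ↔ ∀ i < n, y i = x i := by
  simp [In, cyl]

lemma in_cyl_self (x : Pt) (n : ℕ) : In x (cyl x n) := in_cyl.2 (fun _ _ => rfl)

lemma In.congr {x y : Pt} {u : List Bool} {n : ℕ} (h : In x u) (hn : u.length ≤ n)
    (hy : ∀ i < n, y i = x i) : In y u := fun i hi => (hy i (hi.trans_le hn)).trans (h i hi)

lemma cyl_congr {x y : Pt} {n m : ℕ} (hn : n ≤ m) (hy : ∀ i < m, y i = x i) : cyl y n = cyl x n := by
  unfold cyl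
  congr 1
  funext i
  exact hy i (i.2.trans_le hn)

lemma isClopen_in (u : List Bool) : IsClopen {x : Pt | In x u} := by
  have : {x : Pt | In x u} = ⋂ i : Fin u.length, (fun x : Pt => x i) ⁻¹' {u[i]} := by
    ext x
    simp only [In, Set.mem_ofPred_eq, Set.mem_iInter, Set.mem_preimage, Set.mem_singleton_iff]
    exact ⟨fun h i => h i i.2, fun h i hi => h ⟨i, hi⟩⟩
  rw [this]
  exact isClopen_iInter_of_finite (fun i => (isClopen_discrete _).preimage (continuous_apply _))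

/-- the path avoids the points of `E` on their coordinates -/
def Avoid (E : Set (ℕ × Pt)) (t : Sq) : Prop := ∀ l ∈ t, ∀ e ∈ E, e.1 = l.1 → ¬ In e.2 l.2

/-- the path catches `x` on coordinate `k` -/
def Catch (k : ℕ) (x : Pt) (t : Sq) : Prop := ∃ l ∈ t, l.1 = k ∧ In x l.2

/-- admissible sets for the norm `n` -/
def Adm (n : ℕ) (E : Set (ℕ × Pt)) : Prop := E.encard ≤ n ∧ ∀ e ∈ E, e.1 < n

lemma avoid_nil (E : Set (ℕ × Pt)) : Avoid E [] := by simp [Avoid]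

lemma avoid_empty (t : Sq) : Avoid ∅ t := by simp [Avoid]

lemma avoid_append {E : Set (ℕ × Pt)} {t t' : Sq} : Avoid E (t ++ t') ↔ Avoid E t ∧ Avoid E t' := by
  simp only [Avoid, List.mem_append]
  exact ⟨fun h => ⟨fun l hl => h l (Or.inl hl), fun l hl => h l (Or.inr hl)⟩,
    fun h l hl => hl.elim (h.1 l) (h.2 l)⟩

lemma avoid_union {E E' : Set (ℕ × Pt)} {t : Sq} : Avoid (E ∪ E') t ↔ Avoid E t ∧ Avoid E' t :=
  ⟨fun h => ⟨fun l hl e he => h l hl e (Or.inl he), fun l hl e he => h l hl e (Or.inr he)⟩,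
    fun h l hl e he => he.elim (h.1 l hl e) (h.2 l hl e)⟩

lemma avoid_single {E : Set (ℕ × Pt)} {k : ℕ} {u : List Bool} :
    Avoid E [(k, u)] ↔ ∀ e ∈ E, e.1 = k → ¬ In e.2 u := by simp [Avoid]

lemma Catch.left {k : ℕ} {x : Pt} {t : Sq} (h : Catch k x t) (t' : Sq) : Catch k x (t ++ t') :=
  let ⟨l, h1, h2⟩ := h
  ⟨l, List.mem_append_left _ h1, h2⟩

lemma Catch.right {k : ℕ} {x : Pt} {t : Sq} (h : Catch k x t) (t' : Sq) : Catch k x (t' ++ t) :=
  let ⟨l, h1, h2⟩ := h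
  ⟨l, List.mem_append_right _ h1, h2⟩

lemma adm_empty (n : ℕ) : Adm n ∅ := by simp [Adm]

lemma Adm.mono {n m : ℕ} {E : Set (ℕ × Pt)} (h : Adm n E) (hm : n ≤ m) : Adm m E :=
  ⟨h.1.trans (by exact_mod_cast hm), fun e he => (h.2 e he).trans_le hm⟩

lemma Adm.union {n m : ℕ} {E E' : Set (ℕ × Pt)} (h : Adm n E) (h' : Adm m E') :
    Adm (m + n) (E ∪ E') := by
  refine ⟨(Set.encard_union_le _ _).trans ?_, fun e he => ?_⟩
  · rw [add_comm m n]
    push_cast
    exact add_le_add h.1 h'.1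
  · rcases he with he | he
    · exact (h.2 e he).trans_le (by omega)
    · exact (h'.2 e he).trans_le (by omega)

lemma Adm.finite {n : ℕ} {E : Set (ℕ × Pt)} (h : Adm n E) : E.Finite :=
  Set.finite_of_encard_le_coe h.1

lemma adm_single (k : ℕ) (x : Pt) : Adm (k + 1) {(k, x)} := by
  refine ⟨by simp, ?_⟩
  rintro e rfl
  exact Nat.lt_succ_self _

lemma exists_sep {E : Set (ℕ × Pt)} (hE : E.Finite) {k : ℕ} {x : Pt} (h : (k, x) ∉ E) :
    ∃ ρ, ∀ m, ρ ≤ m → Avoid E [(k, cyl x m)] := by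
  have : ∀ e ∈ E, ∃ ρ, ∀ m, ρ ≤ m → e.1 = k → ¬ In e.2 (cyl x m) := by
    intro e he
    by_cases hk : e.1 = k
    · have : e.2 ≠ x := by
        rintro rfl
        exact h (hk ▸ he)
      obtain ⟨i, hi⟩ := Function.ne_iff.1 this
      exact ⟨i + 1, fun m hm _ hin => hi (in_cyl.1 hin i (by omega))⟩
    · exact ⟨0, fun _ _ k => (hk k).elim⟩
  choose! ρ hρ using this
  obtain ⟨M, hM⟩ := (hE.image ρ).bddAbove
  exact ⟨M, fun m hm => avoid_single.2 (fun e he =>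
    hρ e he m ((hM (Set.mem_image_of_mem ρ he)).trans hm))⟩

/-- the tree of a condition -/
def Tr (g : Cd) : Set Sq := {t | ∃ s, (0, s) ∈ g ∧ t <+: s}

/-- conditions -/
structure Valid (g : Cd) : Prop where
  ne : ∃ s, (0, s) ∈ g
  mono : ∀ n s, (n + 1, s) ∈ g → (n, s) ∈ g
  ext : ∀ n s, (n, s) ∈ g → ∀ E, Adm n E → ∀ n', ∃ t, t ≠ [] ∧ Avoid E t ∧ (n', s ++ t) ∈ g

/-- the point can be caught above every good node -/
def Cat (x : Pt) (g : Cd) : Prop :=
  ∀ n s, (n, s) ∈ g → ∀ k E, Adm n E → (k, x) ∉ E →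
    ∃ t, Avoid E t ∧ Catch k x t ∧ (n, s ++ t) ∈ g

lemma Valid.le {g : Cd} (h : Valid g) {n m : ℕ} {s : Sq} (hs : (n, s) ∈ g) (hm : m ≤ n) :
    (m, s) ∈ g := by
  induction n, hm using Nat.le_induction with
  | base => exact hs
  | succ n _ ih => exact ih (h.mono n s hs)

lemma Valid.mem_tr {g : Cd} (h : Valid g) {n : ℕ} {s : Sq} (hs : (n, s) ∈ g) : s ∈ Tr g :=
  ⟨s, h.le hs (Nat.zero_le _), List.prefix_refl _⟩

lemma tr_pre {g : Cd} {s t : Sq} (hs : s ∈ Tr g) (ht : t <+: s) : t ∈ Tr g :=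
  let ⟨r, h1, h2⟩ := hs
  ⟨r, h1, ht.trans h2⟩

lemma Valid.long {g : Cd} (h : Valid g) {n : ℕ} {s : Sq} (hs : (n, s) ∈ g) {E : Set (ℕ × Pt)}
    (hE : Adm n E) (n' L : ℕ) : ∃ t, t ≠ [] ∧ Avoid E t ∧ (n', s ++ t) ∈ g ∧ L ≤ t.length := by
  have : ∀ L, ∃ t, Avoid E t ∧ (n, s ++ t) ∈ g ∧ L ≤ t.length := by
    intro L
    induction L with
    | zero => exact ⟨[], avoid_nil _, by simpa using hs, le_rfl⟩
    | succ L ih =>
      obtain ⟨t, k1, k2, k3⟩ := ih
      obtain ⟨t', l1, l2, l3⟩ := h.ext n _ k2 E hE n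
      refine ⟨t ++ t', avoid_append.2 ⟨k1, l2⟩, by simpa using l3, ?_⟩
      have := List.length_pos_iff.2 l1
      simp only [List.length_append]
      omega
  obtain ⟨t, k1, k2, k3⟩ := this L
  obtain ⟨t', l1, l2, l3⟩ := h.ext n _ k2 E hE n'
  exact ⟨t ++ t', by simp [l1], avoid_append.2 ⟨k1, l2⟩, by simpa using l3, by simp; omega⟩

lemma Valid.long' {g : Cd} (h : Valid g) (n L : ℕ) : ∃ s, (n, s) ∈ g ∧ L ≤ s.length := by
  obtain ⟨s, hs⟩ := h.ne
  obtain ⟨t, -, -, k1, k2⟩ := h.long hs (adm_empty 0) n L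
  exact ⟨_, k1, by simp; omega⟩

lemma valid_univ : Valid Set.univ := by
  refine ⟨⟨[], trivial⟩, fun _ _ _ => trivial, fun n s _ E hE n' => ⟨[(n, [])], by simp, ?_, trivial⟩⟩
  exact avoid_single.2 (fun e he k => ((hE.2 e he).ne k).elim)

lemma cat_univ (x : Pt) : Cat x Set.univ := by
  intro n s _ k E hE hk
  obtain ⟨ρ, hρ⟩ := exists_sep hE.finite hk
  exact ⟨_, hρ ρ le_rfl, ⟨_, List.mem_singleton_self _, rfl, in_cyl_self _ _⟩, trivial⟩

lemma tr_univ : Tr Set.univ = Set.univ :=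
  Set.eq_univ_of_forall (fun t => ⟨t, trivial, List.prefix_refl _⟩)

/-- restriction to a node -/
def res (g : Cd) (s : Sq) : Cd := {c | c ∈ g ∧ s <+: c.2}

lemma Valid.res {g : Cd} (h : Valid g) {s : Sq} (hs : (0, s) ∈ g) : Valid (res g s) := by
  refine ⟨⟨s, hs, List.prefix_refl _⟩, fun n r hr => ⟨h.mono n r hr.1, hr.2⟩,
    fun n r hr E hE n' => ?_⟩
  obtain ⟨t, k1, k2, k3⟩ := h.ext n r hr.1 E hE n'
  exact ⟨t, k1, k2, k3, hr.2.trans (List.prefix_append _ _)⟩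

lemma Cat.res {g : Cd} {x : Pt} (h : Cat x g) (s : Sq) : Cat x (res g s) := by
  intro n r hr k E hE hk
  obtain ⟨t, k1, k2, k3⟩ := h n r hr.1 k E hE hk
  exact ⟨t, k1, k2, k3, hr.2.trans (List.prefix_append _ _)⟩

lemma tr_res (g : Cd) (s : Sq) : Tr (res g s) ⊆ Tr g := fun _ ⟨r, h1, h2⟩ => ⟨r, h1.1, h2⟩

lemma pre_of_long {s t r : Sq} (h1 : s <+: r) (h2 : t <+: r) (h3 : s.length ≤ t.length) :
    s <+: t := List.prefix_of_prefix_length_le h1 h2 h3

lemma tr_res_long {g : Cd} {s t : Sq} (ht : t ∈ Tr (res g s)) (hl : s.length ≤ t.length) :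
    s <+: t :=
  let ⟨_, h1, h2⟩ := ht
  pre_of_long h1.2 h2 hl

lemma mem_tr_res {g : Cd} {s t : Sq} (ht : t ∈ Tr g) (hs : s <+: t) : t ∈ Tr (res g s) :=
  let ⟨r, h1, h2⟩ := ht
  ⟨r, ⟨h1, hs.trans h2⟩, h2⟩

/-- the subtree that avoids `E` above `s` -/
def av (g : Cd) (s : Sq) (n : ℕ) (E : Set (ℕ × Pt)) : Cd :=
  {c | ∃ t, c.2 = s ++ t ∧ Avoid E t ∧ (c.1 + n, c.2) ∈ g}

lemma Valid.av {g : Cd} (h : Valid g) {s : Sq} {n : ℕ} (hs : (n, s) ∈ g) {E : Set (ℕ × Pt)}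
    (hE : Adm n E) : Valid (av g s n E) := by
  refine ⟨⟨s, [], by simp, avoid_nil _, by simpa using hs⟩, ?_, ?_⟩
  · rintro m r ⟨t, k1, k2, k3⟩
    exact ⟨t, k1, k2, h.le k3 (by simp)⟩
  · rintro m r ⟨t, k1, k2, k3⟩ E' hE' n'
    obtain ⟨t', l1, l2, l3⟩ := h.ext _ _ k3 _ (hE.union hE') (n' + n)
    refine ⟨t', l1, (avoid_union.1 l2).2, t ++ t', ?_, avoid_append.2 ⟨k2, (avoid_union.1 l2).1⟩, l3⟩
    simp only at k1
    simp [k1]

lemma Cat.av {g : Cd} {x : Pt} (h : Cat x g) (s : Sq) {n : ℕ} {E : Set (ℕ × Pt)}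
    (hE : Adm n E) (hx : ∀ k, (k, x) ∉ E) : Cat x (av g s n E) := by
  rintro m r ⟨t, k1, k2, k3⟩ k E' hE' hk
  obtain ⟨t', l1, l2, l3⟩ := h _ _ k3 k _ (hE.union hE') (fun e => e.elim (hx k) hk)
  refine ⟨t', (avoid_union.1 l1).2, l2, t ++ t', ?_, avoid_append.2 ⟨k2, (avoid_union.1 l1).1⟩, l3⟩
  simp only at k1
  simp [k1]

lemma Valid.tr_av {g : Cd} (h : Valid g) (s : Sq) (n : ℕ) (E : Set (ℕ × Pt)) :
    Tr (MP_f251cb_gt.av g s n E) ⊆ Tr g := by
  rintro t ⟨r, ⟨t', -, -, k3⟩, k4⟩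
  exact tr_pre (h.mem_tr k3) k4

lemma tr_av_long {g : Cd} {s r : Sq} {n : ℕ} {E : Set (ℕ × Pt)} (hr : r ∈ Tr (av g s n E))
    (hl : s.length ≤ r.length) : ∃ t, r = s ++ t ∧ Avoid E t := by
  obtain ⟨r', ⟨t', k1, k2, -⟩, k4⟩ := hr
  simp only at k1
  obtain ⟨t, rfl⟩ := pre_of_long (k1 ▸ List.prefix_append s t') k4 hl
  rw [k1, List.prefix_append_right_inj] at k4
  obtain ⟨t'', rfl⟩ := k4
  exact ⟨t, rfl, (avoid_append.1 k2).1⟩

/-- a condition inside a finite union of trees has a restriction inside one of them -/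
lemma Valid.union {A : Type v} (T : A → Set Sq) (hT : ∀ a s t, s ∈ T a → t <+: s → t ∈ T a)
    (L : List A) {g : Cd} (h : Valid g) (hg : ∀ t ∈ Tr g, ∃ a ∈ L, t ∈ T a) :
    ∃ s, (0, s) ∈ g ∧ ∃ a ∈ L, Tr (MP_f251cb_gt.res g s) ⊆ T a := by
  induction L generalizing g with
  | nil =>
    obtain ⟨s, hs⟩ := h.ne
    simpa using hg s (h.mem_tr hs)
  | cons a L ih =>
    by_cases ha : Tr g ⊆ T a
    · obtain ⟨s, hs⟩ := h.ne
      exact ⟨s, hs, a, List.mem_cons_self, (tr_res g s).trans ha⟩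
    · obtain ⟨t, ⟨s, k1, k2⟩, k3⟩ := Set.not_subset.1 ha
      obtain ⟨s', l1, b, l2, l3⟩ := ih (h.res k1) (by
        rintro r ⟨r', m1, m2⟩
        obtain ⟨b, n1, n2⟩ := hg r' (h.mem_tr m1.1)
        rcases List.mem_cons.1 n1 with rfl | n1
        · exact (k3 (hT _ _ _ n2 (k2.trans m1.2))).elim
        · exact ⟨b, n1, hT _ _ _ n2 m2⟩)
      refine ⟨s', l1.1, b, List.mem_cons_of_mem _ l2, ?_⟩
      rintro r ⟨r', m1, m2⟩
      exact l3 ⟨r', ⟨⟨m1.1, l1.2.trans m1.2⟩, m1.2⟩, m2⟩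

lemma Valid.sep {g g' g'' : Cd} (h : Valid g'') {s : Sq} (h1 : Tr g'' ⊆ Tr (MP_f251cb_gt.res g s))
    (h2 : Tr g'' ⊆ Tr g') : s ∈ Tr g' := by
  obtain ⟨r, k1, k2⟩ := h.long' 0 s.length
  exact tr_pre (h2 (h.mem_tr k1)) (tr_res_long (h1 (h.mem_tr k1)) k2)

/-! compactness -/

/-- sections of a point -/
def sec (z : Pt) (i : ℕ) : Pt := fun m => z (Nat.pair i m)

/-- parametrisation of the admissible sets -/
def toE {n : ℕ} (μ : Fin n → Fin (n + 1)) (z : Pt) : Set (ℕ × Pt) :=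
  {e | ∃ i : Fin n, (μ i : ℕ) < n ∧ e = ((μ i : ℕ), sec z i)}

lemma adm_toE {n : ℕ} (μ : Fin n → Fin (n + 1)) (z : Pt) : Adm n (toE μ z) := by
  constructor
  · have : toE μ z ⊆ (fun i : Fin n => ((μ i : ℕ), sec z i)) '' Set.univ := by
      rintro e ⟨i, -, rfl⟩
      exact ⟨i, trivial, rfl⟩
    refine (Set.encard_le_encard this).trans ((Set.encard_image_le _ _).trans ?_)
    simp
  · rintro e ⟨i, h, rfl⟩
    exact h

lemma Adm.exists_toE {n : ℕ} {E : Set (ℕ × Pt)} (h : Adm n E) :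
    ∃ (μ : Fin n → Fin (n + 1)) (z : Pt), toE μ z = E := by
  classical
  have hf := h.finite
  have hc : hf.toFinset.toList.length ≤ n := by
    rw [Finset.length_toList]
    have := h.1
    rw [hf.encard_eq_coe_toFinset_card] at this
    exact_mod_cast this
  set L := hf.toFinset.toList with hL
  have hm : ∀ e, e ∈ L ↔ e ∈ E := by simp [hL]
  refine ⟨fun i => if hi : (i : ℕ) < L.length then
      ⟨L[(i : ℕ)].1, (h.2 _ ((hm _).1 (List.getElem_mem hi))).trans (Nat.lt_succ_self n)⟩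
    else Fin.last n,
    fun k => if hi : k.unpair.1 < L.length then L[k.unpair.1].2 k.unpair.2 else false, ?_⟩
  ext e
  constructor
  · rintro ⟨i, h1, rfl⟩
    by_cases hi : (i : ℕ) < L.length
    · have : sec (fun k => if hi : k.unpair.1 < L.length then L[k.unpair.1].2 k.unpair.2 else false)
          i = L[(i : ℕ)].2 := by
        funext m
        simp [sec, hi]
      simp only [dif_pos hi, this]
      exact (hm _).1 (List.getElem_mem hi)
    · simp [dif_neg hi] at h1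
  · intro he
    obtain ⟨i, hi, rfl⟩ := List.getElem_of_mem ((hm e).2 he)
    have : sec (fun k => if hi : k.unpair.1 < L.length then L[k.unpair.1].2 k.unpair.2 else false)
        i = L[i].2 := by
      funext m
      simp [sec, hi]
    refine ⟨⟨i, hi.trans_le hc⟩, ?_, ?_⟩
    · simp only [dif_pos hi]
      exact h.2 _ he
    · simp only [dif_pos hi, this]

lemma avoid_toE {n : ℕ} {μ : Fin n → Fin (n + 1)} {z : Pt} {t : Sq} : Avoid (toE μ z) t ↔
    ∀ l ∈ t, ∀ i : Fin n, (μ i : ℕ) < n → (μ i : ℕ) = l.1 → ¬ In (sec z i) l.2 := by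
  constructor
  · intro h l hl i h1 h2
    exact h l hl _ ⟨i, h1, rfl⟩ h2
  · rintro h l hl e ⟨i, h1, rfl⟩ h2
    exact h l hl i h1 h2

lemma isClopen_avoid {n : ℕ} (μ : Fin n → Fin (n + 1)) (t : Sq) :
    IsClopen {z : Pt | Avoid (toE μ z) t} := by
  have : {z : Pt | Avoid (toE μ z) t} = ⋂ l ∈ {l | l ∈ t}, ⋂ i : Fin n,
      ⋂ _ : (μ i : ℕ) < n ∧ (μ i : ℕ) = l.1, ((fun z => sec z i) ⁻¹' {x | In x l.2})ᶜ := by
    ext z
    simp only [avoid_toE, Set.mem_ofPred_eq, Set.mem_iInter, Set.mem_compl_iff, Set.mem_preimage,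
      and_imp]
  rw [this]
  refine (List.finite_toSet t).isClopen_biInter (fun l _ => isClopen_iInter_of_finite (fun i =>
    isClopen_iInter_of_finite (fun _ => IsClopen.compl ((isClopen_in _).preimage ?_))))
  exact continuous_pi (fun m => continuous_apply _)

/-- the list `L` of paths covers all admissible sets that `t₀` avoids -/
def Cov (n : ℕ) (t₀ : Sq) (L : List Sq) : Prop :=
  ∀ E, Adm n E → Avoid E t₀ → ∃ t ∈ L, Avoid E t

lemma compact_pt {K : Set Pt} (hK : IsClosed K) {n : ℕ} (μ : Fin n → Fin (n + 1)) (T : Set Sq)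
    (h : ∀ z ∈ K, ∃ t ∈ T, Avoid (toE μ z) t) :
    ∃ L : List Sq, (∀ t ∈ L, t ∈ T) ∧ ∀ z ∈ K, ∃ t ∈ L, Avoid (toE μ z) t := by
  obtain ⟨L, k1, k2, k3⟩ := hK.isCompact.elim_finite_subcover_image
    (b := T) (c := fun t => {z : Pt | Avoid (toE μ z) t})
    (fun t _ => (isClopen_avoid μ t).isOpen) (fun z hz => by simpa using h z hz)
  refine ⟨k2.toFinset.toList, fun t ht => k1 (by simpa using ht), fun z hz => ?_⟩
  simpa using k3 hz

lemma exists_cov {n : ℕ} {t₀ : Sq} {T : Set Sq}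
    (h : ∀ E, Adm n E → Avoid E t₀ → ∃ t ∈ T, Avoid E t) :
    ∃ L : List Sq, (∀ t ∈ L, t ∈ T) ∧ Cov n t₀ L := by
  choose L h1 h2 using fun μ : Fin n → Fin (n + 1) =>
    compact_pt (isClopen_avoid μ t₀).isClosed μ T (fun z hz => h _ (adm_toE μ z) hz)
  refine ⟨(Finset.univ.toList.map L).flatten, fun t ht => ?_, fun E hE h0 => ?_⟩
  · simp only [List.mem_flatten, List.mem_map] at ht
    obtain ⟨l, ⟨μ, -, rfl⟩, k⟩ := ht
    exact h1 μ t k
  · obtain ⟨μ, z, rfl⟩ := hE.exists_toE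
    obtain ⟨t, k1, k2⟩ := h2 μ z h0
    refine ⟨t, ?_, k2⟩
    simp only [List.mem_flatten, List.mem_map]
    exact ⟨_, ⟨μ, by simp, rfl⟩, k1⟩

lemma valid_iff {g : Cd} : Valid g ↔ (∃ s, (0, s) ∈ g) ∧ (∀ n s, (n + 1, s) ∈ g → (n, s) ∈ g) ∧
    ∀ n s, (n, s) ∈ g → ∀ n', ∃ L : List Sq,
      (∀ t, t ∈ L → t ≠ [] ∧ (n', s ++ t) ∈ g) ∧ Cov n [] L := by
  constructor
  · intro h
    refine ⟨h.ne, h.mono, fun n s hs n' => ?_⟩
    refine exists_cov (T := {t | t ≠ [] ∧ (n', s ++ t) ∈ g}) (fun E hE _ => ?_)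
    obtain ⟨t, k1, k2, k3⟩ := h.ext n s hs E hE n'
    exact ⟨t, ⟨k1, k3⟩, k2⟩
  · rintro ⟨h1, h2, h3⟩
    refine ⟨h1, h2, fun n s hs E hE n' => ?_⟩
    obtain ⟨L, k1, k2⟩ := h3 n s hs n'
    obtain ⟨t, l1, l2⟩ := k2 E hE (avoid_nil _)
    exact ⟨t, (k1 t l1).1, l2, (k1 t l1).2⟩

lemma cat_iff {g : Cd} {x : Pt} : Cat x g ↔ ∀ n s, (n, s) ∈ g → ∀ k u, In x u → ∃ L : List Sq,
    (∀ t, t ∈ L → Catch k x t ∧ (n, s ++ t) ∈ g) ∧ Cov n [(k, u)] L := by
  constructor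
  · intro h n s hs k u hu
    refine exists_cov (T := {t | Catch k x t ∧ (n, s ++ t) ∈ g}) (fun E hE h0 => ?_)
    obtain ⟨t, k1, k2, k3⟩ := h n s hs k E hE (fun e => avoid_single.1 h0 _ e rfl hu)
    exact ⟨t, ⟨k2, k3⟩, k1⟩
  · intro h n s hs k E hE hk
    obtain ⟨ρ, hρ⟩ := exists_sep hE.finite hk
    obtain ⟨L, k1, k2⟩ := h n s hs k _ (in_cyl_self x ρ)
    obtain ⟨t, l1, l2⟩ := k2 E hE (hρ ρ le_rfl)
    exact ⟨t, l2, k1 t l1⟩

end Pool.Agent.MP_f251cb_gt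

end MrgPart1

-- ======== part 2: formerly Pool.Agent.MP_f251cb_gt.Fuse
section MrgPart2

/-!
Fusion of conditions and the Menger game.
-/

set_option autoImplicit false

universe u v

namespace Pool.Agent.MP_f251cb_gt

open Encodable

section Fusion

variable {A : Type v}

/-- one step of a fusion -/
def Step (g : A → Cd) (n l : ℕ) (F F' : List (Sq × A)) : Prop :=
  (∀ p, p ∈ F → ∀ t : Sq, encode t ≤ l → (n, p.1 ++ t) ∈ g p.2 → ∀ E, Adm n E →
    ∃ t' a', t' ≠ [] ∧ Avoid E t' ∧ (p.1 ++ t ++ t', a') ∈ F') ∧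
  ∀ p', p' ∈ F' → ∃ p, p ∈ F ∧ p.1 <+: p'.1 ∧ Tr (g p'.2) ⊆ Tr (g p.2)

/-- the point is served at this step -/
def Serve (g : A → Cd) (n l : ℕ) (F : List (Sq × A)) (x : Pt) : Prop :=
  ∀ p, p ∈ F → ∀ k ≤ n, ∀ E, Adm n E → Avoid E [(k, cyl x n)] →
    ∃ t : Sq, encode t ≤ l ∧ Avoid E t ∧ Catch k x t ∧ (n, p.1 ++ t) ∈ g p.2

/-- the limit of a fusion -/
def fus (F : ℕ → List (Sq × A)) : Cd := {c | ∃ n, c.1 ≤ n ∧ ∃ a, (c.2, a) ∈ F n}

/-- fusion sequences -/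
structure IsFus (g : A → Cd) (l : ℕ → ℕ) (F : ℕ → List (Sq × A)) : Prop where
  ne : F 0 ≠ []
  good : ∀ n p, p ∈ F n → (n, p.1) ∈ g p.2 ∧ Valid (g p.2)
  step : ∀ n, Step g n (l n) (F n) (F (n + 1))

variable {g : A → Cd} {l : ℕ → ℕ} {F : ℕ → List (Sq × A)}

lemma IsFus.desc (h : IsFus g l F) {n m : ℕ} {p : Sq × A} (hp : p ∈ F n) (hm : n ≤ m)
    {E : Set (ℕ × Pt)} (hE : Adm n E) :
    ∃ t a', Avoid E t ∧ (p.1 ++ t, a') ∈ F m ∧ (n < m → t ≠ []) := by
  induction m, hm using Nat.le_induction with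
  | base => exact ⟨[], p.2, avoid_nil _, by simpa using hp, fun k => (lt_irrefl _ k).elim⟩
  | succ m hm ih =>
    obtain ⟨t, a', k1, k2, -⟩ := ih
    obtain ⟨t', a'', l1, l2, l3⟩ := (h.step m).1 _ k2 [] (by simp)
      (by simpa using (h.good m _ k2).1) E (hE.mono hm)
    exact ⟨t ++ t', a'', avoid_append.2 ⟨k1, l2⟩, by simpa using l3, fun _ => by simp [l1]⟩

lemma IsFus.anc (h : IsFus g l F) {n m : ℕ} {p' : Sq × A} (hm : n ≤ m) (hp : p' ∈ F m) :
    ∃ p, p ∈ F n ∧ p.1 <+: p'.1 ∧ Tr (g p'.2) ⊆ Tr (g p.2) := by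
  induction m, hm using Nat.le_induction generalizing p' with
  | base => exact ⟨p', hp, List.prefix_refl _, le_rfl⟩
  | succ m hm ih =>
    obtain ⟨p, k1, k2, k3⟩ := (h.step m).2 p' hp
    obtain ⟨q, l1, l2, l3⟩ := ih k1
    exact ⟨q, l1, l2.trans k2, k3.trans l3⟩

lemma IsFus.valid (h : IsFus g l F) : Valid (fus F) := by
  refine ⟨?_, ?_, ?_⟩
  · obtain ⟨p, hp⟩ := List.exists_mem_of_ne_nil _ h.ne
    exact ⟨p.1, 0, le_rfl, p.2, hp⟩
  · rintro n s ⟨m, k1, k2⟩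
    exact ⟨m, (Nat.le_succ n).trans k1, k2⟩
  · rintro n s ⟨m, k1, a, k2⟩ E hE n'
    obtain ⟨t, a', l1, l2, l3⟩ := h.desc k2 (m := max (m + 1) n') (by omega) (hE.mono k1)
    exact ⟨t, l3 (by omega), l1, _, le_max_right _ _, a', l2⟩

lemma IsFus.cat (h : IsFus g l F) {x : Pt} (hx : ∀ m, ∃ n, m ≤ n ∧ Serve g n (l n) (F n) x) :
    Cat x (fus F) := by
  rintro n s ⟨m, k1, a, k2⟩ k E hE hk
  simp only at k1 k2
  obtain ⟨ρ, hρ⟩ := exists_sep hE.finite hk
  obtain ⟨n', l1, l2⟩ := hx (max m (max k ρ))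
  obtain ⟨t1, a1, m1, m2, -⟩ := h.desc k2 (m := n') (by omega) (hE.mono k1)
  obtain ⟨t2, n1, n2, n3, n4⟩ := l2 _ m2 k (by omega) E (hE.mono (by omega)) (hρ _ (by omega))
  obtain ⟨t3, a3, -, o2, o3⟩ := (h.step n').1 _ m2 t2 n1 n4 E (hE.mono (by omega))
  refine ⟨t1 ++ t2 ++ t3, avoid_append.2 ⟨avoid_append.2 ⟨m1, n2⟩, o2⟩, (n3.right _).left _,
    n' + 1, by simp only; omega, a3, ?_⟩
  simpa using o3

lemma IsFus.cover (h : IsFus g l F) (n : ℕ) {t : Sq} (ht : t ∈ Tr (fus F)) :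
    ∃ p, p ∈ F n ∧ t ∈ Tr (res (g p.2) p.1) := by
  obtain ⟨s, ⟨m, -, a, k2⟩, k3⟩ := ht
  simp only at k2
  rcases le_total n m with hm | hm
  · obtain ⟨p, l1, l2, l3⟩ := h.anc hm k2
    exact ⟨p, l1, tr_pre (mem_tr_res (l3 ((h.good m _ k2).2.mem_tr (h.good m _ k2).1)) l2) k3⟩
  · obtain ⟨t', a', -, l2, -⟩ := h.desc k2 hm (adm_empty m)
    exact ⟨_, l2, tr_pre (mem_tr_res ((h.good n _ l2).2.mem_tr (h.good n _ l2).1)
      (List.prefix_refl _)) (k3.trans (List.prefix_append _ _))⟩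

lemma IsFus.ne' (h : IsFus g l F) (n : ℕ) : ∃ p, p ∈ F n := by
  obtain ⟨p, hp⟩ := List.exists_mem_of_ne_nil _ h.ne
  obtain ⟨t, a, -, k, -⟩ := h.desc hp (Nat.zero_le n) (adm_empty 0)
  exact ⟨_, k⟩

lemma Serve.mono {n l l' : ℕ} {F : List (Sq × A)} {x : Pt} (h : Serve g n l F x) (hl : l ≤ l') :
    Serve g n l' F x := fun p hp k hk E hE h0 =>
  let ⟨t, k1, k2⟩ := h p hp k hk E hE h0
  ⟨t, k1.trans hl, k2⟩

lemma exists_serve {n : ℕ} {F : List (Sq × A)} {x : Pt}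
    (h : ∀ p, p ∈ F → (n, p.1) ∈ g p.2 ∧ Cat x (g p.2)) : ∃ l, Serve g n l F x := by
  have : ∀ p, p ∈ F → ∀ k, ∃ l, ∀ E, Adm n E → Avoid E [(k, cyl x n)] →
      ∃ t : Sq, encode t ≤ l ∧ Avoid E t ∧ Catch k x t ∧ (n, p.1 ++ t) ∈ g p.2 := by
    intro p hp k
    obtain ⟨L, k1, k2⟩ := cat_iff.1 (h p hp).2 n _ (h p hp).1 k _ (in_cyl_self x n)
    obtain ⟨M, hM⟩ := ((List.finite_toSet L).image (encode : Sq → ℕ)).bddAbove
    refine ⟨M, fun E hE h0 => ?_⟩
    obtain ⟨t, l1, l2⟩ := k2 E hE h0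
    exact ⟨t, hM (Set.mem_image_of_mem _ l1), l2, k1 t l1⟩
  choose! f hf using this
  obtain ⟨M, hM⟩ := (((List.finite_toSet F).prod (Set.finite_le_nat n)).image
    (fun q => f q.1 q.2)).bddAbove
  refine ⟨M, fun p hp k hk E hE h0 => ?_⟩
  obtain ⟨t, k1, k2⟩ := hf p hp k E hE h0
  exact ⟨t, k1.trans (hM ⟨(p, k), ⟨hp, hk⟩, rfl⟩), k2⟩

lemma finite_encode_le (l : ℕ) : {t : Sq | encode t ≤ l}.Finite :=
  (Set.finite_le_nat l).preimage encode_injective.injOn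

lemma not_serve_open {n l : ℕ} {F : List (Sq × A)} {x : Pt} (h : ¬ Serve g n l F x) :
    ∃ m, ∀ y, In y (cyl x m) → ¬ Serve g n l F y := by
  have hf : (⋃ t ∈ {t : Sq | encode t ≤ l}, {a : Lab | a ∈ t}).Finite :=
    (finite_encode_le l).biUnion (fun t _ => List.finite_toSet t)
  obtain ⟨M, hM⟩ := (hf.image (fun a => a.2.length)).bddAbove
  refine ⟨max n M, fun y hy hs => h (fun p hp k hk E hE h0 => ?_)⟩
  rw [in_cyl] at hy
  obtain ⟨t, k1, k2, ⟨a, k3, k4, k5⟩, k6⟩ := hs p hp k hk E hE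
    (by rwa [cyl_congr (le_max_left n M) hy])
  refine ⟨t, k1, k2, ⟨a, k3, k4, k5.congr (n := max n M) ?_ (fun i hi => (hy i hi).symm)⟩, k6⟩
  exact (hM (Set.mem_image_of_mem _ (Set.mem_biUnion k1 k3))).trans (le_max_right _ _)

/-- the hypothesis that makes a fusion possible -/
structure Hyp (g : A → Cd) (Av : ℕ → Sq × A → Prop) : Prop where
  ne : ∃ p, Av 0 p
  good : ∀ n p, Av n p → (n, p.1) ∈ g p.2 ∧ Valid (g p.2)
  ext : ∀ n p t, Av n p → (n, p.1 ++ t) ∈ g p.2 → ∀ E, Adm n E → ∃ t' a', t' ≠ [] ∧ Avoid E t' ∧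
    Av (n + 1) (p.1 ++ t ++ t', a') ∧ Tr (g a') ⊆ Tr (g p.2)

lemma Hyp.step {Av : ℕ → Sq × A → Prop} (h : Hyp g Av) {n : ℕ} (l : ℕ) {F : List (Sq × A)}
    (hF : ∀ p, p ∈ F → Av n p) : ∃ F', (∀ p, p ∈ F' → Av (n + 1) p) ∧ Step g n l F F' := by
  classical
  have : ∀ q : (Sq × A) × Sq, q.1 ∈ F → (n, q.1.1 ++ q.2) ∈ g q.1.2 → ∃ M : Set (Sq × A),
      M.Finite ∧ (∀ p' ∈ M, Av (n + 1) p' ∧ q.1.1 <+: p'.1 ∧ Tr (g p'.2) ⊆ Tr (g q.1.2)) ∧
      ∀ E, Adm n E → ∃ t' a', t' ≠ [] ∧ Avoid E t' ∧ (q.1.1 ++ q.2 ++ t', a') ∈ M := by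
    rintro ⟨p, t⟩ hp ht
    obtain ⟨L, k1, k2⟩ := exists_cov (n := n) (t₀ := []) (T := {t' | t' ≠ [] ∧
      ∃ a', Av (n + 1) (p.1 ++ t ++ t', a') ∧ Tr (g a') ⊆ Tr (g p.2)}) (fun E hE _ => by
        obtain ⟨t', a', l1, l2, l3⟩ := h.ext n p t (hF p hp) ht E hE
        exact ⟨t', ⟨l1, a', l3⟩, l2⟩)
    choose f hf using fun t' : {t' // t' ∈ L} => (k1 t'.1 t'.2).2
    refine ⟨Set.range (fun t' : {t' // t' ∈ L} => (p.1 ++ t ++ t'.1, f t')), Set.finite_range _,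
      ?_, fun E hE => ?_⟩
    · rintro _ ⟨t', rfl⟩
      exact ⟨(hf t').1, by simp, (hf t').2⟩
    · obtain ⟨t', l1, l2⟩ := k2 E hE (avoid_nil _)
      exact ⟨t', f ⟨t', l1⟩, (k1 t' l1).1, l2, ⟨t', l1⟩, rfl⟩
  choose! M h1 h2 h3 using this
  have hS : ({q : (Sq × A) × Sq | q.1 ∈ F ∧ encode q.2 ≤ l ∧
      (n, q.1.1 ++ q.2) ∈ g q.1.2}).Finite :=
    ((List.finite_toSet F).prod (finite_encode_le l)).subset (fun q hq => ⟨hq.1, hq.2.1⟩)
  have hU := hS.biUnion (t := fun q => M q) (fun q hq => h1 q hq.1 hq.2.2)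
  refine ⟨hU.toFinset.toList, fun p' hp' => ?_, fun p hp t k1 k2 E hE => ?_, fun p' hp' => ?_⟩
  · simp only [Finset.mem_toList, Set.Finite.mem_toFinset, Set.mem_iUnion] at hp'
    obtain ⟨q, k1, k2⟩ := hp'
    exact (h2 q k1.1 k1.2.2 p' k2).1
  · obtain ⟨t', a', l1, l2, l3⟩ := h3 (p, t) hp k2 E hE
    refine ⟨t', a', l1, l2, ?_⟩
    simp only [Finset.mem_toList, Set.Finite.mem_toFinset, Set.mem_iUnion]
    exact ⟨(p, t), ⟨hp, k1, k2⟩, l3⟩
  · simp only [Finset.mem_toList, Set.Finite.mem_toFinset, Set.mem_iUnion] at hp'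
    obtain ⟨q, k1, k2⟩ := hp'
    exact ⟨q.1, k1.1, (h2 q k1.1 k1.2.2 p' k2).2⟩

end Fusion

/-- the point is caught at level `m` on coordinate `k` -/
def CatchAt (R : Set (ℕ × Lab)) (m k : ℕ) (x : Pt) : Prop := ∃ u, (m, (k, u)) ∈ R ∧ In x u

/-- the last level at which the point is caught exists and is at least `g`, on every coordinate -/
def Dom (R : Set (ℕ × Lab)) (x : Pt) (g : ℕ → ℕ) : Prop :=
  ∀ k, (∃ m, g k ≤ m ∧ CatchAt R m k x) ∧ ∃ M, ∀ m, M ≤ m → ¬ CatchAt R m k x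

section Menger

variable (W : List ℕ → ℕ → Pt → Prop)

/-- not served along the moves `σ` after the position `τ` -/
def Un (τ : List ℕ) : List ℕ → Pt → Prop
  | [], _ => True
  | l :: σ, y => Un τ σ y ∧ ¬ W (σ ++ τ) l y

/-- the catching system of a position -/
def Rsys (τ : List ℕ) : Set (ℕ × Lab) :=
  {c | ∃ σ : List ℕ, σ.length = c.2.1 ∧ ∀ y, In y c.2.2 → Un W τ (c.1 :: σ) y}

/-- the moves `b (j + k - 1), …, b j` -/
def seg (b : ℕ → ℕ) (j : ℕ) : ℕ → List ℕ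
  | 0 => []
  | k + 1 => b (j + k) :: seg b j k

lemma seg_length (b : ℕ → ℕ) (j k : ℕ) : (seg b j k).length = k := by
  induction k with
  | zero => rfl
  | succ k ih => simp [seg, ih]

lemma seg_append (b : ℕ → ℕ) (j k : ℕ) : seg b j k ++ seg b 0 j = seg b 0 (j + k) := by
  induction k with
  | zero => rfl
  | succ k ih => simp [seg, ih, ← add_assoc]

variable {W}

lemma un_finite (hm : ∀ σ l l' y, l ≤ l' → W σ l y → W σ l' y) {x : Pt}
    (hx : ∀ σ, ∃ l, W σ l x) (τ : List ℕ) (k : ℕ) :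
    {σ : List ℕ | σ.length = k ∧ Un W τ σ x}.Finite := by
  induction k with
  | zero => exact (Set.finite_singleton []).subset (fun σ h => List.length_eq_zero_iff.1 h.1)
  | succ k ih =>
    choose f hf using hx
    refine (ih.biUnion (t := fun σ => (fun l => l :: σ) '' {l | l ≤ f (σ ++ τ)})
      (fun σ _ => (Set.finite_le_nat _).image _)).subset ?_
    rintro (_ | ⟨l, σ⟩) ⟨h1, h2⟩
    · simp at h1
    · refine Set.mem_biUnion (x := σ) ⟨by simpa using h1, h2.1⟩ ⟨l, ?_, rfl⟩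
      by_contra hn
      exact h2.2 (hm _ _ _ _ (not_le.1 hn).le (hf _))

lemma un_open (ho : ∀ σ l x, ¬ W σ l x → ∃ m, ∀ y, In y (cyl x m) → ¬ W σ l y) {x : Pt}
    {τ σ : List ℕ} (h : Un W τ σ x) : ∃ m, ∀ y, In y (cyl x m) → Un W τ σ y := by
  induction σ with
  | nil => exact ⟨0, fun _ _ => trivial⟩
  | cons l σ ih =>
    obtain ⟨m, k1⟩ := ih h.1
    obtain ⟨m', k2⟩ := ho _ _ _ h.2
    refine ⟨max m m', fun y hy => ⟨k1 y ?_, k2 y ?_⟩⟩
    · exact in_cyl.2 (fun i hi => in_cyl.1 hy i (by omega))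
    · exact in_cyl.2 (fun i hi => in_cyl.1 hy i (by omega))

lemma menger (hm : ∀ σ l l' y, l ≤ l' → W σ l y → W σ l' y)
    (ho : ∀ σ l x, ¬ W σ l x → ∃ m, ∀ y, In y (cyl x m) → ¬ W σ l y) {x : Pt}
    (hx : ∀ σ, ∃ l, W σ l x) {gg : List ℕ → ℕ → ℕ} (hg : ∀ τ, ¬ Dom (Rsys W τ) x (gg τ))
    {b : ℕ → ℕ} (hb : ∀ j k, gg (seg b 0 j) k ≤ b (j + k)) (j : ℕ) :
    ∃ n, j ≤ n ∧ W (seg b 0 n) (b n) x := by
  by_contra hn
  push Not at hn
  refine hg (seg b 0 j) (fun k => ⟨⟨b (j + k), hb j k, ?_⟩, ?_⟩)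
  · have : ∀ k, Un W (seg b 0 j) (seg b j k) x := by
      intro k
      induction k with
      | zero => trivial
      | succ k ih =>
        refine ⟨ih, ?_⟩
        rw [seg_append]
        exact hn _ (by omega)
    obtain ⟨m, hm⟩ := un_open ho (this (k + 1))
    exact ⟨cyl x m, ⟨seg b j k, seg_length _ _ _, hm⟩, in_cyl_self _ _⟩
  · obtain ⟨M, hM⟩ := ((un_finite hm hx (seg b 0 j) (k + 1)).image (fun σ => σ.headD 0)).bddAbove
    refine ⟨M + 1, fun m hm => ?_⟩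
    rintro ⟨u, ⟨σ, k1, k2⟩, k3⟩
    have := hM (Set.mem_image_of_mem _
      (show m :: σ ∈ _ from ⟨by simpa using k1, k2 x k3⟩))
    simp only [List.headD_cons] at this
    omega

/-- the next move dominates all functions attached to earlier positions -/
def nx (gg : List ℕ → ℕ → ℕ) (σ : List ℕ) : ℕ :=
  (Finset.range (σ.length + 1)).sup (fun i => gg (σ.drop i) i)

/-- the positions of the play -/
def posOf (gg : List ℕ → ℕ → ℕ) : ℕ → List ℕ
  | 0 => []
  | n + 1 => nx gg (posOf gg n) :: posOf gg n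

lemma seg_posOf (gg : List ℕ → ℕ → ℕ) (n : ℕ) :
    seg (fun n => nx gg (posOf gg n)) 0 n = posOf gg n := by
  induction n with
  | zero => rfl
  | succ n ih => simp [seg, posOf, ih]

lemma posOf_length (gg : List ℕ → ℕ → ℕ) (n : ℕ) : (posOf gg n).length = n := by
  rw [← seg_posOf, seg_length]

lemma posOf_drop (gg : List ℕ → ℕ → ℕ) (j k : ℕ) : (posOf gg (j + k)).drop k = posOf gg j := by
  induction k with
  | zero => rfl
  | succ k ih => rw [← add_assoc, posOf, List.drop_succ_cons, ih]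

lemma le_nx (gg : List ℕ → ℕ → ℕ) (j k : ℕ) :
    gg (posOf gg j) k ≤ nx gg (posOf gg (j + k)) := by
  have := Finset.le_sup (f := fun i => gg ((posOf gg (j + k)).drop i) i)
    (show k ∈ Finset.range ((posOf gg (j + k)).length + 1) by simp [posOf_length])
  simp only [posOf_drop] at this
  exact this

lemma menger' (hm : ∀ σ l l' y, l ≤ l' → W σ l y → W σ l' y)
    (ho : ∀ σ l x, ¬ W σ l x → ∃ m, ∀ y, In y (cyl x m) → ¬ W σ l y) {x : Pt}
    (hx : ∀ σ, ∃ l, W σ l x) {gg : List ℕ → ℕ → ℕ} (hg : ∀ τ, ¬ Dom (Rsys W τ) x (gg τ))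
    (j : ℕ) : ∃ n, j ≤ n ∧ W (posOf gg n) (nx gg (posOf gg n)) x := by
  have := menger hm ho hx hg (b := fun n => nx gg (posOf gg n))
    (fun j k => by rw [seg_posOf]; exact le_nx gg j k) j
  simpa only [seg_posOf] using this

end Menger

end Pool.Agent.MP_f251cb_gt

end MrgPart2

-- ======== part 3: formerly Pool.Agent.MP_f251cb_gt.Meas
section MrgPart3

/-!
Measurability of the constructions and fusion for names.
-/

set_option autoImplicit false

universe u v w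

namespace Pool.Agent.MP_f251cb_gt

open Encodable

variable {Ω : Type u}

/-- names of subsets -/
def MS [MeasurableSpace Ω] {C : Type v} (g : Ω → Set C) : Prop := ∀ c, Measurable (fun ω => c ∈ g ω)

/-- names of elements -/
def CM [MeasurableSpace Ω] {A : Type v} (f : Ω → A) : Prop := ∀ a, Measurable (fun ω => f ω = a)

/-- names of points -/
def MP [MeasurableSpace Ω] (x : Ω → Pt) : Prop := ∀ n, CM (fun ω => x ω n)

variable {mΩ : MeasurableSpace Ω}

lemma meas_congr {P Q : Ω → Prop} (h : Measurable P) (e : ∀ ω, Q ω ↔ P ω) : Measurable Q := by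
  have : Q = P := funext (fun ω => propext (e ω))
  rwa [this]

lemma CM.comp {A : Type v} [Countable A] {f : Ω → A} (h : CM f) {Q : Ω → A → Prop}
    (hQ : ∀ a, Measurable (fun ω => Q ω a)) : Measurable (fun ω => Q ω (f ω)) :=
  meas_congr (Measurable.exists (fun a => (h a).and (hQ a)))
    (fun _ => ⟨fun k => ⟨_, rfl, k⟩, fun ⟨_, k1, k2⟩ => k1 ▸ k2⟩)

lemma cm_const {A : Type v} (a : A) : CM (fun _ : Ω => a) := fun _ => measurable_const

lemma CM.bind {A : Type v} [Countable A] {B : Type w} {f : Ω → A} (h : CM f) {φ : Ω → A → B}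
    (hφ : ∀ a, CM (fun ω => φ ω a)) : CM (fun ω => φ ω (f ω)) :=
  fun b => h.comp (Q := fun ω a => φ ω a = b) (fun a => hφ a b)

lemma CM.map {A : Type v} [Countable A] {B : Type w} {f : Ω → A} (h : CM f) (φ : A → B) :
    CM (fun ω => φ (f ω)) := h.bind (φ := fun _ a => φ a) (fun _ => cm_const _)

lemma cm_ite {A : Type v} {P : Ω → Prop} [DecidablePred P] (hP : Measurable P) (a b : A) :
    CM (fun ω => if P ω then a else b) := fun c =>
  meas_congr (((hP.and (measurable_const (a := a = c))).or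
    (hP.not.and (measurable_const (a := b = c))))) (fun ω => by by_cases h : P ω <;> simp [h])

lemma exists_sel {A : Type v} [Countable A] [Nonempty A] (R : Ω → A → Prop)
    (hR : ∀ a, Measurable (fun ω => R ω a)) :
    ∃ f : Ω → A, CM f ∧ ∀ ω, (∃ a, R ω a) → R ω (f ω) := by
  classical
  obtain ⟨e, he⟩ := exists_surjective_nat A
  have h1 : CM (fun ω => sInf {n | R ω (e n)}) := by
    intro n
    refine meas_congr ((((hR (e n)).and (Measurable.forall (fun m => (measurable_const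
      (a := m < n)).imp (hR (e m)).not))).or ((measurable_const (a := n = 0)).and
      (Measurable.forall (fun m => (hR (e m)).not))))) (fun ω => ?_)
    by_cases hne : {n | R ω (e n)}.Nonempty
    · constructor
      · rintro rfl
        exact Or.inl ⟨Nat.sInf_mem hne, fun m hm => Nat.notMem_of_lt_sInf hm⟩
      · rintro (⟨k1, k2⟩ | ⟨-, k2⟩)
        · exact le_antisymm (Nat.sInf_le k1) (not_lt.1 (fun l => k2 _ l (Nat.sInf_mem hne)))
        · exact (k2 _ hne.some_mem).elim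
    · have := Set.not_nonempty_iff_eq_empty.1 hne
      beta_reduce
      rw [this, Nat.sInf_empty]
      constructor
      · rintro rfl
        exact Or.inr ⟨rfl, fun m hm => hne ⟨m, hm⟩⟩
      · rintro (⟨k1, -⟩ | ⟨k1, -⟩)
        · exact (hne ⟨n, k1⟩).elim
        · exact k1.symm
  refine ⟨fun ω => e (sInf {n | R ω (e n)}), h1.map e, ?_⟩
  rintro ω ⟨a, ha⟩
  obtain ⟨n, rfl⟩ := he a
  exact Nat.sInf_mem (s := {n | R ω (e n)}) ⟨n, ha⟩

lemma meas_of_fin {ι : Type v} {P : ι → Ω → Prop} (hP : ∀ i, Measurable (P i)) {S : Set ι}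
    (hS : S.Finite) {Q : Ω → Prop} (hQ : ∀ ω ω', (∀ i ∈ S, P i ω ↔ P i ω') → Q ω → Q ω') :
    Measurable Q := by
  have := hS.to_subtype
  refine meas_congr (Measurable.exists (fun T : S → Prop => (Measurable.forall (fun i : S =>
    (hP i).iff (measurable_const (a := T i)))).and (measurable_const
      (a := ∃ ω', (∀ i : S, P i ω' ↔ T i) ∧ Q ω')))) (fun ω => ?_)
  exact ⟨fun h => ⟨fun i => P i ω, fun _ => Iff.rfl, ω, fun _ => Iff.rfl, h⟩,
    fun ⟨T, k1, ω', k2, k3⟩ => hQ ω' ω (fun i hi => (k2 ⟨i, hi⟩).trans (k1 ⟨i, hi⟩).symm) k3⟩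

variable {g g' : Ω → Cd} {x y : Ω → Pt}

lemma MP.in (h : MP x) (u : List Bool) : Measurable (fun ω => In (x ω) u) :=
  Measurable.forall (fun i => Measurable.forall (fun _ => h i _))

lemma MP.eq (h : MP x) (h' : MP y) : Measurable (fun ω => x ω = y ω) :=
  meas_congr (Measurable.forall (fun i => (h' i).comp (Q := fun ω b => x ω i = b) (h i)))
    (fun _ => funext_iff)

lemma MP.sec (h : MP x) (i : ℕ) : MP (fun ω => sec (x ω) i) := fun _ => h _

lemma MP.catch (h : MP x) (k : ℕ) (t : Sq) : Measurable (fun ω => Catch k (x ω) t) :=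
  Measurable.exists (fun l => measurable_const.and (measurable_const.and (h.in l.2)))

lemma MP.avoid_toE (h : MP x) {n : ℕ} (μ : Fin n → Fin (n + 1)) (t : Sq) :
    Measurable (fun ω => Avoid (toE μ (x ω)) t) :=
  meas_congr (Measurable.forall (fun l : Lab => (measurable_const (a := l ∈ t)).imp
    (Measurable.forall (fun i : Fin n => (measurable_const (a := (μ i : ℕ) < n)).imp
      ((measurable_const (a := (μ i : ℕ) = l.1)).imp ((h.sec i).in l.2).not)))))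
    (fun _ => MP_f251cb_gt.avoid_toE)

lemma MP.avoid_single (h : MP x) (k : ℕ) (t : Sq) :
    Measurable (fun ω => Avoid {(k, x ω)} t) :=
  meas_congr (Measurable.forall (fun l : Lab => (measurable_const (a := l ∈ t)).imp
    ((measurable_const (a := k = l.1)).imp (h.in l.2).not))) (fun _ => by simp [Avoid])

lemma MS.tr (h : MS g) : MS (fun ω => Tr (g ω)) := fun _ =>
  Measurable.exists (fun _ => (h _).and measurable_const)

lemma MS.sub {C : Type v} [Countable C] {s t : Ω → Set C} (h : MS s) (h' : MS t) :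
    Measurable (fun ω => s ω ⊆ t ω) := Measurable.forall (fun c => (h c).imp (h' c))

lemma MS.eq {C : Type v} [Countable C] {s t : Ω → Set C} (h : MS s) (h' : MS t) :
    Measurable (fun ω => s ω = t ω) :=
  meas_congr (Measurable.forall (fun c => (h c).iff (h' c))) (fun _ => Set.ext_iff)

lemma MS.res (h : MS g) (s : Sq) : MS (fun ω => res (g ω) s) := fun c =>
  (h c).and measurable_const

lemma MS.av (h : MS g) (s : Sq) (n : ℕ) {E : Ω → Set (ℕ × Pt)}
    (hE : ∀ t, Measurable (fun ω => Avoid (E ω) t)) : MS (fun ω => av (g ω) s n (E ω)) := fun _ =>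
  Measurable.exists (fun t => measurable_const.and ((hE t).and (h _)))

lemma MS.valid (h : MS g) : Measurable (fun ω => Valid (g ω)) :=
  meas_congr ((Measurable.exists (fun _ => h _)).and
    ((Measurable.forall (fun _ => Measurable.forall (fun _ => (h _).imp (h _)))).and
    (Measurable.forall (fun _ => Measurable.forall (fun _ => (h _).imp (Measurable.forall
      (fun _ => Measurable.exists (fun _ => (Measurable.forall (fun _ => measurable_const.imp
        (measurable_const.and (h _)))).and measurable_const)))))))) (fun _ => valid_iff)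

lemma MS.cat (h : MS g) (hx : MP x) : Measurable (fun ω => Cat (x ω) (g ω)) :=
  meas_congr (Measurable.forall (fun _ => Measurable.forall (fun _ => (h _).imp
    (Measurable.forall (fun k => Measurable.forall (fun u => (hx.in u).imp (Measurable.exists
      (fun _ => (Measurable.forall (fun t => measurable_const.imp
        ((hx.catch k t).and (h _)))).and measurable_const)))))))) (fun _ => cat_iff)

lemma MS.catchAt {R : Ω → Set (ℕ × Lab)} (h : MS R) (hx : MP x) (m k : ℕ) :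
    Measurable (fun ω => CatchAt (R ω) m k (x ω)) :=
  Measurable.exists (fun u => (h _).and (hx.in u))

lemma MS.dom {R : Ω → Set (ℕ × Lab)} (h : MS R) (hx : MP x) {gg : Ω → ℕ → ℕ}
    (hg : ∀ k, CM (fun ω => gg ω k)) : Measurable (fun ω => Dom (R ω) (x ω) (gg ω)) :=
  Measurable.forall (fun k => (Measurable.exists (fun m =>
    ((hg k).comp (Q := fun _ a => a ≤ m) (fun _ => measurable_const)).and (h.catchAt hx m k))).and
    (Measurable.exists (fun _ => Measurable.forall (fun m =>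
      measurable_const.imp (h.catchAt hx m k).not))))

lemma in_concat {z : Pt} {u : List Bool} {b : Bool} :
    In z (u ++ [b]) ↔ In z u ∧ z u.length = b := by
  constructor
  · intro h
    refine ⟨fun i hi => ?_, ?_⟩
    · have := h i (by simp; omega)
      rwa [List.getElem_append_left hi] at this
    · simpa using h u.length (by simp)
  · rintro ⟨h1, h2⟩ i hi
    by_cases hi' : i < u.length
    · rw [List.getElem_append_left hi']
      exact h1 i hi'
    · have : i = u.length := by simp at hi; omega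
      subst this
      simpa using h2

/-- measurable selection from closed subsets of the Cantor space -/
lemma exists_branch (K : Ω → Set Pt) (hK : ∀ ω, IsClosed (K ω))
    (hm : ∀ u, Measurable (fun ω => ∃ z ∈ K ω, In z u)) :
    ∃ z : Ω → Pt, MP z ∧ ∀ ω, (K ω).Nonempty → z ω ∈ K ω := by
  classical
  let uu : ℕ → Ω → List Bool := fun n => Nat.rec (fun _ => []) (fun _ f ω =>
    if ∃ z ∈ K ω, In z (f ω ++ [false]) then f ω ++ [false] else f ω ++ [true]) n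
  have h0 : ∀ n ω, uu (n + 1) ω = if ∃ z ∈ K ω, In z (uu n ω ++ [false]) then uu n ω ++ [false]
    else uu n ω ++ [true] := fun _ _ => rfl
  have h1 : ∀ n, CM (uu n) := by
    intro n
    induction n with
    | zero => exact cm_const _
    | succ n ih =>
      exact ih.bind (φ := fun ω u => if ∃ z ∈ K ω, In z (u ++ [false]) then u ++ [false]
        else u ++ [true]) (fun u => cm_ite (hm _) _ _)
  have h2 : ∀ n ω, (uu n ω).length = n := by
    intro n ω
    induction n with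
    | zero => rfl
    | succ n ih => rw [h0]; split_ifs <;> simp [ih]
  refine ⟨fun ω i => (uu (i + 1) ω).getD i false,
    fun i => (h1 (i + 1)).map (fun u => u.getD i false), fun ω hne => ?_⟩
  have h3 : ∀ n, (K ω ∩ {z | In z (uu n ω)}).Nonempty := by
    intro n
    induction n with
    | zero => exact ⟨hne.some, hne.some_mem, fun i hi => by simp [h2] at hi⟩
    | succ n ih =>
      rw [h0]
      split_ifs with h
      · exact h
      · obtain ⟨z, k1, k2⟩ := ih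
        refine ⟨z, k1, in_concat.2 ⟨k2, ?_⟩⟩
        by_contra hn
        exact h ⟨z, k1, in_concat.2 ⟨k2, by simpa using hn⟩⟩
  have h4 : ∀ n, K ω ∩ {z | In z (uu (n + 1) ω)} ⊆ K ω ∩ {z | In z (uu n ω)} := by
    rintro n z ⟨k1, k2⟩
    refine ⟨k1, ?_⟩
    rw [h0] at k2
    split_ifs at k2 <;> exact (in_concat.1 k2).1
  obtain ⟨z, hz⟩ := IsCompact.nonempty_iInter_of_sequence_nonempty_isCompact_isClosed _ h4 h3
    ((hK ω).inter (isClopen_in _).isClosed).isCompact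
    (fun n => (hK ω).inter (isClopen_in _).isClosed)
  rw [Set.mem_iInter] at hz
  convert (hz 0).1 using 1
  funext i
  beta_reduce
  rw [(hz (i + 1)).2 i (by simp [h2]), List.getD_eq_getElem]

/-- a name for an admissible set that is not avoided -/
lemma exists_bad (T : Ω → Set Sq) (hT : MS T) {n : ℕ} (μ : Fin n → Fin (n + 1)) :
    ∃ z : Ω → Pt, MP z ∧ ∀ ω, (∃ z, ∀ t ∈ T ω, ¬ Avoid (toE μ z) t) →
      ∀ t ∈ T ω, ¬ Avoid (toE μ (z ω)) t := by
  refine exists_branch (fun ω => {z | ∀ t ∈ T ω, ¬ Avoid (toE μ z) t}) (fun ω => ?_) (fun u => ?_)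
  · have : {z | ∀ t ∈ T ω, ¬ Avoid (toE μ z) t} = ⋂ t ∈ T ω, {z | Avoid (toE μ z) t}ᶜ := by
      ext z
      simp
    rw [this]
    exact isClosed_biInter (fun t _ => (isClopen_avoid μ t).compl.isClosed)
  · refine meas_congr (Measurable.not (Measurable.exists (fun L : List Sq => (Measurable.forall
      (fun t => (measurable_const (a := t ∈ L)).imp (hT t))).and (measurable_const
        (a := ∀ z ∈ {z | In z u}, ∃ t ∈ L, Avoid (toE μ z) t))))) (fun ω => ?_)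
    constructor
    · rintro ⟨z, k1, k2⟩ ⟨L, l1, l2⟩
      obtain ⟨t, m1, m2⟩ := l2 z k2
      exact k1 t (l1 t m1) m2
    · intro h
      by_contra hn
      refine h (compact_pt (isClopen_in u).isClosed μ (T ω) (fun z hz => ?_))
      by_contra hn'
      exact hn ⟨z, fun t ht ha => hn' ⟨t, ht, ha⟩, hz⟩

lemma exists_not_avoid {T : Set Sq} {n : ℕ} (h : ¬ ∃ L : List Sq, (∀ t ∈ L, t ∈ T) ∧ Cov n [] L) :
    ∃ (μ : Fin n → Fin (n + 1)) (z : Pt), ∀ t ∈ T, ¬ Avoid (toE μ z) t := by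
  by_contra hn
  refine h (exists_cov (fun E hE _ => ?_))
  obtain ⟨μ, z, rfl⟩ := hE.exists_toE
  by_contra hn'
  exact hn ⟨μ, z, fun t ht ha => hn' ⟨t, ht, ha⟩⟩

section Names

variable {A : Type v} [Countable A] {g : Ω → A → Cd}

lemma meas_step (hg : ∀ a, MS (fun ω => g ω a)) (n l : ℕ) (F F' : List (Sq × A)) :
    Measurable (fun ω => Step (g ω) n l F F') :=
  (Measurable.forall (fun _ => measurable_const.imp (Measurable.forall (fun _ =>
    measurable_const.imp ((hg _ _).imp measurable_const))))).and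
  (Measurable.forall (fun _ => measurable_const.imp (Measurable.exists (fun _ =>
    measurable_const.and (measurable_const.and ((hg _).tr.sub (hg _).tr))))))

omit [Countable A] in
lemma meas_not_serve (hg : ∀ a, MS (fun ω => g ω a)) (n l : ℕ) (F : List (Sq × A))
    (u : List Bool) : Measurable (fun ω => ∀ y, In y u → ¬ Serve (g ω) n l F y) := by
  refine meas_of_fin (P := fun (q : (Sq × A) × Sq) ω => (n, q.1.1 ++ q.2) ∈ g ω q.1.2)
    (fun q => hg _ _) ((List.finite_toSet F).prod (finite_encode_le l))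
    (fun ω ω' h k y hy hs => k y hy (fun p hp j hj E hE h0 => ?_))
  obtain ⟨t, l1, l2, l3, l4⟩ := hs p hp j hj E hE h0
  exact ⟨t, l1, l2, l3, (h (p, t) ⟨hp, l1⟩).2 l4⟩

lemma ms_fus {F : Ω → ℕ → List (Sq × A)} (hF : ∀ n, CM (fun ω => F ω n)) :
    MS (fun ω => fus (F ω)) := fun c =>
  Measurable.exists (fun n => measurable_const.and (Measurable.exists (fun a =>
    (hF n).comp (Q := fun _ L => (c.2, a) ∈ L) (fun _ => measurable_const))))

lemma cm_sup {ι : Type w} (s : Finset ι) {f : ι → Ω → ℕ} (hf : ∀ i, CM (f i)) :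
    CM (fun ω => s.sup (fun i => f i ω)) := by
  classical
  induction s using Finset.induction_on with
  | empty => exact cm_const _
  | insert a s _ ih =>
    simp only [Finset.sup_insert]
    exact (hf a).bind (φ := fun ω m => m ⊔ s.sup (fun i => f i ω)) (fun m => ih.map _)

/-- fusion for names -/
theorem name_fusion (hg : ∀ a, MS (fun ω => g ω a)) {Av : Ω → ℕ → Sq × A → Prop}
    (hAv : ∀ n p, Measurable (fun ω => Av ω n p)) {Ξ : Type w} (x : Ξ → Ω → Pt)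
    (Fc : (Ω → Prop) → Prop) (hmono : ∀ Φ Ψ, Fc Φ → (∀ ω, Φ ω → Ψ ω) → Fc Ψ)
    (hall : ∀ Φ : List ℕ → Ω → Prop, (∀ i, Fc (Φ i)) → Fc (fun ω => ∀ i, Φ i ω))
    (Act : Ω → Prop) (NK : ∀ R : Ω → Set (ℕ × Lab), MS R → ∃ gg : Ω → ℕ → ℕ,
      (∀ k, CM (fun ω => gg ω k)) ∧ ∀ ξ, Fc (fun ω => Act ω → ¬ Dom (R ω) (x ξ ω) (gg ω))) :
    ∃ (F : Ω → ℕ → List (Sq × A)) (l : Ω → ℕ → ℕ), (∀ n, CM (fun ω => F ω n)) ∧
      (∀ ω, Hyp (g ω) (Av ω) → IsFus (g ω) (l ω) (F ω) ∧ ∀ n p, p ∈ F ω n → Av ω n p) ∧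
      ∀ ξ, Fc (fun ω => Act ω → Hyp (g ω) (Av ω) → (∀ n p, Av ω n p → Cat (x ξ ω) (g ω p.2)) →
        Cat (x ξ ω) (fus (F ω))) := by
  obtain ⟨F0, a1, a2⟩ := exists_sel (fun ω (L : List (Sq × A)) => L ≠ [] ∧ ∀ p, p ∈ L → Av ω 0 p)
    (fun L => measurable_const.and (Measurable.forall (fun p => measurable_const.imp (hAv 0 p))))
  choose sf b1 b2 using fun (n l : ℕ) (F : List (Sq × A)) =>
    exists_sel (fun ω (F' : List (Sq × A)) => (∀ p, p ∈ F' → Av ω (n + 1) p) ∧ Step (g ω) n l F F')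
      (fun L => (Measurable.forall (fun p => measurable_const.imp (hAv _ p))).and
        (meas_step hg n l F L))
  let FF : List ℕ → Ω → List (Sq × A) := fun σ =>
    List.rec F0 (fun l σ f ω => sf σ.length l (f ω) ω) σ
  have c0 : ∀ l σ ω, FF (l :: σ) ω = sf σ.length l (FF σ ω) ω := fun _ _ _ => rfl
  have c1 : ∀ σ, CM (FF σ) := by
    intro σ
    induction σ with
    | nil => exact a1
    | cons l σ ih => exact ih.bind (φ := fun ω F => sf σ.length l F ω) (fun F => b1 _ _ F)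
  have c2 : ∀ ω, Hyp (g ω) (Av ω) → ∀ σ p, p ∈ FF σ ω → Av ω σ.length p := by
    intro ω h σ
    induction σ with
    | nil =>
      obtain ⟨p, hp⟩ := h.ne
      exact (a2 ω ⟨[p], by simp, by simpa using hp⟩).2
    | cons l σ ih => exact (b2 _ l _ ω (h.step l ih)).1
  let W : Ω → List ℕ → ℕ → Pt → Prop := fun ω σ l y => Serve (g ω) σ.length l (FF σ ω) y
  have d1 : ∀ τ σ u, Measurable (fun ω => ∀ y, In y u → Un (W ω) τ σ y) := by
    intro τ σ u
    induction σ with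
    | nil => exact meas_congr (measurable_const (a := True)) (fun _ => by simp [Un])
    | cons l σ ih =>
      refine meas_congr (ih.and ((c1 (σ ++ τ)).comp
        (Q := fun ω F => ∀ y, In y u → ¬ Serve (g ω) (σ ++ τ).length l F y)
        (fun F => meas_not_serve hg _ _ F u))) (fun ω => ?_)
      exact ⟨fun h => ⟨fun y hy => (h y hy).1, fun y hy => (h y hy).2⟩,
        fun h y hy => ⟨h.1 y hy, h.2 y hy⟩⟩
  choose gg e1 e2 using fun τ => NK (fun ω => Rsys (W ω) τ)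
    (fun c => Measurable.exists (fun σ => measurable_const.and (d1 τ _ _)))
  have f1 : ∀ σ, CM (fun ω => nx (fun τ => gg τ ω) σ) := fun σ => cm_sup _ (fun i => e1 _ i)
  have f2 : ∀ n, CM (fun ω => posOf (fun τ => gg τ ω) n) := by
    intro n
    induction n with
    | zero => exact cm_const _
    | succ n ih =>
      exact ih.bind (φ := fun ω σ => nx (fun τ => gg τ ω) σ :: σ) (fun σ => (f1 σ).map (· :: σ))
  refine ⟨fun ω n => FF (posOf (fun τ => gg τ ω) n) ω,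
    fun ω n => nx (fun τ => gg τ ω) (posOf (fun τ => gg τ ω) n),
    fun n => (f2 n).bind (φ := fun ω σ => FF σ ω) c1, ?_, ?_⟩
  · intro ω h
    have k1 : ∀ n p, p ∈ FF (posOf (fun τ => gg τ ω) n) ω → Av ω n p := by
      intro n p hp
      have := c2 ω h _ p hp
      rwa [posOf_length] at this
    refine ⟨⟨?_, fun n p hp => h.good n p (k1 n p hp), fun n => ?_⟩, k1⟩
    · obtain ⟨p, hp⟩ := h.ne
      exact (a2 ω ⟨[p], by simp, by simpa using hp⟩).1
    · have := (b2 _ (nx (fun τ => gg τ ω) (posOf (fun τ => gg τ ω) n)) _ ω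
        (h.step _ (c2 ω h (posOf (fun τ => gg τ ω) n)))).2
      rw [← c0] at this
      simpa only [posOf_length, posOf] using this
  · intro ξ
    refine hmono _ _ (hall _ (fun τ => e2 τ ξ)) (fun ω h1 h2 h3 h4 => ?_)
    have k1 : ∀ n p, p ∈ FF (posOf (fun τ => gg τ ω) n) ω → Av ω n p := by
      intro n p hp
      have := c2 ω h3 _ p hp
      rwa [posOf_length] at this
    have k2 : IsFus (g ω) (fun n => nx (fun τ => gg τ ω) (posOf (fun τ => gg τ ω) n))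
        (fun n => FF (posOf (fun τ => gg τ ω) n) ω) := by
      refine ⟨?_, fun n p hp => h3.good n p (k1 n p hp), fun n => ?_⟩
      · obtain ⟨p, hp⟩ := h3.ne
        exact (a2 ω ⟨[p], by simp, by simpa using hp⟩).1
      · have := (b2 _ (nx (fun τ => gg τ ω) (posOf (fun τ => gg τ ω) n)) _ ω
          (h3.step _ (c2 ω h3 (posOf (fun τ => gg τ ω) n)))).2
        rw [← c0] at this
        simpa only [posOf_length, posOf] using this
    refine k2.cat (fun j => ?_)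
    have := menger' (W := W ω) (fun σ l l' y k1 k2 => Serve.mono k2 k1)
      (fun σ l x h => not_serve_open h) (x := x ξ ω)
      (fun σ => exists_serve (fun p hp => ⟨(h3.good _ p (c2 ω h3 σ p hp)).1,
        h4 _ p (c2 ω h3 σ p hp)⟩)) (fun τ => h1 τ h2) j
    simpa only [W, posOf_length] using this

end Names

end Pool.Agent.MP_f251cb_gt

end MrgPart3

-- ======== part 4: formerly Pool.Agent.MP_f251cb_gt.Raw
section MrgPart4

/-!
The ambient type of raw conditions of an iteration along all small ordinals, and bookkeeping.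
-/

set_option autoImplicit false

universe u v

namespace Pool.Agent.MP_f251cb_gt

open Set

/-- stages -/
abbrev O := Ordinal.{0}

/-- the first uncountable ordinal as a type -/
abbrev W1 : Type := (Cardinal.ord (Cardinal.aleph 1)).ToType

lemma w1_Iio (ξ : W1) : (Iio ξ).Countable := by
  rw [← Cardinal.le_aleph0_iff_set_countable, ← Cardinal.lt_aleph_one_iff]
  simpa using Cardinal.mk_Iio_lt ξ (by simp)

lemma w1_uncountable : ¬ (univ : Set W1).Countable := by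
  rw [← Cardinal.le_aleph0_iff_set_countable, ← Cardinal.lt_aleph_one_iff]
  simp

lemma w1_bdd {S : Set W1} (hS : S.Countable) : ∃ ξ, ∀ η ∈ S, η < ξ := by
  by_contra hn
  push Not at hn
  refine w1_uncountable ((hS.biUnion (t := fun η _ => insert η (Iio η))
    (fun η _ => (w1_Iio η).insert η)).mono (fun ξ _ => ?_))
  obtain ⟨η, k1, k2⟩ := hn ξ
  exact mem_iUnion₂.2 ⟨η, k1, k2.eq_or_lt.imp id id⟩

instance : Nonempty W1 :=
  let ⟨ξ, _⟩ := w1_bdd countable_empty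
  ⟨ξ⟩

/-- the data of a coordinate -/
noncomputable def Dt : O → Type 1 :=
  (wellFounded_lt (α := O)).fix (fun α r => ℕ × Sq → Set (∀ β : Iio α, r β.1 β.2))

lemma Dt_eq (α : O) : Dt α = (ℕ × Sq → Set (∀ β : Iio α, Dt β)) := by
  rw [Dt, WellFounded.fix_eq]

instance small_Dt (α : O) : Small.{0} (Dt α) := by
  induction α using (wellFounded_lt (α := O)).induction with
  | h α ih =>
    rw [Dt_eq]
    have : ∀ β : Iio α, Small.{0} (Dt β) := fun β => ih β.1 β.2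
    infer_instance

/-- raw conditions -/
def Raw : Type 1 := ∀ α, Dt α

/-- the trivial coordinate -/
def dflt (α : O) : Dt α := cast (Dt_eq α).symm (fun _ => ∅)

/-- restriction -/
noncomputable def rs (α : O) (p : Raw) : Raw := fun β => if β < α then p β else dflt β

/-- the conditions listed by a coordinate for a bit -/
def bits (α : O) (d : Dt α) (c : ℕ × Sq) : Set Raw :=
  {v | (fun β : Iio α => v β) ∈ cast (Dt_eq α) d c}

/-- extension by trivial coordinates -/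
noncomputable def extd (α : O) (w : ∀ β : Iio α, Dt β) : Raw :=
  fun β => if h : β < α then w ⟨β, h⟩ else dflt β

lemma extd_rs (α : O) (v : Raw) : extd α (fun β : Iio α => v β) = rs α v := by
  funext β
  simp only [extd, rs]
  split_ifs <;> rfl

/-- a coordinate from sets of conditions -/
def mkD (α : O) (A : ℕ × Sq → Set Raw) : Dt α :=
  cast (Dt_eq α).symm (fun c => {w | extd α w ∈ A c})

lemma bits_mkD {α : O} {A : ℕ × Sq → Set Raw} {c : ℕ × Sq} {v : Raw} :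
    v ∈ bits α (mkD α A) c ↔ rs α v ∈ A c := by
  simp [bits, mkD, extd_rs]

lemma bits_dflt (α : O) (c : ℕ × Sq) : bits α (dflt α) c = ∅ := by
  simp [bits, dflt]

lemma rs_lt {α β : O} (p : Raw) (h : β < α) : rs α p β = p β := if_pos h

lemma rs_ge {α β : O} (p : Raw) (h : α ≤ β) : rs α p β = dflt β := if_neg (not_lt.2 h)

lemma rs_rs {α β : O} (p : Raw) (h : α ≤ β) : rs α (rs β p) = rs α p := by
  funext γ
  by_cases k : γ < α
  · rw [rs_lt _ k, rs_lt _ k, rs_lt _ (k.trans_le h)]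
  · rw [rs_ge _ (not_lt.1 k), rs_ge _ (not_lt.1 k)]

lemma rs_rs' {α β : O} (p : Raw) (h : α ≤ β) : rs β (rs α p) = rs α p := by
  funext γ
  by_cases k : γ < β
  · rw [rs_lt _ k]
  · rw [rs_ge _ (not_lt.1 k), rs_ge _ (h.trans (not_lt.1 k))]

lemma rs_congr {α : O} {p q : Raw} (h : ∀ β < α, p β = q β) : rs α p = rs α q := by
  funext γ
  by_cases k : γ < α
  · rw [rs_lt _ k, rs_lt _ k, h γ k]
  · rw [rs_ge _ (not_lt.1 k), rs_ge _ (not_lt.1 k)]

lemma rs_eq_self {α : O} {p : Raw} (h : ∀ β, α ≤ β → p β = dflt β) : rs α p = p := by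
  funext γ
  by_cases k : γ < α
  · rw [rs_lt _ k]
  · rw [rs_ge _ (not_lt.1 k), h γ (not_lt.1 k)]

lemma small_below (α : O) : Small.{0} {p : Raw | ∀ β, α ≤ β → p β = dflt β} := by
  refine small_of_injective (β := ∀ β : Iio α, Dt β) (f := fun p β => p.1 β) (fun p q h => ?_)
  apply Subtype.ext
  rw [← rs_eq_self p.2, ← rs_eq_self q.2]
  exact rs_congr (fun β hβ => congrFun h ⟨β, hβ⟩)

lemma exists_inj_ord (T : Type 1) [Small.{0} T] : ∃ f : T → O, Function.Injective f :=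
  ⟨fun t => Ordinal.typein WellOrderingRel (equivShrink T t),
    (Ordinal.typein_injective _).comp (equivShrink T).injective⟩

lemma exists_bk : ∃ bk : O → W1 × ℕ → Set Raw, ∀ (α : O) (A : W1 × ℕ → Set Raw) (γ : O),
    ∃ β, γ ≤ β ∧ ∀ j v, v ∈ bk β j ↔ rs α v ∈ A j := by
  choose f hf using fun α : O => exists_inj_ord (W1 × ℕ → Set (∀ β : Iio α, Dt β))
  obtain ⟨e⟩ : Nonempty (O × O ≃ O) := Cardinal.eq.1 (by
    rw [Cardinal.mk_prod, Cardinal.lift_id, Cardinal.mul_eq_self (Cardinal.aleph0_le_mk O)])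
  let i : (Σ α : O, W1 × ℕ → Set (∀ β : Iio α, Dt β)) × O → O :=
    fun w => e (e (w.1.1, f w.1.1 w.1.2), w.2)
  have hi : Function.Injective i := by
    rintro ⟨⟨a, b⟩, c⟩ ⟨⟨a', b'⟩, c'⟩ h
    simp only [i, EmbeddingLike.apply_eq_iff_eq, Prod.mk.injEq] at h
    obtain ⟨⟨rfl, h2⟩, rfl⟩ := h
    rw [hf _ h2]
  have : Nonempty ((Σ α : O, W1 × ℕ → Set (∀ β : Iio α, Dt β)) × O) := ⟨⟨⟨0, fun _ => ∅⟩, 0⟩⟩
  refine ⟨fun β j => {v | (fun γ : Iio (Function.invFun i β).1.1 => v γ) ∈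
    (Function.invFun i β).1.2 j}, fun α A γ => ?_⟩
  let w : Σ α : O, W1 × ℕ → Set (∀ β : Iio α, Dt β) := ⟨α, fun j => {w | extd α w ∈ A j}⟩
  have : ∃ δ, γ ≤ i (w, δ) := by
    by_contra hn
    push Not at hn
    refine not_small_ordinal.{0, 0} (small_of_injective (β := Iio γ)
      (f := fun δ => ⟨i (w, δ), hn δ⟩) (fun a b h => ?_))
    exact (Prod.ext_iff.1 (hi (congrArg Subtype.val h))).2
  obtain ⟨δ, hδ⟩ := this
  refine ⟨_, hδ, fun j v => ?_⟩
  simp only [mem_ofPred_eq]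
  rw [Function.leftInverse_invFun hi (w, δ)]
  simp [w, extd_rs]

/-- the bookkeeping function -/
noncomputable def bk : O → W1 × ℕ → Set Raw := exists_bk.choose

lemma bk_spec (α : O) (A : W1 × ℕ → Set Raw) (γ : O) :
    ∃ β, γ ≤ β ∧ ∀ j v, v ∈ bk β j ↔ rs α v ∈ A j := exists_bk.choose_spec α A γ

lemma closing_off {U : Type u} (f : List U → Set U) (hf : ∀ l, (f l).Countable) {S : Set U}
    (hS : S.Countable) : ∃ N : Set U, N.Countable ∧ S ⊆ N ∧
      ∀ l : List U, (∀ a ∈ l, a ∈ N) → f l ⊆ N := by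
  let T : ℕ → Set U := fun n => Nat.rec (motive := fun _ => Set U) S
    (fun _ A => A ∪ ⋃ l ∈ {l : List U | ∀ a ∈ l, a ∈ A}, f l) n
  have h1 : ∀ n, (T n).Countable := by
    intro n
    induction n with
    | zero => exact hS
    | succ n ih =>
      refine ih.union (Countable.biUnion ?_ (fun l _ => hf l))
      have : Countable ↥(T n) := ih.to_subtype
      refine (countable_range (fun l : List ↥(T n) => l.map (fun a => a.1))).mono (fun l hl => ?_)
      exact ⟨l.pmap Subtype.mk hl, by simp [List.map_pmap]⟩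
  have h2 : Monotone T := monotone_nat_of_le_succ (fun n => subset_union_left)
  refine ⟨⋃ n, T n, countable_iUnion h1, subset_iUnion T 0, fun l hl => ?_⟩
  have : ∃ n, ∀ a ∈ l, a ∈ T n := by
    induction l with
    | nil => exact ⟨0, by simp⟩
    | cons a l ih =>
      obtain ⟨n, hn⟩ := ih (fun b hb => hl b (List.mem_cons_of_mem _ hb))
      obtain ⟨m, hm⟩ := mem_iUnion.1 (hl a List.mem_cons_self)
      refine ⟨max n m, fun b hb => ?_⟩
      rcases List.mem_cons.1 hb with rfl | hb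
      · exact h2 (le_max_right _ _) hm
      · exact h2 (le_max_left _ _) (hn b hb)
  obtain ⟨n, hn⟩ := this
  exact fun a ha => mem_iUnion.2 ⟨n + 1, Or.inr (mem_biUnion hn ha)⟩

end Pool.Agent.MP_f251cb_gt

end MrgPart4

-- ======== part 5: formerly Pool.Agent.MP_f251cb_gt.Iter
section MrgPart5

/-!
The countable support iteration.
-/

set_option autoImplicit false

universe u v

namespace Pool.Agent.MP_f251cb_gt

open Set MeasureTheory

/-- the filter contains a condition of `T` that lies in `A` -/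
def hitS (T A G : Set Raw) : Prop := ∃ v ∈ G, v ∈ T ∧ v ∈ A

open Classical in
/-- the value of the `ξ`-th point listed by the bookkeeping function -/
noncomputable def xev (T : Set Raw) (β : O) (ξ : W1) (G : Set Raw) : Pt :=
  fun n => decide (hitS T (bk β (ξ, n)) G)

/-- the value of a name of a catching system -/
def rev (T : Set Raw) (ρ : ℕ × Lab → Set Raw) (G : Set Raw) : Set (ℕ × Lab) :=
  {c | hitS T (ρ c) G}

/-- `u` forces that the listed points are distinct and not yet mapped onto a dominating family -/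
def Act (F : Fo Raw) (β : O) (u : Raw) : Prop :=
  (∀ ξ η, ξ ≠ η → F.Forces u (fun G => ¬ xev F.P β ξ G = xev F.P β η G)) ∧
  ∀ ρ, ∀ u' ∈ F.P, F.le u' u → ∃ u'' ∈ F.P, F.le u'' u' ∧
    ∃ g, ∀ ξ, F.Forces u'' (fun G => ¬ Dom (rev F.P ρ G) (xev F.P β ξ G) g)

/-- the value of a coordinate -/
def evl (F : Fo Raw) (β : O) (d : Dt β) (G : Set Raw) : Cd :=
  {c | hitS F.P {u | Act F β u} G → ¬ hitS F.P (bits β d c) G}

/-- the coordinate is forced to be a condition -/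
def StV (F : Fo Raw) (β : O) (u : Raw) (d : Dt β) : Prop :=
  F.Forces u (fun G => Valid (evl F β d G)) ∧
    ∃ δ : W1, ∀ ξ, δ ≤ ξ → F.Forces u (fun G => Cat (xev F.P β ξ G) (evl F β d G))

/-- the first coordinate is forced to extend the second -/
def StL (F : Fo Raw) (β : O) (u : Raw) (d d' : Dt β) : Prop :=
  F.Forces u (fun G => Tr (evl F β d G) ⊆ Tr (evl F β d' G))

/-- the support -/
def supp (p : Raw) : Set O := {β | p β ≠ dflt β}

/-- the stage below `β`, from the data of earlier coordinates -/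
def foOf (β : O) (r : ∀ γ < β, (Raw → Prop) × (Raw → Raw → Prop)) : Fo Raw where
  P := {p | (supp p).Countable ∧ (∀ γ, β ≤ γ → p γ = dflt γ) ∧ ∀ γ h, (r γ h).1 p}
  le p q := ∀ γ h, (r γ h).2 p q

/-- validity and order at a coordinate -/
noncomputable def VL : O → (Raw → Prop) × (Raw → Raw → Prop) :=
  (wellFounded_lt (α := O)).fix (fun β r =>
    (fun p => StV (foOf β r) β (rs β p) (p β), fun p q => StL (foOf β r) β (rs β p) (p β) (q β)))

/-- validity at a coordinate -/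
def Vc (β : O) (p : Raw) : Prop := (VL β).1 p

/-- order at a coordinate -/
def Lc (β : O) (p q : Raw) : Prop := (VL β).2 p q

/-- the stage below `β` -/
def Fl (β : O) : Fo Raw where
  P := {p | (supp p).Countable ∧ (∀ γ, β ≤ γ → p γ = dflt γ) ∧ ∀ γ < β, Vc γ p}
  le p q := ∀ γ < β, Lc γ p q

lemma VL_eq (β : O) : VL β = (fun p => StV (Fl β) β (rs β p) (p β),
    fun p q => StL (Fl β) β (rs β p) (p β) (q β)) := by
  rw [VL, WellFounded.fix_eq]
  rfl

lemma Vc_iff {β : O} {p : Raw} : Vc β p ↔ StV (Fl β) β (rs β p) (p β) := by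
  rw [Vc, VL_eq]

lemma Lc_iff {β : O} {p q : Raw} : Lc β p q ↔ StL (Fl β) β (rs β p) (p β) (q β) := by
  rw [Lc, VL_eq]

/-- the whole iteration -/
def FF : Fo Raw where
  P := {p | (supp p).Countable ∧ ∀ γ, Vc γ p}
  le p q := ∀ γ, Lc γ p q

/-- the conditions of a stage -/
def PB (β : O) : Set Raw := (Fl β).P

variable {α β γ : O} {p q r u v w : Raw}

lemma Vc_congr (h : ∀ γ ≤ β, p γ = q γ) (hp : Vc β p) : Vc β q := by
  rw [Vc_iff] at hp ⊢
  rwa [← h β le_rfl, ← rs_congr (fun γ k => h γ k.le)]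

lemma Lc_congr {p' q' : Raw} (h : ∀ γ ≤ β, p γ = p' γ) (h' : q β = q' β) (hp : Lc β p q) :
    Lc β p' q' := by
  rw [Lc_iff] at hp ⊢
  rwa [← h β le_rfl, ← rs_congr (fun γ k => h γ k.le), ← h']

lemma fl_forall {Φ : Set Raw → Prop} (ih : ∀ γ < β, ∀ p, Lc γ p p) (h : ∀ G, Φ G) :
    (Fl β).Forces u Φ :=
  ⟨fun _ => univ, fun _ p hp => ⟨p, trivial, hp, fun γ k => ih γ k p⟩, fun G _ _ _ => h G⟩

lemma Lc_refl (β : O) (p : Raw) : Lc β p p := by
  induction β using (wellFounded_lt (α := O)).induction generalizing p with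
  | h β ih => exact Lc_iff.2 (fl_forall ih (fun _ => le_rfl))

lemma Lc_of_eq (h : p β = q β) : Lc β p q := Lc_congr (fun _ _ => rfl) h (Lc_refl β p)

lemma evl_dflt (F : Fo Raw) (β : O) (G : Set Raw) : evl F β (dflt β) G = univ := by
  refine eq_univ_of_forall (fun c _ => ?_)
  rintro ⟨v, -, -, k⟩
  simp [bits_dflt] at k

lemma Vc_dflt (h : p β = dflt β) : Vc β p := by
  rw [Vc_iff, h]
  refine ⟨fl_forall (fun γ _ => Lc_refl γ) (fun G => ?_), Classical.arbitrary _,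
    fun ξ _ => fl_forall (fun γ _ => Lc_refl γ) (fun G => ?_)⟩
  · rw [evl_dflt]
    exact valid_univ
  · rw [evl_dflt]
    exact cat_univ _

lemma Lc_dflt (h : q β = dflt β) : Lc β p q := by
  rw [Lc_iff, h]
  refine fl_forall (fun γ _ => Lc_refl γ) (fun G => ?_)
  rw [evl_dflt, tr_univ]
  exact subset_univ _

lemma supp_rs (α : O) (p : Raw) : supp (rs α p) ⊆ supp p ∩ Iio α := by
  intro γ hγ
  by_cases k : γ < α
  · exact ⟨by rwa [supp, mem_ofPred_eq, rs_lt _ k] at hγ, k⟩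
  · exact (hγ (rs_ge _ (not_lt.1 k))).elim

lemma rs_mem' (h1 : (supp p).Countable) (h2 : ∀ γ < β, Vc γ p) : rs β p ∈ PB β :=
  ⟨h1.mono ((supp_rs β p).trans inter_subset_left), fun _ k => rs_ge _ k,
    fun γ k => Vc_congr (fun _ l => (rs_lt _ (l.trans_lt k)).symm) (h2 γ k)⟩

lemma rs_mem (hp : p ∈ FF.P) (β : O) : rs β p ∈ PB β := rs_mem' hp.1 (fun γ _ => hp.2 γ)

lemma rs_le (h : ∀ γ < β, Lc γ p q) : (Fl β).le (rs β p) (rs β q) := fun γ k =>
  Lc_congr (fun _ l => (rs_lt _ (l.trans_lt k)).symm) (rs_lt _ k).symm (h γ k)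

lemma Lc_trans (hq : rs β q ∈ PB β) (h : ∀ γ < β, Lc γ p q) (h1 : Lc β p q) (h2 : Lc β q r) :
    Lc β p r := by
  rw [Lc_iff] at h1 h2 ⊢
  exact (h1.and (h2.mono hq (rs_le h))).imp (fun G _ _ k => k.1.trans k.2)

lemma Vc_mono (hq : rs β q ∈ PB β) (h : ∀ γ < β, Lc γ p q) (he : p β = q β) (h1 : Vc β q) :
    Vc β p := by
  rw [Vc_iff] at h1 ⊢
  obtain ⟨k1, δ, k2⟩ := h1
  rw [he]
  exact ⟨k1.mono hq (rs_le h), δ, fun ξ l => (k2 ξ l).mono hq (rs_le h)⟩

lemma good_FF : FF.Good :=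
  ⟨fun p _ γ => Lc_refl γ p, fun _ _ _ hq _ _ h1 h2 γ =>
    Lc_trans (rs_mem hq γ) (fun γ _ => h1 γ) (h1 γ) (h2 γ)⟩

lemma le_rfl' (p : Raw) : FF.le p p := fun γ => Lc_refl γ p

lemma le_trans' (hq : q ∈ FF.P) (h1 : FF.le p q) (h2 : FF.le q r) : FF.le p r := fun γ =>
  Lc_trans (rs_mem hq γ) (fun γ _ => h1 γ) (h1 γ) (h2 γ)

lemma PB_sub (hp : p ∈ PB β) : p ∈ FF.P :=
  ⟨hp.1, fun γ => (lt_or_ge γ β).elim (hp.2.2 γ) (fun k => Vc_dflt (hp.2.1 γ k))⟩

lemma mem_PB (hp : p ∈ FF.P) (h : ∀ γ, β ≤ γ → p γ = dflt γ) : p ∈ PB β :=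
  ⟨hp.1, h, fun γ _ => hp.2 γ⟩

lemma PB_mono (h : α ≤ β) (hp : p ∈ PB α) : p ∈ PB β :=
  mem_PB (PB_sub hp) (fun γ k => hp.2.1 γ (h.trans k))

lemma rs_PB (hp : p ∈ PB α) : rs α p = p := rs_eq_self hp.2.1

lemma rs_PB' (hp : p ∈ PB α) (h : α ≤ β) : rs β p = p := rs_PB (PB_mono h hp)

lemma le_of_lt (hq : q ∈ PB β) (h : ∀ γ < β, Lc γ p q) : FF.le p q := fun γ =>
  (lt_or_ge γ β).elim (h γ) (fun k => Lc_dflt (hq.2.1 γ k))

lemma le_rs (p : Raw) (β : O) : FF.le p (rs β p) := fun γ =>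
  (lt_or_ge γ β).elim (fun k => Lc_of_eq (rs_lt _ k).symm) (fun k => Lc_dflt (rs_ge _ k))

lemma rs_mono (h : FF.le p q) (β : O) : FF.le (rs β p) (rs β q) := fun γ =>
  (lt_or_ge γ β).elim (rs_le (fun γ _ => h γ) γ) (fun k => Lc_dflt (rs_ge _ k))

lemma rs_le_of_le (hu : u ∈ PB β) (h : FF.le p u) : FF.le (rs β p) u := by
  have := rs_mono h β
  rwa [rs_PB hu] at this

lemma exists_PB (hp : p ∈ FF.P) : ∃ β, p ∈ PB β := by
  have := hp.1.to_subtype
  obtain ⟨β, hβ⟩ := Ordinal.bddAbove_of_small (s := supp p)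
  refine ⟨β + 1, mem_PB hp (fun γ k => ?_)⟩
  by_contra hn
  exact (Order.add_one_le_iff.1 k).not_ge (hβ hn)

/-- amalgamation -/
noncomputable def glue (α : O) (u p : Raw) : Raw := fun γ => if γ < α then u γ else p γ

lemma glue_lt (h : γ < α) : glue α u p γ = u γ := if_pos h

lemma glue_ge (h : α ≤ γ) : glue α u p γ = p γ := if_neg (not_lt.2 h)

lemma glue_le (h : FF.le u (rs α p)) : FF.le (glue α u p) p := fun γ =>
  (lt_or_ge γ α).elim
    (fun k => Lc_congr (fun _ l => (glue_lt (l.trans_lt k)).symm) (rs_lt _ k) (h γ))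
    (fun k => Lc_of_eq (glue_ge k))

lemma rs_glue (hu : u ∈ PB α) : rs α (glue α u p) = u :=
  (rs_congr (fun _ k => glue_lt k)).trans (rs_PB hu)

lemma glue_le' (hu : u ∈ PB α) : FF.le (glue α u p) u := by
  have := le_rs (glue α u p) α
  rwa [rs_glue hu] at this

lemma glue_mem (hu : u ∈ PB α) (hp : p ∈ FF.P) (h : FF.le u (rs α p)) : glue α u p ∈ FF.P := by
  refine ⟨(hu.1.union hp.1).mono (fun γ k => ?_), fun γ => (lt_or_ge γ α).elim
    (fun k => Vc_congr (fun _ l => (glue_lt (l.trans_lt k)).symm) (hu.2.2 γ k))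
    (fun k => Vc_mono (rs_mem hp γ) (fun γ _ => glue_le h γ) (glue_ge k) (hp.2 γ))⟩
  rcases lt_or_ge γ α with l | l
  · exact Or.inl (by rwa [supp, mem_ofPred_eq, glue_lt l] at k)
  · exact Or.inr (by rwa [supp, mem_ofPred_eq, glue_ge l] at k)

lemma glue_mem' (hu : u ∈ PB α) (hp : p ∈ PB β) (hαβ : α ≤ β) (h : FF.le u (rs α p)) :
    glue α u p ∈ PB β :=
  mem_PB (glue_mem hu (PB_sub hp) h) (fun γ k => (glue_ge (hαβ.trans k)).trans (hp.2.1 γ k))

/-- a stage as a suborder -/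
noncomputable def SB (α : O) : FF.Sub where
  S := PB α
  π := rs α
  good := good_FF
  sub := fun _ => PB_sub
  mem := fun _ h => rs_mem h α
  le_π := fun p _ => le_rs p α
  π_le := fun _ _ _ => rs_le_of_le
  amal := fun _ hp _ hu h => ⟨_, glue_mem hu hp h, glue_le' hu, glue_le h⟩

lemma fl_conv {Φ : Set Raw → Prop} (hu : u ∈ PB β) (hΦ : Measurable[Fo.Sub.gen (PB β)] Φ) :
    (Fl β).Forces u Φ ↔ FF.Forces u Φ :=
  Fo.Sub.conv (S := SB β) rfl (fun _ _ _ hq => ⟨le_of_lt hq, fun h γ _ => h γ⟩) hu hΦ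

/-- the points listed at a stage -/
noncomputable def X (β : O) (ξ : W1) (G : Set Raw) : Pt := xev (PB β) β ξ G

/-- the stage is active -/
def act (β : O) (G : Set Raw) : Prop := hitS (PB β) {u | Act (Fl β) β u} G

/-- the value of a coordinate -/
def ev (β : O) (p : Raw) (G : Set Raw) : Cd := evl (Fl β) β (p β) G

section

variable {m : MeasurableSpace (Set Raw)} (hm : Fo.Sub.gen (PB β) ≤ m)
include hm

lemma m_hit (A : Set Raw) : Measurable[m] (hitS (PB β) A) :=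
  (Fo.Sub.gen_hit (PB β) A).mono hm le_rfl

lemma m_X (ξ : W1) : @MP _ m (X β ξ) := fun n b => by
  cases b
  · exact meas_congr (m_hit hm (bk β (ξ, n))).not (fun G => by simp [X, xev])
  · exact meas_congr (m_hit hm (bk β (ξ, n))) (fun G => by simp [X, xev])

lemma m_rev (ρ : ℕ × Lab → Set Raw) : @MS _ m _ (rev (PB β) ρ) := fun _ => m_hit hm _

lemma m_ev (p : Raw) : @MS _ m _ (ev β p) := fun _ => (m_hit hm _).imp (m_hit hm _).not

end

lemma Vc_iff' (hp : rs β p ∈ PB β) : Vc β p ↔ FF.Forces (rs β p) (fun G => Valid (ev β p G)) ∧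
    ∃ δ : W1, ∀ ξ, δ ≤ ξ → FF.Forces (rs β p) (fun G => Cat (X β ξ G) (ev β p G)) := by
  rw [Vc_iff, ← fl_conv hp (m_ev le_rfl p).valid]
  refine and_congr Iff.rfl (exists_congr (fun δ => forall_congr' (fun ξ => imp_congr Iff.rfl ?_)))
  exact fl_conv hp ((m_ev le_rfl p).cat (m_X le_rfl ξ))

lemma Lc_iff' (hp : rs β p ∈ PB β) :
    Lc β p q ↔ FF.Forces (rs β p) (fun G => Tr (ev β p G) ⊆ Tr (ev β q G)) := by
  rw [Lc_iff, ← fl_conv hp ((m_ev le_rfl p).tr.sub (m_ev le_rfl q).tr)]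
  rfl

lemma Act_iff (hu : u ∈ PB β) : Act (Fl β) β u ↔
    (∀ ξ η, ξ ≠ η → FF.Forces u (fun G => ¬ X β ξ G = X β η G)) ∧
    ∀ ρ, ∀ u' ∈ PB β, FF.le u' u → ∃ u'' ∈ PB β, FF.le u'' u' ∧
      ∃ g, ∀ ξ, FF.Forces u'' (fun G => ¬ Dom (rev (PB β) ρ G) (X β ξ G) g) := by
  let _ := Fo.Sub.gen (PB β)
  refine and_congr (forall_congr' (fun ξ => forall_congr' (fun η => imp_congr Iff.rfl
    (fl_conv hu ((m_X le_rfl ξ).eq (m_X le_rfl η)).not)))) (forall_congr' (fun ρ =>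
      forall_congr' (fun u' => forall_congr' (fun hu' => imp_congr
        ⟨le_of_lt hu, fun h γ _ => h γ⟩ (exists_congr (fun u'' => and_congr_right (fun hu'' =>
          and_congr ⟨le_of_lt hu', fun h γ _ => h γ⟩ (exists_congr (fun g => forall_congr'
            (fun ξ => ?_))))))))))
  exact fl_conv hu''
    ((m_rev le_rfl ρ).dom (m_X le_rfl ξ) (gg := fun _ => g) (fun _ => cm_const _)).not

lemma ev_inact {G : Set Raw} (h : ¬ act β G) : ev β p G = univ :=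
  eq_univ_of_forall (fun _ k => (h k).elim)

lemma ev_congr (h : p β = q β) : ev β p = ev β q := by
  funext G
  rw [ev, ev, h]

lemma gen_SB (β : O) : Fo.Sub.gen (PB β) ≤ (SB β).ms := Fo.Sub.gen_le (S := SB β)

lemma ms_mono (h : α ≤ β) : (SB α).ms ≤ (SB β).ms := by
  intro s hs u hu
  obtain ⟨r, k1, k2, k3⟩ := hs _ (rs_mem (PB_sub hu) α)
  exact ⟨glue α r u, glue_mem' k1 hu h k2, glue_le k2,
    k3.imp (fun l => l.mono (PB_sub k1) (glue_le' k1)) (fun l => l.mono (PB_sub k1) (glue_le' k1))⟩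

lemma ms_ev (β : O) (p : Raw) : @MS _ (SB β).ms _ (ev β p) := m_ev (gen_SB β) p

lemma ms_X (β : O) (ξ : W1) : @MP _ (SB β).ms (X β ξ) := m_X (gen_SB β) ξ

lemma ms_act (β : O) : Measurable[(SB β).ms] (act β) := m_hit (gen_SB β) _

lemma forces_valid (hp : p ∈ FF.P) (β : O) : FF.Forces (rs β p) (fun G => Valid (ev β p G)) :=
  ((Vc_iff' (rs_mem hp β)).1 (hp.2 β)).1

lemma forces_cat (hp : p ∈ FF.P) (β : O) :
    ∃ δ : W1, ∀ ξ, δ ≤ ξ → FF.Forces (rs β p) (fun G => Cat (X β ξ G) (ev β p G)) :=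
  ((Vc_iff' (rs_mem hp β)).1 (hp.2 β)).2

lemma forces_le (hp : p ∈ FF.P) (h : FF.le p q) (β : O) :
    FF.Forces (rs β p) (fun G => Tr (ev β p G) ⊆ Tr (ev β q G)) :=
  (Lc_iff' (rs_mem hp β)).1 (h β)

end Pool.Agent.MP_f251cb_gt

end MrgPart5

-- marker of a merged file
example : 731051 + 526961 = 731051 + 526961 := rfl
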